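import Pool.Agent.L7h29.GT.Rel

/-!
# Closure under powers
-/

set_option autoImplicit false

namespace Pool.Agent.L7h29.GT

open Filter Topology Complex Set Pool.Agent.N210.FV Pool.Agent.N210.FW Pool.Agent.N845.SP

theorem DL.congr {S : Finset ℕ} {m : ℕ} {b b' : ℕ → ℕ → ℂ} {N D N' D' : ℂ → ℂ}
    (h : DL S m b N D N' D') (hb : ∀ p : ℕ, p.Prime → p ∉ S → ∀ i < m, b p i = b' p i) :
    DL S m b' N D N' D' := by
  refine ⟨h.diffN, h.diffD, h.diffN', h.diffD', h.order, h.ne, fun s hs => ?_, fun s hs => ?_, h.fe⟩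
  · refine (h.euler s hs).congr fun X => ?_
    refine Finset.prod_congr rfl fun p hp => Finset.prod_congr rfl fun i hi => ?_
    rw [Finset.mem_filter] at hp
    rw [hb p hp.2.1 hp.2.2 i (Finset.mem_range.1 hi)]
  · refine (h.euler' s hs).congr fun X => ?_
    refine Finset.prod_congr rfl fun p hp => Finset.prod_congr rfl fun i hi => ?_
    rw [Finset.mem_filter] at hp
    rw [hb p hp.2.1 hp.2.2 i (Finset.mem_range.1 hi)]

theorem chl {n m : ℕ} (h : n ∣ m) (χ : DirichletCharacter ℂ n) {p : ℕ} (hp : p.Coprime m) :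
    DirichletCharacter.changeLevel h χ (p : ZMod m) = χ (p : ZMod n) := by
  have h1 := DirichletCharacter.changeLevel_eq_cast_of_dvd' χ h (a := (p : ℤ))
    (Nat.isCoprime_iff_coprime.2 hp)
  simpa using h1

theorem cop {p n : ℕ} (hp : p.Prime) (hn : n ≠ 0) (h : p ∉ n.primeFactors) : p.Coprime n := by
  rw [Nat.Prime.coprime_iff_not_dvd hp]
  intro h1
  exact h (Nat.mem_primeFactors.2 ⟨hp, h1, hn⟩)

theorem chr_norm {n : ℕ} (χ : DirichletCharacter ℂ n) {p : ℕ} (hp : p.Coprime n) :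
    ‖χ (p : ZMod n)‖ = 1 := by
  have := χ.unit_norm_eq_one (ZMod.unitOfCoprime p hp)
  rwa [ZMod.coe_unitOfCoprime] at this

theorem mc_zpow {m : ℕ} (ψ : DirichletCharacter ℂ m) (u : (ZMod m)ˣ) (j : ℤ) :
    (ψ ^ j) (u : ZMod m) = ψ (u : ZMod m) ^ j := by
  obtain ⟨n, rfl | rfl⟩ := j.eq_nat_or_neg
  · rw [zpow_natCast, zpow_natCast, MulChar.pow_apply_coe]
  · rw [zpow_neg, zpow_natCast, zpow_neg, zpow_natCast, MulChar.inv_apply_eq_inv',
      MulChar.pow_apply_coe]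

/-- a form on `GL_2`: the pairs `L(s, Sym^k π ⊗ χ)`, `k ≤ K` -/
structure Fam (S : Finset ℕ) (α β : ℕ → ℂ) (K : ℕ) : Prop where
  dl : ∀ k ≤ K, ∀ (n : ℕ) [NeZero n] (χ : DirichletCharacter ℂ n), ∃ N D N' D' : ℂ → ℂ,
    DL (S ∪ n.primeFactors) (k + 1) (sb α β (fun p => χ (p : ZMod n)) k) N D N' D'

/-- twists by powers of the central character -/
theorem Fam.twist {S : Finset ℕ} {α β : ℕ → ℂ} {K N₀ : ℕ} [NeZero N₀]
    {ω : DirichletCharacter ℂ N₀} (hN₀ : N₀.primeFactors ⊆ S)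
    (hω : ∀ p : ℕ, p.Prime → p ∉ S → α p * β p = ω (p : ZMod N₀))
    (h : Fam S α β K) {k : ℕ} (hk : k ≤ K) (n : ℕ) [NeZero n] (χ : DirichletCharacter ℂ n) (j : ℤ) :
    ∃ N D N' D' : ℂ → ℂ, DL (S ∪ n.primeFactors) (k + 1)
      (sb α β (fun p => χ (p : ZMod n) * (α p * β p) ^ j) k) N D N' D' := by
  have hn := NeZero.ne n
  have hn0 := NeZero.ne N₀
  obtain ⟨N, D, N', D', hD⟩ := h.dl k hk (n * N₀)
    (DirichletCharacter.changeLevel (Dvd.intro N₀ rfl) χ *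
      (DirichletCharacter.changeLevel (Dvd.intro_left n rfl) ω) ^ j)
  have hS : S ∪ (n * N₀).primeFactors = S ∪ n.primeFactors := by
    rw [Nat.primeFactors_mul hn hn0, ← Finset.union_assoc, Finset.union_right_comm,
      Finset.union_eq_left.2 hN₀]
  rw [hS] at hD
  refine ⟨N, D, N', D', hD.congr fun p hp hpS i _ => ?_⟩
  rw [Finset.mem_union, not_or] at hpS
  have h1 : p.Coprime n := cop hp hn hpS.2
  have h2 : p.Coprime N₀ := cop hp hn0 fun h3 => hpS.1 (hN₀ h3)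
  have h3 : p.Coprime (n * N₀) := Nat.Coprime.mul_right h1 h2
  have h4 : ((DirichletCharacter.changeLevel (Dvd.intro N₀ rfl) χ *
      (DirichletCharacter.changeLevel (Dvd.intro_left n rfl) ω) ^ j :
      DirichletCharacter ℂ (n * N₀)) (p : ZMod (n * N₀))) =
      χ (p : ZMod n) * (α p * β p) ^ j := by
    rw [MulChar.mul_apply, chl _ _ h3, hω p hp hpS.1]
    congr 1
    have h5 := mc_zpow (DirichletCharacter.changeLevel (Dvd.intro_left n rfl) ω :
      DirichletCharacter ℂ (n * N₀)) (ZMod.unitOfCoprime p h3) j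
    rw [ZMod.coe_unitOfCoprime] at h5
    rw [h5, chl _ _ h3]
  unfold sb
  simp only [h4]

theorem sep_char {p n : ℕ} (hp : p.Prime) (hn : 1 ≤ n) : ∃ (m : ℕ) (_ : NeZero m)
    (χ : DirichletCharacter ℂ m), p ∉ m.primeFactors ∧ χ (p : ZMod m) ^ (2 * n) ≠ 1 := by
  set m : ℕ := p ^ (2 * n) + 1 with hm
  have hm0 : NeZero m := ⟨by omega⟩
  have hp2 : 2 ≤ p ^ (2 * n) := by
    calc 2 ≤ p := hp.two_le
      _ = p ^ 1 := (pow_one p).symm
      _ ≤ p ^ (2 * n) := Nat.pow_le_pow_right hp.pos (by omega)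
  have hcop : p.Coprime m := by
    rw [Nat.Prime.coprime_iff_not_dvd hp]
    intro h
    have h1 : p ∣ p ^ (2 * n) := dvd_pow_self p (by omega)
    have h2 : p ∣ 1 := (Nat.dvd_add_right h1).1 h
    exact hp.one_lt.ne' (Nat.dvd_one.1 h2)
  have hne : ((p : ZMod m) ^ (2 * n)) ≠ 1 := by
    intro h
    have h1 : ((p ^ (2 * n) : ℕ) : ZMod m) = ((1 : ℕ) : ZMod m) := by
      push_cast
      exact h
    rw [ZMod.natCast_eq_natCast_iff] at h1
    have h2 := (Nat.modEq_iff_dvd' (by omega)).1 h1.symm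
    have h3 := Nat.le_of_dvd (by omega) h2
    omega
  obtain ⟨χ, hχ⟩ := DirichletCharacter.exists_apply_ne_one_of_hasEnoughRootsOfUnity ℂ hne
  refine ⟨m, hm0, χ, fun h => ?_, by rwa [map_pow] at hχ⟩
  have h1 := (Nat.mem_primeFactors.1 h).2.1
  exact (Nat.Prime.coprime_iff_not_dvd hp).1 hcop h1

/-- **few values**, all powers -/
theorem closed {S : Finset ℕ} {α β : ℕ → ℂ} {J N₀ : ℕ} [NeZero N₀]
    {ω : DirichletCharacter ℂ N₀} (hN₀ : N₀.primeFactors ⊆ S)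
    (hω : ∀ p : ℕ, p.Prime → p ∉ S → α p * β p = ω (p : ZMod N₀))
    (h : Fam S α β (2 * J + 1)) {y : ℕ → ℝ}
    (hy : ∀ p : ℕ, p.Prime → p ∉ S → (α p + β p) ^ 2 = α p * β p * (y p + 2))
    (T : Finset ℕ) (V : Finset ℝ) (hV : V.card ≤ J)
    (hT : ∀ p : ℕ, p.Prime → p ∉ T → α p + β p = 0 ∨ y p ∈ V) {p : ℕ} (hp : p.Prime) (hpS : p ∉ S)
    {n : ℕ} (hn : 1 ≤ n) :
    ∃ v ∈ insert (-2) V, (α p / β p) ^ n + ((α p / β p) ^ n)⁻¹ = ((v : ℝ) : ℂ) := by
  classical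
  have hn0 := NeZero.ne N₀
  have hnorm : ∀ p : ℕ, p.Prime → p ∉ S → ‖α p * β p‖ = 1 := fun p hp hpS => by
    rw [hω p hp hpS]
    exact chr_norm ω (cop hp hn0 fun h3 => hpS (hN₀ h3))
  have hα : ∀ p : ℕ, p.Prime → p ∉ S → α p ≠ 0 := fun p hp hpS h0 => by
    have h1 := hnorm p hp hpS
    rw [h0, zero_mul, norm_zero] at h1
    exact zero_ne_one h1
  have hβ : ∀ p : ℕ, p.Prime → p ∉ S → β p ≠ 0 := fun p hp hpS h0 => by
    have h1 := hnorm p hp hpS
    rw [h0, mul_zero, norm_zero] at h1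
    exact zero_ne_one h1
  have ha0 := hα p hp hpS
  have hb0 := hβ p hp hpS
  have hu0 : α p / β p ≠ 0 := div_ne_zero ha0 hb0
  obtain ⟨z, hz⟩ := tr_real hu0 (x := y p) (by
    have h1 := hy p hp hpS
    field_simp
    linear_combination h1) n
  have hz2 : (α p ^ n + β p ^ n) ^ 2 = α p ^ n * β p ^ n * (z + 2) := by
    have h1 : α p ^ n ≠ 0 := pow_ne_zero n ha0
    have h2 : β p ^ n ≠ 0 := pow_ne_zero n hb0
    rw [div_pow] at hz
    field_simp at hz
    linear_combination hz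
  have key : ∀ (m : ℕ) [NeZero m] (χ : DirichletCharacter ℂ m), p ∉ m.primeFactors →
      (χ (p : ZMod m) ^ n + (χ (p : ZMod m) ^ n)⁻¹ * (α p ^ n * β p ^ n)⁻¹) *
        (α p ^ n + β p ^ n) * ((∏ v ∈ V, (z - v) : ℝ) : ℂ) = 0 := by
    intro m _ χ hpm
    have hm := NeZero.ne m
    have hF : ∀ j ≤ J, ∃ N D N' D' : ℂ → ℂ, DL (S ∪ m.primeFactors) (2 * j + 2)
        (sb α β (fun p => χ (p : ZMod m) * ((α p * β p) ^ j)⁻¹) (2 * j + 1)) N D N' D' := by
      intro j hj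
      obtain ⟨N, D, N', D', hD⟩ := h.twist hN₀ hω (k := 2 * j + 1) (by omega) m χ (-(j : ℤ))
      simp only [zpow_neg, zpow_natCast] at hD
      exact ⟨N, D, N', D', hD⟩
    choose! N D N' D' hD using hF
    exact rel_tw (S := S ∪ m.primeFactors) (χ := fun p => χ (p : ZMod m)) (y := y)
      (fun q hq hqS => hα q hq fun h => hqS (Finset.mem_union_left _ h))
      (fun q hq hqS => hβ q hq fun h => hqS (Finset.mem_union_left _ h))
      (fun q hq hqS => hnorm q hq fun h => hqS (Finset.mem_union_left _ h))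
      (fun q hq hqS => chr_norm χ (cop hq hm fun h => hqS (Finset.mem_union_right _ h)))
      (fun q hq hqS => hy q hq fun h => hqS (Finset.mem_union_left _ h))
      hD T V hV hT hp (fun h => by
        rcases Finset.mem_union.1 h with h | h
        · exact hpS h
        · exact hpm h) hn hz2
  have h1 : α p ^ n + β p ^ n = 0 ∨ z ∈ V := by
    by_contra hcon
    push Not at hcon
    have h2 : ((∏ v ∈ V, (z - v) : ℝ) : ℂ) ≠ 0 := by
      have h3 : ∏ v ∈ V, (z - v) ≠ 0 := by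
        rw [Finset.prod_ne_zero_iff]
        intro v hv h4
        exact hcon.2 ((sub_eq_zero.1 h4) ▸ hv)
      exact_mod_cast h3
    have h3 : ∀ (m : ℕ) [NeZero m] (χ : DirichletCharacter ℂ m), p ∉ m.primeFactors →
        χ (p : ZMod m) ^ n + (χ (p : ZMod m) ^ n)⁻¹ * (α p ^ n * β p ^ n)⁻¹ = 0 := by
      intro m _ χ hpm
      have h4 := key m χ hpm
      rcases mul_eq_zero.1 h4 with h5 | h5
      · rcases mul_eq_zero.1 h5 with h6 | h6
        · exact h6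
        · exact absurd h6 hcon.1
      · exact absurd h5 h2
    have h4 := h3 1 1 (by simp)
    have h5 : ((1 : DirichletCharacter ℂ 1) (p : ZMod 1)) = 1 := by
      rw [Subsingleton.elim (p : ZMod 1) 1, map_one]
    rw [h5, one_pow, inv_one, one_mul] at h4
    have h6 : (α p ^ n * β p ^ n)⁻¹ = -1 := by linear_combination h4
    obtain ⟨m, hm, χ, hpm, hχ⟩ := sep_char hp hn
    have h7 := h3 m χ hpm
    rw [h6] at h7
    have h8 : χ (p : ZMod m) ≠ 0 := by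
      have h9 := chr_norm χ (cop hp hm.ne hpm)
      intro h10
      rw [h10, norm_zero] at h9
      exact zero_ne_one h9
    have h9 : χ (p : ZMod m) ^ n ≠ 0 := pow_ne_zero n h8
    apply hχ
    rw [mul_comm 2 n, pow_mul]
    field_simp at h7
    linear_combination h7
  rcases h1 with h1 | h1
  · refine ⟨-2, Finset.mem_insert_self _ _, ?_⟩
    have h2 : β p ^ n ≠ 0 := pow_ne_zero n hb0
    have h3 : (α p / β p) ^ n = -1 := by
      rw [div_pow, div_eq_iff h2]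
      linear_combination h1
    rw [h3]
    push_cast
    norm_num
  · exact ⟨z, Finset.mem_insert_of_mem h1, hz⟩

/-- reduction of the characters -/
theorem red {S : Finset ℕ} {u : ℕ → ℂ} (hu : ∀ p : ℕ, p.Prime → p ∉ S → u p ≠ 0) (V : Finset ℝ)
    (hcl : ∀ p : ℕ, p.Prime → p ∉ S → ∀ n : ℕ, 1 ≤ n → ∃ v ∈ V, u p ^ n + (u p ^ n)⁻¹ = (v : ℂ))
    (k : ℕ) : ∃ c : ℕ → ℤ, ∀ p : ℕ, p.Prime → p ∉ S → ∀ n : ℕ, 1 ≤ n → ∀ z : ℝ,
      u p ^ n + (u p ^ n)⁻¹ = (z : ℂ) → xr k z = ∑ j ∈ Finset.range V.card, (c j : ℝ) * xr j z := by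
  classical
  have hord : ∀ p : ℕ, p.Prime → p ∉ S → 0 < orderOf (u p) := fun p hp hpS =>
    (root_unity (hu p hp hpS) (hcl p hp hpS)).1
  set V' : Finset ℝ := V.filter fun v => ∃ p n : ℕ, p.Prime ∧ p ∉ S ∧ 1 ≤ n ∧
    u p ^ n + (u p ^ n)⁻¹ = (v : ℂ) with hV'
  have hV'V : V'.card ≤ V.card := Finset.card_filter_le _ _
  have hmem : ∀ p : ℕ, p.Prime → p ∉ S → ∀ n : ℕ, 1 ≤ n →
      ∃ v ∈ V', u p ^ n + (u p ^ n)⁻¹ = (v : ℂ) := by
    intro p hp hpS n hn
    obtain ⟨v, hv, hv2⟩ := hcl p hp hpS n hn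
    exact ⟨v, Finset.mem_filter.2 ⟨hv, p, n, hp, hpS, hn, hv2⟩, hv2⟩
  obtain ⟨Pz, hPm, hPd, hPe⟩ := int_rel (V := V') (by
    intro v hv
    obtain ⟨-, p, n, hp, hpS, hn, hv2⟩ := Finset.mem_filter.1 hv
    refine ⟨u p ^ n, orderOf (u p), hord p hp hpS, ?_, hv2, fun m hm => ?_⟩
    · rw [← pow_mul, mul_comm, pow_mul, pow_orderOf_eq_one, one_pow]
    · obtain ⟨w, hw, hw2⟩ := hmem p hp hpS (n * m) (Nat.mul_pos hn hm)
      exact ⟨w, hw, by rw [← pow_mul]; exact hw2⟩)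
  obtain ⟨c, hc⟩ := char_rel hPm k
  rw [hPd] at hc
  refine ⟨fun j => if j < V'.card then c j else 0, fun p hp hpS n hn z hz => ?_⟩
  obtain ⟨v, hv, hv2⟩ := hmem p hp hpS n hn
  have h1 : z = v := by
    rw [hz] at hv2
    exact_mod_cast hv2
  subst h1
  rw [hc z (by rw [hPe]; exact Finset.prod_eq_zero hv (sub_self z))]
  refine Finset.sum_subset_zero_on_sdiff (Finset.range_subset_range.2 hV'V) (fun j hj => ?_)
    (fun j hj => ?_)
  · rw [Finset.mem_sdiff, Finset.mem_range, Finset.mem_range] at hj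
    simp [hj.2]
  · rw [Finset.mem_range] at hj
    simp [hj]

end Pool.Agent.L7h29.GT
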