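import Pool.Agent.N845.SP.Few

/-!
# Pairs of contragredient L-functions
-/

set_option autoImplicit false

namespace Pool.Agent.L7h29.GT

open Filter Topology Complex Set Pool.Agent.N210.FV Pool.Agent.N210.FW Pool.Agent.N845.SP

/-- an Euler product with parameters `b p i`, `i < m`, and the one with the inverse parameters -/
structure DL (S : Finset ℕ) (m : ℕ) (b : ℕ → ℕ → ℂ) (N D N' D' : ℂ → ℂ) : Prop where
  diffN : Differentiable ℂ N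
  diffD : Differentiable ℂ D
  diffN' : Differentiable ℂ N'
  diffD' : Differentiable ℂ D'
  order : ∃ C : ℝ, ∀ s, ‖N s‖ ≤ Real.exp (C * (1 + ‖s‖) ^ (3 / 2 : ℝ)) ∧
    ‖D s‖ ≤ Real.exp (C * (1 + ‖s‖) ^ (3 / 2 : ℝ)) ∧
    ‖N' s‖ ≤ Real.exp (C * (1 + ‖s‖) ^ (3 / 2 : ℝ)) ∧
    ‖D' s‖ ≤ Real.exp (C * (1 + ‖s‖) ^ (3 / 2 : ℝ))
  ne : ∀ s : ℂ, 1 < s.re → D s ≠ 0 ∧ D' s ≠ 0
  euler : ∀ s : ℂ, 1 < s.re → Tendsto (fun X : ℕ =>
    ∏ p ∈ (Finset.range X).filter (fun p => p.Prime ∧ p ∉ S),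
      ∏ i ∈ Finset.range m, (1 - b p i * (p : ℂ) ^ (-s))⁻¹) atTop (𝓝 (N s / D s))
  euler' : ∀ s : ℂ, 1 < s.re → Tendsto (fun X : ℕ =>
    ∏ p ∈ (Finset.range X).filter (fun p => p.Prime ∧ p ∉ S),
      ∏ i ∈ Finset.range m, (1 - (b p i)⁻¹ * (p : ℂ) ^ (-s))⁻¹) atTop (𝓝 (N' s / D' s))
  fe : ∃ (μ μ' : List ℂ) (l l' k k' : List (ℕ × ℂ)) (q : ℝ) (ε : ℂ), 0 < q ∧ ε ≠ 0 ∧
    (∀ x ∈ l, x.1.Prime ∧ x.1 ∈ S) ∧ (∀ x ∈ l', x.1.Prime ∧ x.1 ∈ S) ∧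
    (∀ x ∈ k, x.1.Prime ∧ x.1 ∈ S) ∧ (∀ x ∈ k', x.1.Prime ∧ x.1 ∈ S) ∧
    ∀ s, (q : ℂ) ^ s * gi μ' (1 - s) * ef k (1 - s) * ef l' s * (N s * D' (1 - s)) =
      ε * (q : ℂ) ^ (1 - s) * gi μ s * ef l s * ef k' (1 - s) * (N' (1 - s) * D s)

/-- the parameters together with their inverses -/
noncomputable def dbl (m : ℕ) (b : ℕ → ℕ → ℂ) (p i : ℕ) : ℂ := if i < m then b p i else (b p (i - m))⁻¹

theorem dbl_lt {m : ℕ} {b : ℕ → ℕ → ℂ} {p i : ℕ} (h : i < m) : dbl m b p i = b p i := if_pos h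

theorem dbl_add {m : ℕ} {b : ℕ → ℕ → ℂ} {p i : ℕ} : dbl m b p (m + i) = (b p i)⁻¹ := by
  unfold dbl
  rw [if_neg (by omega), Nat.add_sub_cancel_left]

theorem dbl_prod {M : Type*} [CommMonoid M] {m : ℕ} {b : ℕ → ℕ → ℂ} {p : ℕ} (f : ℂ → M) :
    ∏ i ∈ Finset.range (m + m), f (dbl m b p i) =
      (∏ i ∈ Finset.range m, f (b p i)) * ∏ i ∈ Finset.range m, f (b p i)⁻¹ := by
  rw [Finset.prod_range_add]
  congr 1
  · refine Finset.prod_congr rfl fun i hi => ?_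
    rw [dbl_lt (Finset.mem_range.1 hi)]
  · refine Finset.prod_congr rfl fun i _ => ?_
    rw [dbl_add]

theorem dbl_sum {M : Type*} [AddCommMonoid M] {m : ℕ} {b : ℕ → ℕ → ℂ} {p : ℕ} (f : ℂ → M) :
    ∑ i ∈ Finset.range (m + m), f (dbl m b p i) =
      (∑ i ∈ Finset.range m, f (b p i)) + ∑ i ∈ Finset.range m, f (b p i)⁻¹ := by
  rw [Finset.sum_range_add]
  congr 1
  · refine Finset.sum_congr rfl fun i hi => ?_
    rw [dbl_lt (Finset.mem_range.1 hi)]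
  · refine Finset.sum_congr rfl fun i _ => ?_
    rw [dbl_add]

theorem gi_append (l l' : List ℂ) (s : ℂ) : gi (l ++ l') s = gi l s * gi l' s := by
  unfold gi
  rw [List.map_append, List.prod_append]

theorem DL.toLG {S : Finset ℕ} {m : ℕ} {b : ℕ → ℕ → ℂ} {N D N' D' : ℂ → ℂ}
    (h : DL S m b N D N' D') : ∃ μ : List ℂ,
      LG S (Finset.range (m + m)) (dbl m b) μ (fun s => N s * N' s) (fun s => D s * D' s) := by
  obtain ⟨μ, μ', l, l', k, k', q, ε, hq, hε, hl, hl', hk, hk', hf⟩ := h.fe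
  obtain ⟨C, hC⟩ := h.order
  refine ⟨μ ++ μ', h.diffN.mul h.diffN', h.diffD.mul h.diffD', ⟨C + C, fun s => ?_⟩,
    fun s hs => mul_ne_zero (h.ne s hs).1 (h.ne s hs).2, fun s hs => ?_, ?_⟩
  · obtain ⟨h1, h2, h3, h4⟩ := hC s
    rw [add_mul, Real.exp_add, norm_mul, norm_mul]
    exact ⟨mul_le_mul h1 h3 (norm_nonneg _) (Real.exp_pos _).le,
      mul_le_mul h2 h4 (norm_nonneg _) (Real.exp_pos _).le⟩
  · have h1 := (h.euler s hs).mul (h.euler' s hs)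
    rw [div_mul_div_comm] at h1
    refine h1.congr fun X => ?_
    rw [← Finset.prod_mul_distrib]
    refine Finset.prod_congr rfl fun p _ => ?_
    rw [dbl_prod fun z : ℂ => (1 - z * (p : ℂ) ^ (-s))⁻¹]
  · refine ⟨l ++ k, l' ++ k', q * q, 1, mul_pos hq hq, one_ne_zero, ?_, ?_, fun s => ?_⟩
    · intro x hx
      rcases List.mem_append.1 hx with hx | hx
      · exact hl x hx
      · exact hk x hx
    · intro x hx
      rcases List.mem_append.1 hx with hx | hx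
      · exact hl' x hx
      · exact hk' x hx
    · have e1 := hf s
      have e2 := hf (1 - s)
      rw [sub_sub_cancel] at e2
      rw [cpow_mul_pos hq hq, cpow_mul_pos hq hq]
      simp only [ef_append, gi_append]
      have e3 : ε * ((q : ℂ) ^ s * (q : ℂ) ^ s * (gi μ (1 - s) * gi μ' (1 - s)) *
          (ef l (1 - s) * ef k (1 - s)) * (ef l' s * ef k' s) *
          (N s * N' s * (D (1 - s) * D' (1 - s)))) =
          ε * (1 * ((q : ℂ) ^ (1 - s) * (q : ℂ) ^ (1 - s)) * (gi μ s * gi μ' s) *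
          (ef l s * ef k s) * (ef l' (1 - s) * ef k' (1 - s)) *
          (N (1 - s) * N' (1 - s) * (D s * D' s))) := by
        calc _ = ((q : ℂ) ^ s * gi μ' (1 - s) * ef k (1 - s) * ef l' s * (N s * D' (1 - s))) *
            (ε * (q : ℂ) ^ s * gi μ (1 - s) * ef l (1 - s) * ef k' s * (N' s * D (1 - s))) := by
              ring
          _ = _ := by
            rw [e1, ← e2]
            ring
      exact mul_left_cancel₀ hε e3

theorem dbl_sym {m : ℕ} {b : ℕ → ℕ → ℂ} (p : ℕ) (x : ℂ) :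
    (open Classical in ∑ i ∈ Finset.range (m + m), if dbl m b p i = x then (1 : ℝ) else 0) =
      (open Classical in ∑ i ∈ Finset.range (m + m), if dbl m b p i = x⁻¹ then (1 : ℝ) else 0) := by
  classical
  rw [dbl_sum fun z : ℂ => if z = x then (1 : ℝ) else 0,
    dbl_sum fun z : ℂ => if z = x⁻¹ then (1 : ℝ) else 0, add_comm]
  simp only [inv_eq_iff_eq_inv, inv_inv]

theorem dbl_ps {m : ℕ} {b : ℕ → ℕ → ℂ} (p n : ℕ) : ps (Finset.range (m + m)) (dbl m b) p n =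
    (∑ i ∈ Finset.range m, b p i ^ n) + ∑ i ∈ Finset.range m, (b p i)⁻¹ ^ n := by
  unfold ps
  rw [dbl_sum fun z : ℂ => z ^ n]

theorem bnd_of {S I : Finset ℕ} {β : ℕ → ℕ → ℂ} {M ρ : ℝ} (hM : (I.card : ℝ) ≤ M) (h1 : 1 ≤ ρ)
    (hβ : ∀ p : PS S, ∀ i ∈ I, ‖β p i‖ ≤ ρ) (hl : ∀ p : PS S, 4 * ρ ^ 2 ≤ (p : ℕ)) :
    Bnd S (ps I β) M ρ := by
  have hM0 : 0 ≤ M := le_trans (Nat.cast_nonneg _) hM
  refine ⟨hM0, h1, fun p n => ?_, hl⟩
  unfold ps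
  refine (norm_sum_le _ _).trans ?_
  have h2 : ∀ i ∈ I, ‖β p i ^ n‖ ≤ ρ ^ n := by
    intro i hi
    rw [norm_pow]
    have h3 := hβ p i hi
    gcongr
  refine (Finset.sum_le_card_nsmul _ _ _ h2).trans ?_
  rw [nsmul_eq_mul]
  gcongr

end Pool.Agent.L7h29.GT
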