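import Pool.Agent.L7h29.GT.Pair

/-!
# One form with few values: summary
-/

set_option autoImplicit false

namespace Pool.Agent.L7h29.GT

open Filter Topology Complex Set Pool.Agent.N210.FV Pool.Agent.N210.FW Pool.Agent.N845.SP
open scoped ComplexConjugate

/-- a form with few absolute values -/
theorem form {S : Finset ℕ} {a b : ℕ → ℂ} {N₀ : ℕ} [NeZero N₀] {ω : DirichletCharacter ℂ N₀}
    (hN₀ : N₀.primeFactors ⊆ S)
    (hab : ∀ p : ℕ, p.Prime → p ∉ S → a p * b p = ω (p : ZMod N₀))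
    (hu : ∀ p : ℕ, p.Prime → p ∉ S → conj (a p + b p) * ω (p : ZMod N₀) = a p + b p)
    {J : ℕ} (hF : Fam S a b (2 * J + 1)) (T : Finset ℕ)
    (hT : (((fun p : ℕ => ‖a p + b p‖) '' {p : ℕ | p.Prime ∧ p ∉ T}) \ {0}).encard ≤ J) :
    (∃ V : Finset ℝ, V.card ≤ J ∧ Ready S a b (insert (-2) V)) ∧
      ∀ p : ℕ, p.Prime → p ∉ S → ∃ n : ℕ, 0 < n ∧ a p ^ n = 1 ∧ b p ^ n = 1 := by
  classical
  have hn0 := NeZero.ne N₀
  have hcop : ∀ p : ℕ, p.Prime → p ∉ S → p.Coprime N₀ := fun p hp hpS =>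
    cop hp hn0 fun h3 => hpS (hN₀ h3)
  have hnorm : ∀ p : ℕ, p.Prime → p ∉ S → ‖a p * b p‖ = 1 := fun p hp hpS => by
    rw [hab p hp hpS]
    exact chr_norm ω (hcop p hp hpS)
  have ha0 : ∀ p : ℕ, p.Prime → p ∉ S → a p ≠ 0 := fun p hp hpS h0 => by
    have h1 := hnorm p hp hpS
    rw [h0, zero_mul, norm_zero] at h1
    exact zero_ne_one h1
  have hb0 : ∀ p : ℕ, p.Prime → p ∉ S → b p ≠ 0 := fun p hp hpS h0 => by
    have h1 := hnorm p hp hpS
    rw [h0, mul_zero, norm_zero] at h1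
    exact zero_ne_one h1
  set y : ℕ → ℝ := fun p => ‖a p + b p‖ ^ 2 - 2 with hy
  have hy2 : ∀ p : ℕ, p.Prime → p ∉ S → (a p + b p) ^ 2 = a p * b p * (y p + 2) := by
    intro p hp hpS
    have h1 := hu p hp hpS
    have h2 : ((‖a p + b p‖ : ℂ)) ^ 2 = (a p + b p) * conj (a p + b p) := by
      rw [Complex.mul_conj, Complex.normSq_eq_norm_sq]
      push_cast
      rfl
    rw [hab p hp hpS, hy]
    push_cast
    rw [sub_add_cancel, h2]
    linear_combination (-(a p + b p)) * h1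
  set U : Set ℝ := ((fun p : ℕ => ‖a p + b p‖) '' {p : ℕ | p.Prime ∧ p ∉ T}) \ {0} with hU
  have hfin : U.Finite := Set.finite_of_encard_le_coe (k := J) hT
  set V : Finset ℝ := hfin.toFinset.image fun v => v ^ 2 - 2 with hV
  have hVJ : V.card ≤ J := by
    refine Finset.card_image_le.trans ?_
    rw [hfin.encard_eq_coe_toFinset_card] at hT
    exact_mod_cast hT
  have hTV : ∀ p : ℕ, p.Prime → p ∉ T → a p + b p = 0 ∨ y p ∈ V := by
    intro p hp hpT
    by_cases h0 : a p + b p = 0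
    · exact Or.inl h0
    · refine Or.inr (Finset.mem_image.2 ⟨‖a p + b p‖, ?_, rfl⟩)
      rw [Set.Finite.mem_toFinset]
      exact ⟨⟨p, ⟨hp, hpT⟩, rfl⟩, fun h => h0 (norm_eq_zero.1 h)⟩
  have hR : Ready S a b (insert (-2) V) := ⟨ha0, hb0, fun p hp hpS n hn =>
      closed hN₀ hab hF hy2 T V hVJ hTV hp hpS hn⟩
  refine ⟨⟨V, hVJ, hR⟩, fun p hp hpS => ?_⟩
  have h1 := (root_unity (div_ne_zero (ha0 p hp hpS) (hb0 p hp hpS)) (hR.cl p hp hpS)).1
  set d := orderOf (a p / b p) with hd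
  have h2 : (a p / b p) ^ d = 1 := pow_orderOf_eq_one _
  obtain ⟨e, he, h3⟩ : ∃ e : ℕ, 0 < e ∧ (a p * b p) ^ e = 1 := by
    have : NeZero N₀ := ⟨hn0⟩
    refine ⟨Fintype.card (ZMod N₀)ˣ, Fintype.card_pos, ?_⟩
    have h4 : (p : ZMod N₀) = (ZMod.unitOfCoprime p (hcop p hp hpS) : (ZMod N₀)ˣ) :=
      (ZMod.coe_unitOfCoprime _ _).symm
    rw [hab p hp hpS, h4, ← map_pow, ← Units.val_pow_eq_pow_val, pow_card_eq_one, Units.val_one,
      map_one]
  have h6 := ha0 p hp hpS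
  have h7 := hb0 p hp hpS
  refine ⟨2 * (d * e), by positivity, ?_, ?_⟩
  · have h5 : a p ^ 2 = (a p / b p) * (a p * b p) := by
      field_simp
    rw [pow_mul, h5, mul_pow, pow_mul, h2, one_pow, one_mul, mul_comm d e, pow_mul, h3, one_pow]
  · have h5 : b p ^ 2 = (a p / b p)⁻¹ * (a p * b p) := by
      field_simp
    rw [pow_mul, h5, mul_pow, inv_pow, pow_mul, h2, one_pow, inv_one, one_mul, mul_comm d e,
      pow_mul, h3, one_pow]

end Pool.Agent.L7h29.GT
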