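import Mathlib

/-!
# Weights of representations restricted to a torus
-/

set_option autoImplicit false

namespace Pool.Agent.L7h29.GT.Gen

open Matrix

variable {Λ : Type*} [AddCommGroup Λ] {Tg : Type*} [CommGroup Tg]

/-- a group of characters -/
structure Chars (ee : Λ → Tg →* ℂ) : Prop where
  add : ∀ x y g, ee (x + y) g = ee x g * ee y g
  zero : ∀ g, ee 0 g = 1
  inj : Function.Injective ee

variable {ee : Λ → Tg →* ℂ}

theorem Chars.li (h : Chars ee) : LinearIndependent ℂ (fun x : Λ => (ee x : Tg → ℂ)) :=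
  (linearIndependent_monoidHom Tg ℂ).comp ee h.inj

theorem Chars.vanish (h : Chars ee) {m : ℕ} (B : Finset Λ) (C : Λ → Matrix (Fin m) (Fin m) ℂ)
    (h0 : ∀ g, ∑ x ∈ B, ee x g • C x = 0) : ∀ x ∈ B, C x = 0 := by
  intro x hx
  ext i j
  refine linearIndependent_iff'.1 h.li B (fun x => C x i j) ?_ x hx
  funext g
  have h1 := congrFun (congrFun (h0 g) i) j
  rw [Matrix.sum_apply] at h1
  simp only [Matrix.smul_apply, smul_eq_mul, Matrix.zero_apply] at h1
  simp only [Finset.sum_apply, Pi.smul_apply, smul_eq_mul, Pi.zero_apply]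
  rw [← h1]
  exact Finset.sum_congr rfl fun x _ => mul_comm _ _

theorem Chars.eq_of (h : Chars ee) {m : ℕ} (B : Finset Λ) (C D : Λ → Matrix (Fin m) (Fin m) ℂ)
    (h0 : ∀ g, ∑ x ∈ B, ee x g • C x = ∑ x ∈ B, ee x g • D x) : ∀ x ∈ B, C x = D x := by
  intro x hx
  have h1 := h.vanish B (fun x => C x - D x) (fun g => by
    simp only [smul_sub, Finset.sum_sub_distrib, h0 g, sub_self]) x hx
  exact sub_eq_zero.1 h1

/-- Laurent polynomial functions -/
def Lau (ee : Λ → Tg →* ℂ) (f : Tg → ℂ) : Prop :=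
  ∃ t : Λ →₀ ℂ, ∀ g, f g = ∑ x ∈ t.support, t x * ee x g

noncomputable def Fm (h : Chars ee) : Multiplicative Λ →* (Tg → ℂ) where
  toFun x g := ee (Multiplicative.toAdd x) g
  map_one' := by
    funext g
    exact h.zero g
  map_mul' x y := by
    funext g
    exact h.add _ _ g

theorem lau_lift (h : Chars ee) (f : AddMonoidAlgebra ℂ Λ) :
    Lau ee (AddMonoidAlgebra.lift ℂ (Tg → ℂ) Λ (Fm h) f) := by
  refine ⟨f.coeff, fun g => ?_⟩
  rw [AddMonoidAlgebra.lift_apply]
  unfold Finsupp.sum
  rw [Finset.sum_apply]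
  rfl

theorem lau_iff (h : Chars ee) (f : Tg → ℂ) : Lau ee f ↔
    ∃ w : AddMonoidAlgebra ℂ Λ, AddMonoidAlgebra.lift ℂ (Tg → ℂ) Λ (Fm h) w = f := by
  constructor
  · rintro ⟨t, ht⟩
    refine ⟨AddMonoidAlgebra.ofCoeff t, ?_⟩
    funext g
    rw [AddMonoidAlgebra.lift_apply, ht g]
    unfold Finsupp.sum
    rw [Finset.sum_apply]
    rfl
  · rintro ⟨w, rfl⟩
    exact lau_lift h w

theorem lau_char (h : Chars ee) (x : Λ) : Lau ee fun g => ee x g := by
  rw [lau_iff h]
  refine ⟨AddMonoidAlgebra.single x 1, ?_⟩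
  rw [AddMonoidAlgebra.lift_single, one_smul]
  rfl

theorem lau_zero (h : Chars ee) : Lau ee fun _ => 0 := by
  rw [lau_iff h]
  exact ⟨0, by rw [map_zero]; rfl⟩

theorem lau_eval (h : Chars ee) {κ : Type*} (V : κ → Tg → ℂ) (hV : ∀ o, Lau ee (V o))
    (P : MvPolynomial κ ℂ) : Lau ee fun g => MvPolynomial.eval (fun o => V o g) P := by
  choose W hW using fun o => (lau_iff h _).1 (hV o)
  rw [lau_iff h]
  refine ⟨MvPolynomial.aeval W P, ?_⟩
  have h1 : (AddMonoidAlgebra.lift ℂ (Tg → ℂ) Λ (Fm h)).comp (MvPolynomial.aeval W) =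
      MvPolynomial.aeval V := by
    refine MvPolynomial.algHom_ext fun o => ?_
    simp [hW]
  have h0 := DFunLike.congr_fun h1 P
  rw [AlgHom.comp_apply] at h0
  rw [h0]
  funext g
  have h3 : (Pi.evalAlgHom ℂ (fun _ : Tg => ℂ) g).comp (MvPolynomial.aeval V) =
      MvPolynomial.aeval (fun o => V o g) := by
    refine MvPolynomial.algHom_ext fun o => ?_
    simp
  have h4 := DFunLike.congr_fun h3 P
  rw [MvPolynomial.aeval_eq_eval] at h4
  exact h4

/-- an idempotent -/
theorem idem_pow {m : ℕ} (M : Matrix (Fin m) (Fin m) ℂ) (hM : M * M = M) :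
    ∃ r : ℕ, ∀ t : ℂ, (1 + (t - 1) • M).det = t ^ r := by
  classical
  set Q : Polynomial ℂ := ((1 : Matrix (Fin m) (Fin m) (Polynomial ℂ)) +
    (Polynomial.X - 1 : Polynomial ℂ) • M.map Polynomial.C).det with hQ
  have hev : ∀ t : ℂ, Q.eval t = (1 + (t - 1) • M).det := by
    intro t
    rw [hQ, ← Polynomial.coe_evalRingHom, RingHom.map_det]
    congr 1
    ext i j
    rw [RingHom.mapMatrix_apply, Matrix.map_apply, Matrix.add_apply, Matrix.smul_apply,
      Matrix.map_apply, Polynomial.coe_evalRingHom, Matrix.add_apply, Matrix.smul_apply]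
    rcases eq_or_ne i j with h | h
    · subst h
      simp
    · simp [Matrix.one_apply_ne h]
  have hmul : ∀ s t : ℂ, Q.eval (s * t) = Q.eval s * Q.eval t := by
    intro s t
    rw [hev, hev, hev, ← Matrix.det_mul]
    congr 1
    rw [add_mul, mul_add, mul_add, one_mul, mul_one, one_mul, Matrix.smul_mul, Matrix.mul_smul, hM,
      smul_smul, add_assoc, ← add_smul, ← add_smul]
    congr 2
    ring
  have hQ1 : Q.eval 1 = 1 := by
    rw [hev]
    simp
  have hQ0 : Q ≠ 0 := by
    intro h
    rw [h, Polynomial.eval_zero] at hQ1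
    exact zero_ne_one hQ1
  have hc : ∀ s : ℂ, ∀ k : ℕ, Q.coeff k * s ^ k = Q.eval s * Q.coeff k := by
    intro s k
    have h1 : Q.comp (Polynomial.C s * Polynomial.X) = Polynomial.C (Q.eval s) * Q := by
      refine Polynomial.funext fun t => ?_
      rw [Polynomial.eval_comp, Polynomial.eval_mul, Polynomial.eval_mul, Polynomial.eval_C,
        Polynomial.eval_C, Polynomial.eval_X, hmul]
    have h2 := congrArg (fun R => Polynomial.coeff R k) h1
    simpa only [Polynomial.comp_C_mul_X_coeff, Polynomial.coeff_C_mul] using h2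
  obtain ⟨k, hk⟩ : ∃ k, Q.coeff k ≠ 0 := by
    by_contra hcon
    push Not at hcon
    exact hQ0 (Polynomial.ext fun n => by rw [hcon n, Polynomial.coeff_zero])
  refine ⟨k, fun t => ?_⟩
  rw [← hev]
  have h1 := hc t k
  rw [mul_comm (Q.eval t)] at h1
  exact (mul_left_cancel₀ hk h1).symm

omit [AddCommGroup Λ] in
/-- combinations of orthogonal idempotents -/
theorem det_prod {m : ℕ} (s : Finset Λ) (M : Λ → Matrix (Fin m) (Fin m) ℂ)
    (hM : ∀ x ∈ s, ∀ y ∈ s, x ≠ y → M x * M y = 0) (c : Λ → ℂ) :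
    (1 + ∑ x ∈ s, c x • M x).det = ∏ x ∈ s, (1 + c x • M x).det := by
  classical
  induction s using Finset.induction_on with
  | empty => simp
  | insert a s ha ih =>
    rw [Finset.prod_insert ha, ← ih fun x hx y hy hxy =>
      hM x (Finset.mem_insert_of_mem hx) y (Finset.mem_insert_of_mem hy) hxy, ← Matrix.det_mul]
    congr 1
    rw [Finset.sum_insert ha, add_mul, mul_add, mul_add, one_mul, mul_one, one_mul,
      Finset.mul_sum]
    have h1 : ∑ x ∈ s, c a • M a * c x • M x = 0 := by
      refine Finset.sum_eq_zero fun x hx => ?_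
      rw [Matrix.smul_mul, Matrix.mul_smul, hM a (Finset.mem_insert_self _ _) x
        (Finset.mem_insert_of_mem hx) (fun h => ha (h ▸ hx)), smul_zero, smul_zero]
    rw [h1, add_zero]
    abel

/-- **weights**: the multiplicities are invariant under all symmetries of the representation -/
theorem weights (h : Chars ee) {m : ℕ} (τ : Tg →* Matrix (Fin m) (Fin m) ℂ)
    (hτ : ∀ i j : Fin m, Lau ee fun g => τ g i j) :
    ∃ (B : Finset Λ) (r : Λ → ℕ),
      (∀ g z, (1 - z • τ g).det = ∏ x ∈ B, (1 - ee x g * z) ^ r x) ∧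
      ∀ (σ : Λ → Λ) (s : Tg → Tg) (P P' : Matrix (Fin m) (Fin m) ℂ), (∀ x, σ (σ x) = x) →
        (∀ x g, ee (σ x) g = ee x (s g)) → P * P' = 1 → (∀ g, τ (s g) = P * τ g * P') →
        (∀ x ∈ B, σ x ∈ B) ∧ ∀ x, r (σ x) = r x := by
  classical
  choose t ht using hτ
  set B₀ : Finset Λ := Finset.univ.biUnion fun ij : Fin m × Fin m => (t ij.1 ij.2).support
    with hB₀
  set M : Λ → Matrix (Fin m) (Fin m) ℂ := fun x => Matrix.of fun i j => t i j x with hM
  set B : Finset Λ := B₀.filter fun x => M x ≠ 0 with hB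
  have hout : ∀ x, x ∉ B → M x = 0 := by
    intro x hx
    by_contra hcon
    apply hx
    refine Finset.mem_filter.2 ⟨?_, hcon⟩
    by_contra h1
    apply hcon
    ext i j
    simp only [hM, Matrix.of_apply, Matrix.zero_apply]
    by_contra h2
    exact h1 (Finset.mem_biUnion.2 ⟨(i, j), Finset.mem_univ _, Finsupp.mem_support_iff.2 h2⟩)
  have hT : ∀ g : Tg, τ g = ∑ x ∈ B, ee x g • M x := by
    intro g
    have h1 : τ g = ∑ x ∈ B₀, ee x g • M x := by
      ext i j
      rw [show τ g i j = _ from ht i j g, Matrix.sum_apply]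
      have hsub : (t i j).support ⊆ B₀ := fun x hx =>
        Finset.mem_biUnion.2 ⟨(i, j), Finset.mem_univ _, hx⟩
      rw [Finset.sum_subset hsub fun x _ hx => by
        rw [Finsupp.notMem_support_iff.1 hx, zero_mul]]
      refine Finset.sum_congr rfl fun x _ => ?_
      simp only [hM, Matrix.smul_apply, Matrix.of_apply, smul_eq_mul]
      ring
    rw [h1]
    symm
    refine Finset.sum_subset (Finset.filter_subset _ _) fun x _ hx => ?_
    rw [hout x hx, smul_zero]
  -- the same over any larger set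
  have hT' : ∀ C : Finset Λ, B ⊆ C → ∀ g : Tg, τ g = ∑ x ∈ C, ee x g • M x := by
    intro C hC g
    rw [hT g]
    refine Finset.sum_subset hC fun x _ hx => ?_
    rw [hout x hx, smul_zero]
  have h1 : ∀ k : Tg, ∀ x ∈ B, M x * τ k = ee x k • M x := by
    intro k
    refine h.eq_of B _ _ fun g => ?_
    have h2 := map_mul τ g k
    rw [hT g, hT (g * k), Finset.sum_mul] at h2
    simp only [Matrix.smul_mul] at h2
    rw [← h2]
    refine Finset.sum_congr rfl fun x _ => ?_
    rw [map_mul, smul_smul]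
  have hort : ∀ x ∈ B, ∀ y ∈ B, M x * M y = if y = x then M x else 0 := by
    intro x hx
    refine h.eq_of B _ _ fun k => ?_
    have h2 := h1 k x hx
    rw [hT k, Finset.mul_sum] at h2
    simp only [Matrix.mul_smul] at h2
    rw [h2]
    simp only [smul_ite, smul_zero]
    rw [Finset.sum_ite_eq' B x fun y => ee y k • M x, if_pos hx]
  choose! r hr using fun x (hx : x ∈ B) => idem_pow (M x) (by rw [hort x hx x hx, if_pos rfl])
  refine ⟨B, fun x => if x ∈ B then r x else 0, fun g z => ?_, fun σ s P P' hσ hs hP hτs => ?_⟩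
  · have h2 : (1 - z • τ g) = 1 + ∑ x ∈ B, ((1 - ee x g * z) - 1) • M x := by
      rw [hT g, Finset.smul_sum, sub_eq_add_neg, ← Finset.sum_neg_distrib]
      congr 1
      refine Finset.sum_congr rfl fun x _ => ?_
      rw [smul_smul, ← neg_smul]
      congr 1
      ring
    rw [h2, det_prod B M (fun x hx y hy hxy => by rw [hort x hx y hy, if_neg (Ne.symm hxy)])]
    refine Finset.prod_congr rfl fun x hx => ?_
    simp only [if_pos hx]
    exact hr x hx _
  · have hP' : P' * P = 1 := mul_eq_one_comm.1 hP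
    have hinj : Function.Injective σ := fun x y hxy => by rw [← hσ x, hxy, hσ y]
    -- conjugation
    have hconj : ∀ x, M (σ x) = P * M x * P' := by
      set C : Finset Λ := B ∪ B.image σ with hC
      have hCσ : ∀ x ∈ C, σ x ∈ C := by
        intro x hx
        rcases Finset.mem_union.1 hx with h3 | h3
        · exact Finset.mem_union_right _ (Finset.mem_image_of_mem _ h3)
        · obtain ⟨y, hy, rfl⟩ := Finset.mem_image.1 h3
          rw [hσ]
          exact Finset.mem_union_left _ hy
      have h3 : ∀ x ∈ C, M (σ x) = P * M x * P' := by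
        refine h.eq_of C _ _ fun g => ?_
        have h4 := hτs g
        rw [hT' C Finset.subset_union_left, hT' C Finset.subset_union_left g, Finset.mul_sum,
          Finset.sum_mul] at h4
        simp only [Matrix.mul_smul, Matrix.smul_mul] at h4
        rw [← h4]
        refine Finset.sum_nbij' σ σ (fun x hx => hCσ x hx) (fun x hx => hCσ x hx)
          (fun x _ => hσ x) (fun x _ => hσ x) fun x _ => ?_
        rw [← hs, hσ]
      intro x
      by_cases hx : x ∈ C
      · exact h3 x hx
      · have h4 : x ∉ B := fun h5 => hx (Finset.mem_union_left _ h5)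
        have h5 : σ x ∉ B := fun h6 => hx (Finset.mem_union_right _
          (Finset.mem_image.2 ⟨σ x, h6, hσ x⟩))
        rw [hout x h4, hout _ h5]
        simp
    have hBσ : ∀ x ∈ B, σ x ∈ B := by
      intro x hx
      by_contra hcon
      have h3 := hconj x
      rw [hout _ hcon] at h3
      have h4 : M x = 0 := by
        calc M x = (P' * P) * M x * (P' * P) := by rw [hP', one_mul, mul_one]
          _ = P' * (P * M x * P') * P := by simp only [mul_assoc]
          _ = 0 := by rw [← h3, mul_zero, zero_mul]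
      exact (Finset.mem_filter.1 hx).2 h4
    refine ⟨hBσ, fun x => ?_⟩
    by_cases hx : x ∈ B
    · simp only [if_pos hx, if_pos (hBσ x hx)]
      have h3 := hr x hx 2
      have h4 := hr (σ x) (hBσ x hx) 2
      rw [hconj x] at h4
      have h5 : (1 + ((2 : ℂ) - 1) • (P * M x * P')) = P * (1 + ((2 : ℂ) - 1) • M x) * P' := by
        rw [mul_add, add_mul, mul_one, hP, Matrix.mul_smul, Matrix.smul_mul]
      have h6 : P.det * P'.det = 1 := by rw [← Matrix.det_mul, hP, Matrix.det_one]
      rw [h5, Matrix.det_mul, Matrix.det_mul, h3] at h4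
      have h7 : (2 : ℂ) ^ r x = 2 ^ r (σ x) := by
        rw [← h4]
        linear_combination (-(2 : ℂ) ^ r x) * h6
      have h8 : (2 : ℕ) ^ r x = 2 ^ r (σ x) := by exact_mod_cast h7
      exact (Nat.pow_right_injective (le_refl 2) h8).symm
    · have h2 : σ x ∉ B := fun h3 => hx (by
        have := hBσ _ h3
        rwa [hσ] at this)
      simp only [if_neg hx, if_neg h2]

end Pool.Agent.L7h29.GT.Gen
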