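import Pool.Agent.L7h29.GT.Form

/-!
# One form with few values, from highly ramified twists
-/

set_option autoImplicit false

namespace Pool.Agent.L7h29.GT

open Filter Topology Complex Set Pool.Agent.N210.FV Pool.Agent.N210.FW Pool.Agent.N845.SP
open scoped ComplexConjugate

theorem sep_char' {p n M₀ : ℕ} (hp : p.Prime) (hn : 1 ≤ n) (hM : M₀ ≠ 0) : ∃ (m : ℕ) (_ : NeZero m)
    (χ : DirichletCharacter ℂ m), m.Coprime M₀ ∧ p ∉ m.primeFactors ∧
      χ (p : ZMod m) ^ (2 * n) ≠ 1 := by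
  obtain ⟨q, hq, hqp⟩ := Nat.exists_infinite_primes (M₀ + p ^ (2 * n) + 1)
  have hq0 : NeZero q := ⟨hqp.ne_zero⟩
  have hp2 : 2 ≤ p ^ (2 * n) := by
    calc 2 ≤ p := hp.two_le
      _ = p ^ 1 := (pow_one p).symm
      _ ≤ p ^ (2 * n) := Nat.pow_le_pow_right hp.pos (by omega)
  have hpp : p ≤ p ^ (2 * n) := by
    calc p = p ^ 1 := (pow_one p).symm
      _ ≤ p ^ (2 * n) := Nat.pow_le_pow_right hp.pos (by omega)
  have hcop : q.Coprime M₀ := by
    rw [Nat.Prime.coprime_iff_not_dvd hqp]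
    intro h
    have := Nat.le_of_dvd (Nat.pos_of_ne_zero hM) h
    omega
  have hne : ((p : ZMod q) ^ (2 * n)) ≠ 1 := by
    intro h
    have h1 : ((p ^ (2 * n) : ℕ) : ZMod q) = ((1 : ℕ) : ZMod q) := by
      push_cast
      exact h
    rw [ZMod.natCast_eq_natCast_iff] at h1
    have h2 := (Nat.modEq_iff_dvd' (by omega)).1 h1.symm
    have h3 := Nat.le_of_dvd (by omega) h2
    omega
  obtain ⟨χ, hχ⟩ := DirichletCharacter.exists_apply_ne_one_of_hasEnoughRootsOfUnity ℂ hne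
  refine ⟨q, hq0, χ, hcop, fun h => ?_, by rwa [map_pow] at hχ⟩
  have h2 := (Nat.prime_dvd_prime_iff_eq (Nat.mem_primeFactors.1 h).1 hqp).1
    (Nat.mem_primeFactors.1 h).2.1
  omega

/-- **few values**, all powers, from the twists by `ψ χ ω^{-j}`, `χ` of conductor prime to `M₀` -/
theorem closed' {S : Finset ℕ} {α β : ℕ → ℂ} {J N₀ M₀ : ℕ} [NeZero N₀] [NeZero M₀]
    {ω : DirichletCharacter ℂ N₀} (hN₀ : N₀.primeFactors ⊆ S)
    (hω : ∀ p : ℕ, p.Prime → p ∉ S → α p * β p = ω (p : ZMod N₀))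
    {ψ : DirichletCharacter ℂ M₀} (hM₀ : M₀.primeFactors ⊆ S)
    (h : ∀ j ≤ J, ∀ (n : ℕ) [NeZero n], n.Coprime M₀ → ∀ χ : DirichletCharacter ℂ n,
      ∃ N D N' D' : ℂ → ℂ, DL (S ∪ n.primeFactors) (2 * j + 2)
        (sb α β (fun p => ψ (p : ZMod M₀) * χ (p : ZMod n) * ((α p * β p) ^ j)⁻¹) (2 * j + 1))
        N D N' D') {y : ℕ → ℝ}
    (hy : ∀ p : ℕ, p.Prime → p ∉ S → (α p + β p) ^ 2 = α p * β p * (y p + 2))
    (T : Finset ℕ) (V : Finset ℝ) (hV : V.card ≤ J)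
    (hT : ∀ p : ℕ, p.Prime → p ∉ T → α p + β p = 0 ∨ y p ∈ V) {p : ℕ} (hp : p.Prime) (hpS : p ∉ S)
    {n : ℕ} (hn : 1 ≤ n) :
    ∃ v ∈ insert (-2) V, (α p / β p) ^ n + ((α p / β p) ^ n)⁻¹ = ((v : ℝ) : ℂ) := by
  classical
  have hn0 := NeZero.ne N₀
  have hm0 := NeZero.ne M₀
  have hnorm : ∀ p : ℕ, p.Prime → p ∉ S → ‖α p * β p‖ = 1 := fun p hp hpS => by
    rw [hω p hp hpS]
    exact chr_norm ω (cop hp hn0 fun h3 => hpS (hN₀ h3))
  have hψ : ∀ p : ℕ, p.Prime → p ∉ S → ‖ψ (p : ZMod M₀)‖ = 1 := fun p hp hpS =>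
    chr_norm ψ (cop hp hm0 fun h3 => hpS (hM₀ h3))
  have hα : ∀ p : ℕ, p.Prime → p ∉ S → α p ≠ 0 := fun p hp hpS h0 => by
    have h1 := hnorm p hp hpS
    rw [h0, zero_mul, norm_zero] at h1
    exact zero_ne_one h1
  have hβ : ∀ p : ℕ, p.Prime → p ∉ S → β p ≠ 0 := fun p hp hpS h0 => by
    have h1 := hnorm p hp hpS
    rw [h0, mul_zero, norm_zero] at h1
    exact zero_ne_one h1
  have ha0 := hα p hp hpS
  have hb0 := hβ p hp hpS
  have hu0 : α p / β p ≠ 0 := div_ne_zero ha0 hb0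
  obtain ⟨z, hz⟩ := tr_real hu0 (x := y p) (by
    have h1 := hy p hp hpS
    field_simp
    linear_combination h1) n
  have hz2 : (α p ^ n + β p ^ n) ^ 2 = α p ^ n * β p ^ n * (z + 2) := by
    have h1 : α p ^ n ≠ 0 := pow_ne_zero n ha0
    have h2 : β p ^ n ≠ 0 := pow_ne_zero n hb0
    rw [div_pow] at hz
    field_simp at hz
    linear_combination hz
  have key : ∀ (m : ℕ) [NeZero m] (χ : DirichletCharacter ℂ m), m.Coprime M₀ → p ∉ m.primeFactors →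
      ((ψ (p : ZMod M₀) * χ (p : ZMod m)) ^ n + ((ψ (p : ZMod M₀) * χ (p : ZMod m)) ^ n)⁻¹ *
        (α p ^ n * β p ^ n)⁻¹) * (α p ^ n + β p ^ n) * ((∏ v ∈ V, (z - v) : ℝ) : ℂ) = 0 := by
    intro m _ χ hmc hpm
    have hm := NeZero.ne m
    have hF : ∀ j ≤ J, ∃ N D N' D' : ℂ → ℂ, DL (S ∪ m.primeFactors) (2 * j + 2)
        (sb α β (fun p => (ψ (p : ZMod M₀) * χ (p : ZMod m)) * ((α p * β p) ^ j)⁻¹) (2 * j + 1))
        N D N' D' := fun j hj => h j hj m hmc χ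
    choose! N D N' D' hD using hF
    exact rel_tw (S := S ∪ m.primeFactors) (χ := fun p => ψ (p : ZMod M₀) * χ (p : ZMod m)) (y := y)
      (fun q hq hqS => hα q hq fun h => hqS (Finset.mem_union_left _ h))
      (fun q hq hqS => hβ q hq fun h => hqS (Finset.mem_union_left _ h))
      (fun q hq hqS => hnorm q hq fun h => hqS (Finset.mem_union_left _ h))
      (fun q hq hqS => by
        rw [norm_mul, hψ q hq fun h => hqS (Finset.mem_union_left _ h), one_mul]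
        exact chr_norm χ (cop hq hm fun h => hqS (Finset.mem_union_right _ h)))
      (fun q hq hqS => hy q hq fun h => hqS (Finset.mem_union_left _ h))
      hD T V hV hT hp (fun h => by
        rcases Finset.mem_union.1 h with h | h
        · exact hpS h
        · exact hpm h) hn hz2
  have h1 : α p ^ n + β p ^ n = 0 ∨ z ∈ V := by
    by_contra hcon
    push Not at hcon
    have h2 : ((∏ v ∈ V, (z - v) : ℝ) : ℂ) ≠ 0 := by
      have h3 : ∏ v ∈ V, (z - v) ≠ 0 := by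
        rw [Finset.prod_ne_zero_iff]
        intro v hv h4
        exact hcon.2 ((sub_eq_zero.1 h4) ▸ hv)
      exact_mod_cast h3
    have h3 : ∀ (m : ℕ) [NeZero m] (χ : DirichletCharacter ℂ m), m.Coprime M₀ →
        p ∉ m.primeFactors → (ψ (p : ZMod M₀) * χ (p : ZMod m)) ^ n +
          ((ψ (p : ZMod M₀) * χ (p : ZMod m)) ^ n)⁻¹ * (α p ^ n * β p ^ n)⁻¹ = 0 := by
      intro m _ χ hmc hpm
      have h4 := key m χ hmc hpm
      rcases mul_eq_zero.1 h4 with h5 | h5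
      · rcases mul_eq_zero.1 h5 with h6 | h6
        · exact h6
        · exact absurd h6 hcon.1
      · exact absurd h5 h2
    have hψ0 : ψ (p : ZMod M₀) ≠ 0 := by
      intro h10
      have h9 := hψ p hp hpS
      rw [h10, norm_zero] at h9
      exact zero_ne_one h9
    have hψn : ψ (p : ZMod M₀) ^ n ≠ 0 := pow_ne_zero n hψ0
    have h4 := h3 1 1 (Nat.coprime_one_left M₀) (by simp)
    have h5 : ((1 : DirichletCharacter ℂ 1) (p : ZMod 1)) = 1 := by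
      rw [Subsingleton.elim (p : ZMod 1) 1, map_one]
    rw [h5, mul_one] at h4
    have h6 : (α p ^ n * β p ^ n)⁻¹ = -(ψ (p : ZMod M₀) ^ n * ψ (p : ZMod M₀) ^ n) := by
      field_simp at h4 ⊢
      linear_combination h4
    obtain ⟨m, hm, χ, hmc, hpm, hχ⟩ := sep_char' (M₀ := M₀) hp hn hm0
    have h7 := h3 m χ hmc hpm
    rw [h6] at h7
    have h8 : χ (p : ZMod m) ≠ 0 := by
      have h9 := chr_norm χ (cop hp hm.ne hpm)
      intro h10
      rw [h10, norm_zero] at h9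
      exact zero_ne_one h9
    have h9 : χ (p : ZMod m) ^ n ≠ 0 := pow_ne_zero n h8
    apply hχ
    rw [mul_comm 2 n, pow_mul]
    rw [mul_pow] at h7
    field_simp at h7
    have h10 : ψ (p : ZMod M₀) ^ n * ((χ (p : ZMod m) ^ n) ^ 2 - 1) = 0 := by
      linear_combination h7
    exact sub_eq_zero.1 ((mul_eq_zero.1 h10).resolve_left hψn)
  rcases h1 with h1 | h1
  · refine ⟨-2, Finset.mem_insert_self _ _, ?_⟩
    have h2 : β p ^ n ≠ 0 := pow_ne_zero n hb0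
    have h3 : (α p / β p) ^ n = -1 := by
      rw [div_pow, div_eq_iff h2]
      linear_combination h1
    rw [h3]
    push_cast
    norm_num
  · exact ⟨z, Finset.mem_insert_of_mem h1, hz⟩

/-- a form with few absolute values, from highly ramified twists -/
theorem form' {S : Finset ℕ} {a b : ℕ → ℂ} {N₀ M₀ : ℕ} [NeZero N₀] [NeZero M₀]
    {ω : DirichletCharacter ℂ N₀} (hN₀ : N₀.primeFactors ⊆ S)
    (hab : ∀ p : ℕ, p.Prime → p ∉ S → a p * b p = ω (p : ZMod N₀))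
    (hu : ∀ p : ℕ, p.Prime → p ∉ S → conj (a p + b p) * ω (p : ZMod N₀) = a p + b p)
    {ψ : DirichletCharacter ℂ M₀} (hM₀ : M₀.primeFactors ⊆ S) {J : ℕ}
    (h : ∀ j ≤ J, ∀ (n : ℕ) [NeZero n], n.Coprime M₀ → ∀ χ : DirichletCharacter ℂ n,
      ∃ N D N' D' : ℂ → ℂ, DL (S ∪ n.primeFactors) (2 * j + 2)
        (sb a b (fun p => ψ (p : ZMod M₀) * χ (p : ZMod n) * ((a p * b p) ^ j)⁻¹) (2 * j + 1))
        N D N' D') (T : Finset ℕ)
    (hT : (((fun p : ℕ => ‖a p + b p‖) '' {p : ℕ | p.Prime ∧ p ∉ T}) \ {0}).encard ≤ J) :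
    (∃ V : Finset ℝ, V.card ≤ J ∧ Ready S a b (insert (-2) V)) ∧
      ∀ p : ℕ, p.Prime → p ∉ S → ∃ n : ℕ, 0 < n ∧ a p ^ n = 1 ∧ b p ^ n = 1 := by
  classical
  have hn0 := NeZero.ne N₀
  have hcop : ∀ p : ℕ, p.Prime → p ∉ S → p.Coprime N₀ := fun p hp hpS =>
    cop hp hn0 fun h3 => hpS (hN₀ h3)
  have hnorm : ∀ p : ℕ, p.Prime → p ∉ S → ‖a p * b p‖ = 1 := fun p hp hpS => by
    rw [hab p hp hpS]
    exact chr_norm ω (hcop p hp hpS)
  have ha0 : ∀ p : ℕ, p.Prime → p ∉ S → a p ≠ 0 := fun p hp hpS h0 => by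
    have h1 := hnorm p hp hpS
    rw [h0, zero_mul, norm_zero] at h1
    exact zero_ne_one h1
  have hb0 : ∀ p : ℕ, p.Prime → p ∉ S → b p ≠ 0 := fun p hp hpS h0 => by
    have h1 := hnorm p hp hpS
    rw [h0, mul_zero, norm_zero] at h1
    exact zero_ne_one h1
  set y : ℕ → ℝ := fun p => ‖a p + b p‖ ^ 2 - 2 with hy
  have hy2 : ∀ p : ℕ, p.Prime → p ∉ S → (a p + b p) ^ 2 = a p * b p * (y p + 2) := by
    intro p hp hpS
    have h1 := hu p hp hpS
    have h2 : ((‖a p + b p‖ : ℂ)) ^ 2 = (a p + b p) * conj (a p + b p) := by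
      rw [Complex.mul_conj, Complex.normSq_eq_norm_sq]
      push_cast
      rfl
    rw [hab p hp hpS, hy]
    push_cast
    rw [sub_add_cancel, h2]
    linear_combination (-(a p + b p)) * h1
  set U : Set ℝ := ((fun p : ℕ => ‖a p + b p‖) '' {p : ℕ | p.Prime ∧ p ∉ T}) \ {0} with hU
  have hfin : U.Finite := Set.finite_of_encard_le_coe (k := J) hT
  set V : Finset ℝ := hfin.toFinset.image fun v => v ^ 2 - 2 with hV
  have hVJ : V.card ≤ J := by
    refine Finset.card_image_le.trans ?_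
    rw [hfin.encard_eq_coe_toFinset_card] at hT
    exact_mod_cast hT
  have hTV : ∀ p : ℕ, p.Prime → p ∉ T → a p + b p = 0 ∨ y p ∈ V := by
    intro p hp hpT
    by_cases h0 : a p + b p = 0
    · exact Or.inl h0
    · refine Or.inr (Finset.mem_image.2 ⟨‖a p + b p‖, ?_, rfl⟩)
      rw [Set.Finite.mem_toFinset]
      exact ⟨⟨p, ⟨hp, hpT⟩, rfl⟩, fun h => h0 (norm_eq_zero.1 h)⟩
  have hR : Ready S a b (insert (-2) V) := ⟨ha0, hb0, fun p hp hpS n hn =>
      closed' hN₀ hab hM₀ h hy2 T V hVJ hTV hp hpS hn⟩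
  refine ⟨⟨V, hVJ, hR⟩, fun p hp hpS => ?_⟩
  have h1 := (root_unity (div_ne_zero (ha0 p hp hpS) (hb0 p hp hpS)) (hR.cl p hp hpS)).1
  set d := orderOf (a p / b p) with hd
  have h2 : (a p / b p) ^ d = 1 := pow_orderOf_eq_one _
  obtain ⟨e, he, h3⟩ : ∃ e : ℕ, 0 < e ∧ (a p * b p) ^ e = 1 := by
    have : NeZero N₀ := ⟨hn0⟩
    refine ⟨Fintype.card (ZMod N₀)ˣ, Fintype.card_pos, ?_⟩
    have h4 : (p : ZMod N₀) = (ZMod.unitOfCoprime p (hcop p hp hpS) : (ZMod N₀)ˣ) :=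
      (ZMod.coe_unitOfCoprime _ _).symm
    rw [hab p hp hpS, h4, ← map_pow, ← Units.val_pow_eq_pow_val, pow_card_eq_one, Units.val_one,
      map_one]
  have h6 := ha0 p hp hpS
  have h7 := hb0 p hp hpS
  refine ⟨2 * (d * e), by positivity, ?_, ?_⟩
  · have h5 : a p ^ 2 = (a p / b p) * (a p * b p) := by
      field_simp
    rw [pow_mul, h5, mul_pow, pow_mul, h2, one_pow, one_mul, mul_comm d e, pow_mul, h3, one_pow]
  · have h5 : b p ^ 2 = (a p / b p)⁻¹ * (a p * b p) := by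
      field_simp
    rw [pow_mul, h5, mul_pow, inv_pow, pow_mul, h2, one_pow, inv_one, one_mul, mul_comm d e,
      pow_mul, h3, one_pow]

/-- one Euler product -/
theorem MerG_of' {S : Finset ℕ} {m : ℕ} {b : ℕ → ℕ → ℂ} {M : ℂ → ℂ} (hM : Meromorphic M)
    (h : ∀ s : ℂ, 1 < s.re → Tendsto (fun X : ℕ =>
      ∏ p ∈ (Finset.range X).filter (fun p => p.Prime ∧ p ∉ S),
        ∏ i ∈ Finset.range m, (1 - b p i * (p : ℂ) ^ (-s))⁻¹) atTop (𝓝 (M s)))
    (hb : ∀ p : ℕ, p.Prime → p ∉ S → ∀ i < m, ‖b p i‖ = 1)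
    {f : ℕ → ℕ → ℂ} (hf : ∀ p : ℕ, p.Prime → p ∉ S → ∀ n : ℕ, 1 ≤ n →
      f p n = ∑ i ∈ Finset.range m, b p i ^ n) : f ∈ MerG S := by
  refine ⟨⟨m, fun p hp hpS n hn => ?_⟩, M, hM, fun s hs => ?_⟩
  · rw [hf p hp hpS n hn]
    refine (norm_sum_le _ _).trans ?_
    refine (Finset.sum_le_card_nsmul _ _ 1 fun i hi => ?_).trans (by simp)
    rw [norm_pow, hb p hp hpS i (Finset.mem_range.1 hi), one_pow]
  · refine (h s hs).congr fun X => ?_
    refine Finset.prod_congr rfl fun p hp => ?_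
    rw [Finset.mem_filter] at hp
    rw [exp_Lp (Finset.range m) (b p) (fun _ => 1)
      (fun i hi => hb p hp.2.1 hp.2.2 i (Finset.mem_range.1 hi)) hp.2.1 hs
      (fun n hn => by simp [hf p hp.2.1 hp.2.2 n hn])]
    simp

end Pool.Agent.L7h29.GT
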