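import Pool.Agent.L7h29.GT.Hr
import Pool.Agent.L7h29.GT.Gen

/-!
# Representations of a group restricted to a Levi subgroup `GL_2 × GL_1^r`
-/

set_option autoImplicit false

namespace Pool.Agent.L7h29.GT

open Filter Topology Complex Set

/-- the torus -/
abbrev TT (r : ℕ) : Type := ℂˣ × ℂˣ × (Fin r → ℂˣ)

/-- its characters -/
abbrev LL (r : ℕ) : Type := ℤ × ℤ × (Fin r → ℤ)

noncomputable def er {r : ℕ} (x : LL r) : TT r →* ℂ where
  toFun g := ((g.1 ^ x.1 * g.2.1 ^ x.2.1 * ∏ i, g.2.2 i ^ x.2.2 i : ℂˣ) : ℂ)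
  map_one' := by simp
  map_mul' g h := by
    rw [← Units.val_mul]
    congr 1
    simp only [Prod.fst_mul, Prod.snd_mul, Pi.mul_apply, mul_zpow, Finset.prod_mul_distrib]
    rw [mul_mul_mul_comm (g.1 ^ x.1), mul_mul_mul_comm]

theorem er_apply {r : ℕ} (x : LL r) (g : TT r) :
    er x g = (g.1 : ℂ) ^ x.1 * (g.2.1 : ℂ) ^ x.2.1 * ∏ i, (g.2.2 i : ℂ) ^ x.2.2 i := by
  simp [er]

theorem chars_er {r : ℕ} : Gen.Chars (er (r := r)) := by
  refine ⟨fun x y g => ?_, fun g => by rw [er_apply]; simp, ?_⟩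
  · rw [er_apply, er_apply, er_apply]
    simp only [Prod.fst_add, Prod.snd_add, Pi.add_apply]
    rw [zpow_add₀ g.1.ne_zero, zpow_add₀ g.2.1.ne_zero]
    have h1 : ∏ i, (g.2.2 i : ℂ) ^ (x.2.2 i + y.2.2 i) =
        (∏ i, (g.2.2 i : ℂ) ^ x.2.2 i) * ∏ i, (g.2.2 i : ℂ) ^ y.2.2 i := by
      rw [← Finset.prod_mul_distrib]
      exact Finset.prod_congr rfl fun i _ => zpow_add₀ (g.2.2 i).ne_zero _ _
    rw [h1]
    ring
  · rintro ⟨x1, x2, x3⟩ ⟨y1, y2, y3⟩ h
    have h2 : ((2 : ℂ)) ≠ 0 := two_ne_zero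
    have key : ∀ x y : ℤ, (2 : ℂ) ^ x = (2 : ℂ) ^ y → x = y := by
      intro x y hxy
      have h3 := congrArg norm hxy
      rw [norm_zpow, norm_zpow, Complex.norm_ofNat] at h3
      exact zpow_right_injective₀ (by norm_num) (by norm_num) h3
    have e1 := DFunLike.congr_fun h (Units.mk0 2 h2, 1, 1)
    have e2 := DFunLike.congr_fun h (1, Units.mk0 2 h2, 1)
    rw [er_apply, er_apply] at e1 e2
    simp only [Units.val_mk0, Units.val_one, one_zpow, mul_one, one_mul, Pi.one_apply,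
      Finset.prod_const_one] at e1 e2
    rw [Prod.mk.injEq, Prod.mk.injEq]
    refine ⟨key _ _ e1, key _ _ e2, funext fun i => key _ _ ?_⟩
    have e3 := DFunLike.congr_fun h (1, 1, Function.update (1 : Fin r → ℂˣ) i (Units.mk0 2 h2))
    rw [er_apply, er_apply] at e3
    simp only [Units.val_one, one_zpow, mul_one, one_mul] at e3
    rw [Finset.prod_eq_single i (fun j _ hj => by
      rw [Function.update_of_ne hj]
      simp) (fun h => absurd (Finset.mem_univ i) h), Finset.prod_eq_single i (fun j _ hj => by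
      rw [Function.update_of_ne hj]
      simp) (fun h => absurd (Finset.mem_univ i) h)] at e3
    simpa using e3

/-- the Euler product `L_S(s, Sym^k π ⊗ χ)` has a meromorphic continuation -/
def Cont (S : Finset ℕ) (α β χ : ℕ → ℂ) (k : ℕ) : Prop :=
  ∃ M : ℂ → ℂ, Meromorphic M ∧ ∀ s : ℂ, 1 < s.re → Tendsto (fun X : ℕ =>
    ∏ p ∈ (Finset.range X).filter (fun p => p.Prime ∧ p ∉ S),
      ∏ i ∈ Finset.range (k + 1), (1 - χ p * (α p ^ (k - i) * β p ^ i) * (p : ℂ) ^ (-s))⁻¹) atTop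
      (𝓝 (M s))

/-- twisting a group of functions by a unitary character -/
noncomputable def twG (G : AddSubgroup (ℕ → ℕ → ℂ)) (c : ℕ → ℂ) : AddSubgroup (ℕ → ℕ → ℂ) where
  carrier := {f | (fun p n => c p ^ n * f p n) ∈ G}
  zero_mem' := by
    have : (fun p n => c p ^ n * (0 : ℕ → ℕ → ℂ) p n) = 0 := by
      funext p n
      simp
    simp only [mem_setOf_eq, this]
    exact G.zero_mem
  add_mem' := by
    intro f g hf hg
    have : (fun p n => c p ^ n * (f + g) p n) =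
        (fun p n => c p ^ n * f p n) + fun p n => c p ^ n * g p n := by
      funext p n
      simp [mul_add]
    simp only [mem_setOf_eq, this]
    exact G.add_mem hf hg
  neg_mem' := by
    intro f hf
    have : (fun p n => c p ^ n * (-f) p n) = -fun p n => c p ^ n * f p n := by
      funext p n
      simp
    simp only [mem_setOf_eq, this]
    exact G.neg_mem hf

theorem mem_twG {G : AddSubgroup (ℕ → ℕ → ℂ)} {c : ℕ → ℂ} {f : ℕ → ℕ → ℂ} :
    f ∈ twG G c ↔ (fun p n => c p ^ n * f p n) ∈ G := Iff.rfl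

/-- a product of powers of Dirichlet characters -/
theorem chi_prod {N : ℕ} {r : ℕ} (χ : Fin r → DirichletCharacter ℂ N) (l : Fin r → ℤ)
    {p : ℕ} (hp : p.Coprime N) :
    (∏ i, χ i ^ l i) (p : ZMod N) = ∏ i, χ i (p : ZMod N) ^ l i := by
  have h1 : ∀ s : Finset (Fin r), (∏ i ∈ s, χ i ^ l i) (p : ZMod N) =
      ∏ i ∈ s, χ i (p : ZMod N) ^ l i := by
    intro s
    induction s using Finset.induction_on with
    | empty =>
      have := MulChar.one_apply_coe (R' := ℂ) (ZMod.unitOfCoprime p hp)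
      rw [ZMod.coe_unitOfCoprime] at this
      simpa using this
    | insert a s ha ih =>
      rw [Finset.prod_insert ha, Finset.prod_insert ha, MulChar.mul_apply, ih]
      congr 1
      have := mc_zpow (χ a) (ZMod.unitOfCoprime p hp) (l a)
      rwa [ZMod.coe_unitOfCoprime] at this
  exact h1 Finset.univ

theorem cpow_sum_prod {r : ℕ} {x : ℂ} (hx : x ≠ 0) (f : Fin r → ℂ) :
    x ^ (∑ i, f i) = ∏ i, x ^ f i := by
  have h1 : ∀ s : Finset (Fin r), x ^ (∑ i ∈ s, f i) = ∏ i ∈ s, x ^ f i := by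
    intro s
    induction s using Finset.induction_on with
    | empty => simp
    | insert a s ha ih => rw [Finset.sum_insert ha, Finset.prod_insert ha, cpow_add _ _ hx, ih]
  exact h1 Finset.univ

/-- **Levi subgroups** -/
theorem lev {S : Finset ℕ} {α β : ℕ → ℂˣ} {N₀ N₁ : ℕ} [NeZero N₀] [NeZero N₁]
    {ω : DirichletCharacter ℂ N₀} (hN₀ : N₀.primeFactors ⊆ S) (hN₁ : N₁.primeFactors ⊆ S)
    (hω : ∀ p : ℕ, p.Prime → p ∉ S → (α p : ℂ) * β p = ω (p : ZMod N₀))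
    {V : Finset ℝ} {J : ℕ} (hV : V.card ≤ J)
    (hR : Ready S (fun p => (α p : ℂ)) (fun p => (β p : ℂ)) (insert (-2) V))
    (hna : ∀ p : ℕ, p.Prime → p ∉ S → ‖(α p : ℂ)‖ = 1)
    (hnb : ∀ p : ℕ, p.Prime → p ∉ S → ‖(β p : ℂ)‖ = 1)
    (hM : ∀ k ≤ 2 * J, ∀ (n : ℕ) [NeZero n] (χ : DirichletCharacter ℂ n),
      Cont (S ∪ n.primeFactors) (fun p => α p) (fun p => β p) (fun p => χ (p : ZMod n)) k)
    {r : ℕ} (χ : Fin r → DirichletCharacter ℂ N₁) (z : Fin r → ℂ) (t : ℕ → Fin r → ℂˣ)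
    (ht : ∀ p : ℕ, p.Prime → p ∉ S → ∀ i, (t p i : ℂ) = χ i (p : ZMod N₁) * (p : ℂ) ^ z i)
    {m : ℕ} (τ : TT r →* Matrix (Fin m) (Fin m) ℂ)
    (hlau : ∀ i j : Fin m, Gen.Lau er fun g => τ g i j) (P P' : Matrix (Fin m) (Fin m) ℂ)
    (hP : P * P' = 1) (hsym : ∀ g : TT r, τ (g.2.1, g.1, g.2.2) = P * τ g * P') :
    ∃ (σ : ℝ) (M : ℂ → ℂ), Meromorphic M ∧ ∀ s : ℂ, σ < s.re → Tendsto (fun X : ℕ =>
      ∏ p ∈ (Finset.range X).filter (fun p => p.Prime ∧ p ∉ S),
        ((1 - (p : ℂ) ^ (-s) • τ (α p, β p, t p)).det)⁻¹) atTop (𝓝 (M s)) := by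
  classical
  have hn0 := NeZero.ne N₀
  have hn1 := NeZero.ne N₁
  have hcop0 : ∀ p : ℕ, p.Prime → p ∉ S → p.Coprime N₀ := fun p hp hpS =>
    cop hp hn0 fun h3 => hpS (hN₀ h3)
  have hcop1 : ∀ p : ℕ, p.Prime → p ∉ S → p.Coprime N₁ := fun p hp hpS =>
    cop hp hn1 fun h3 => hpS (hN₁ h3)
  obtain ⟨B, r', hdet, hs⟩ := Gen.weights chars_er τ hlau
  obtain ⟨hB, hr⟩ := hs (fun x => (x.2.1, x.1, x.2.2)) (fun g => (g.2.1, g.1, g.2.2)) P P'
    (fun x => rfl) (fun x g => by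
      rw [er_apply, er_apply]
      ring) hP hsym
  -- the characters
  set c : (Fin r → ℤ) → ℕ → ℂ := fun l p => ∏ i, χ i (p : ZMod N₁) ^ l i with hc
  have hcn : ∀ l, ∀ p : ℕ, p.Prime → p ∉ S → ‖c l p‖ = 1 := by
    intro l p hp hpS
    rw [hc]
    simp only
    rw [norm_prod]
    refine Finset.prod_eq_one fun i _ => ?_
    rw [norm_zpow, chr_norm (χ i) (hcop1 p hp hpS), one_zpow]
  have hcongr : ∀ f ∈ MerG S, ∀ g : ℕ → ℕ → ℂ,
      (∀ p : ℕ, p.Prime → p ∉ S → ∀ n : ℕ, 1 ≤ n → f p n = g p n) → g ∈ MerG S :=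
    fun f hf g hg => MerG_congr hf hg
  have hE : ∀ l : Fin r → ℤ, ∀ k ≤ 2 * J, ∀ j : ℤ,
      EE (fun p => (α p : ℂ)) (fun p => (β p : ℂ)) k j ∈ twG (MerG S) (c l) := by
    intro l k hk j
    have hmul0 : N₀ ∣ N₀ * N₁ := Dvd.intro N₁ rfl
    have hmul1 : N₁ ∣ N₀ * N₁ := Dvd.intro_left N₀ rfl
    obtain ⟨M, hM1, hM2⟩ := hM k hk (N₀ * N₁) (DirichletCharacter.changeLevel hmul0 (ω ^ j) *
      DirichletCharacter.changeLevel hmul1 (∏ i, χ i ^ l i))
    rw [Nat.primeFactors_mul hn0 hn1, Finset.union_eq_left.2 (Finset.union_subset hN₀ hN₁)] at hM2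
    have hval : ∀ p : ℕ, p.Prime → p ∉ S → (DirichletCharacter.changeLevel hmul0 (ω ^ j) *
        DirichletCharacter.changeLevel hmul1 (∏ i, χ i ^ l i)) (p : ZMod (N₀ * N₁)) =
        c l p * ((α p : ℂ) * β p) ^ j := by
      intro p hp hpS
      have h3 : p.Coprime (N₀ * N₁) := Nat.Coprime.mul_right (hcop0 p hp hpS) (hcop1 p hp hpS)
      rw [MulChar.mul_apply, chl _ _ h3, chl _ _ h3, chi_prod χ l (hcop1 p hp hpS)]
      have h5 := mc_zpow ω (ZMod.unitOfCoprime p (hcop0 p hp hpS)) j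
      rw [ZMod.coe_unitOfCoprime] at h5
      rw [h5, hω p hp hpS, mul_comm]
    rw [mem_twG]
    refine MerG_of' hM1 (b := fun p i => c l p * ((α p : ℂ) * β p) ^ j *
      ((α p : ℂ) ^ (k - i) * (β p : ℂ) ^ i)) (m := k + 1) (fun s hs => (hM2 s hs).congr fun X => ?_)
      (fun p hp hpS i _ => ?_) fun p hp hpS n hn => ?_
    · refine Finset.prod_congr rfl fun p hp => Finset.prod_congr rfl fun i _ => ?_
      rw [Finset.mem_filter] at hp
      simp only [hval p hp.2.1 hp.2.2]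
    · rw [norm_mul, norm_mul, norm_zpow, norm_mul, norm_mul, norm_pow, norm_pow, hna p hp hpS,
        hnb p hp hpS, hcn l p hp hpS]
      simp
    · have h6 := sb_sum (fun p => (α p : ℂ)) (fun p => (β p : ℂ))
        (fun p => c l p * ((α p : ℂ) * β p) ^ j) k p n
      unfold sb at h6
      rw [h6]
      unfold EE
      rw [mul_pow, mul_assoc]
      congr 2
      rw [← mul_pow, ← zpow_natCast, ← zpow_natCast, ← zpow_mul, ← zpow_mul, mul_comm j]
  have hcongr' : ∀ l, ∀ f ∈ twG (MerG S) (c l), ∀ g : ℕ → ℕ → ℂ,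
      (∀ p : ℕ, p.Prime → p ∉ S → ∀ n : ℕ, 1 ≤ n → f p n = g p n) → g ∈ twG (MerG S) (c l) := by
    intro l f hf g hg
    rw [mem_twG] at hf ⊢
    exact hcongr _ hf _ fun p hp hpS n hn => by
      rw [hg p hp hpS n hn]
  have hall := fun l => hR.all2 hV (twG (MerG S) (c l)) (hcongr' l) (hE l)
  -- the pieces
  set Bl : (Fin r → ℤ) → Finset (ℤ × ℤ) := fun l =>
    (B.filter fun x => x.2.2 = l).image fun x => (x.1, x.2.1) with hBl
  have hBlmem : ∀ l (y : ℤ × ℤ), y ∈ Bl l ↔ (y.1, y.2, l) ∈ B := by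
    intro l y
    simp only [hBl, Finset.mem_image, Finset.mem_filter]
    constructor
    · rintro ⟨x, ⟨hx, rfl⟩, rfl⟩
      exact hx
    · intro h
      exact ⟨_, ⟨h, rfl⟩, rfl⟩
  have hpiece : ∀ l, ∃ M : ℂ → ℂ, Meromorphic M ∧ ∀ s : ℂ, 1 < s.re → Tendsto (fun X : ℕ =>
      ∏ p ∈ (Finset.range X).filter (fun p => p.Prime ∧ p ∉ S),
        ∏ y ∈ Bl l, ((1 - (c l p * ((α p : ℂ) ^ y.1 * (β p : ℂ) ^ y.2)) * (p : ℂ) ^ (-s)) ^
          r' (y.1, y.2, l))⁻¹) atTop (𝓝 (M s)) := by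
    intro l
    obtain ⟨-, M, hM1, hM2⟩ := (mem_twG.1 (wt_mem (fun p _ _ => (α p).ne_zero)
      (fun p _ _ => (β p).ne_zero) (twG (MerG S) (c l)) (hcongr' l) (hall l) (Bl l)
      (fun y hy => by
        rw [hBlmem] at hy ⊢
        exact hB _ hy) (fun y => r' (y.1, y.2, l)) (fun y => hr (y.1, y.2, l))) :)
    refine ⟨M, hM1, fun s hs => (hM2 s hs).congr fun X => ?_⟩
    refine Finset.prod_congr rfl fun p hp => ?_
    rw [Finset.mem_filter] at hp
    rw [exp_Lp (Bl l) (fun y => c l p * ((α p : ℂ) ^ y.1 * (β p : ℂ) ^ y.2))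
      (fun y => r' (y.1, y.2, l)) (fun y _ => by
        rw [norm_mul, norm_mul, norm_zpow, norm_zpow, hna p hp.2.1 hp.2.2, hnb p hp.2.1 hp.2.2,
          hcn l p hp.2.1 hp.2.2]
        simp) hp.2.1 hs (fun n hn => ?_)]
    simp only [Finset.sum_apply, nsmul_eq_mul, Pi.mul_apply, Pi.natCast_apply]
    rw [Finset.mul_sum]
    refine Finset.sum_congr rfl fun y _ => ?_
    unfold wt
    have e1 : ((α p : ℂ) ^ y.1) ^ n = ((α p : ℂ) ^ n) ^ y.1 := by
      rw [← zpow_natCast, ← zpow_natCast, ← zpow_mul, ← zpow_mul, mul_comm]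
    have e2 : ((β p : ℂ) ^ y.2) ^ n = ((β p : ℂ) ^ n) ^ y.2 := by
      rw [← zpow_natCast, ← zpow_natCast, ← zpow_mul, ← zpow_mul, mul_comm]
    rw [mul_pow, mul_pow, e1, e2]
    ring
  choose Ml hMl1 hMl2 using hpiece
  set Ls : Finset (Fin r → ℤ) := B.image fun x => x.2.2 with hLs
  set d : (Fin r → ℤ) → ℂ := fun l => ∑ i, (l i : ℂ) * z i with hd
  refine ⟨1 + ∑ l ∈ Ls, |(d l).re|, fun s => ∏ l ∈ Ls, Ml l (s - d l), ?_, fun s hs => ?_⟩
  · intro x
    refine MeromorphicAt.fun_prod fun l _ => ?_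
    have h1 : AnalyticAt ℂ (fun s : ℂ => s - d l) x := by fun_prop
    exact MeromorphicAt.comp_analyticAt (f := Ml l) (g := fun s : ℂ => s - d l)
      (hMl1 l (x - d l)) h1
  · have hsl : ∀ l ∈ Ls, 1 < (s - d l).re := by
      intro l hl
      have h1 : |(d l).re| ≤ ∑ l ∈ Ls, |(d l).re| :=
        Finset.single_le_sum (f := fun l => |(d l).re|) (fun _ _ => abs_nonneg _) hl
      have h2 := le_abs_self (d l).re
      rw [sub_re]
      linarith
    have hlim := tendsto_finsetProd Ls fun l hl => hMl2 l (s - d l) (hsl l hl)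
    refine hlim.congr fun X => ?_
    rw [Finset.prod_comm]
    refine Finset.prod_congr rfl fun p hp => ?_
    rw [Finset.mem_filter] at hp
    have hp0 : (p : ℂ) ≠ 0 := by exact_mod_cast hp.2.1.ne_zero
    rw [hdet (α p, β p, t p) ((p : ℂ) ^ (-s)), ← Finset.prod_inv_distrib,
      ← Finset.prod_fiberwise_of_maps_to (s := B) (t := Ls) (g := fun x => x.2.2)
        (fun x hx => Finset.mem_image_of_mem _ hx)]
    refine Finset.prod_congr rfl fun l _ => ?_
    rw [hBl]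
    simp only
    rw [Finset.prod_image]
    · refine Finset.prod_congr rfl fun x hx => ?_
      obtain ⟨-, hxl⟩ := Finset.mem_filter.1 hx
      rw [er_apply]
      have h1 : ∏ i, (t p i : ℂ) ^ x.2.2 i = c l p * (p : ℂ) ^ d l := by
        rw [hc, hd]
        simp only
        rw [cpow_sum_prod hp0, ← Finset.prod_mul_distrib]
        refine Finset.prod_congr rfl fun i _ => ?_
        rw [ht p hp.2.1 hp.2.2 i, mul_zpow, hxl]
        congr 1
        rw [cpow_int_mul]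
      have h2 : (p : ℂ) ^ (-(s - d l)) = (p : ℂ) ^ (-s) * (p : ℂ) ^ d l := by
        rw [← cpow_add _ _ hp0]
        congr 1
        ring
      simp only [h1, h2]
      rw [← hxl]
      congr 3
      ring
    · intro x hx y hy hxy
      have hx' := (Finset.mem_filter.1 hx).2
      have hy' := (Finset.mem_filter.1 hy).2
      simp only [Prod.mk.injEq] at hxy
      exact Prod.ext hxy.1 (Prod.ext hxy.2 (hx'.trans hy'.symm))

end Pool.Agent.L7h29.GT
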