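import Pool.Agent.L7h29.GT.Clo

/-!
# The group of Euler products with meromorphic continuation
-/

set_option autoImplicit false

namespace Pool.Agent.L7h29.GT

open Filter Topology Complex Set Pool.Agent.N210.FV Pool.Agent.N210.FW Pool.Agent.N845.SP

/-- the logarithm of the local factor with the traces `f p n` -/
noncomputable def Lp (f : ℕ → ℕ → ℂ) (p : ℕ) (s : ℂ) : ℂ := ∑' n : ℕ, f p n * ((p : ℂ) ^ (-s)) ^ n / n

/-- the Euler product with the traces `f p n` has a meromorphic continuation -/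
structure Mer (S : Finset ℕ) (f : ℕ → ℕ → ℂ) : Prop where
  bd : ∃ C : ℝ, ∀ p : ℕ, p.Prime → p ∉ S → ∀ n : ℕ, 1 ≤ n → ‖f p n‖ ≤ C
  mer : ∃ M : ℂ → ℂ, Meromorphic M ∧ ∀ s : ℂ, 1 < s.re → Tendsto (fun X : ℕ =>
    ∏ p ∈ (Finset.range X).filter (fun p => p.Prime ∧ p ∉ S), exp (Lp f p s)) atTop (𝓝 (M s))

theorem Lp_hasSum {f : ℕ → ℕ → ℂ} {p : ℕ} (hp : p.Prime) {C : ℝ}
    (hC : ∀ n : ℕ, 1 ≤ n → ‖f p n‖ ≤ C) {s : ℂ} (hs : 1 < s.re) :
    HasSum (fun n : ℕ => f p n * ((p : ℂ) ^ (-s)) ^ n / n) (Lp f p s) ∧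
      ‖Lp f p s‖ ≤ 2 * C * (p : ℝ) ^ (-s.re) := by
  have hC0 : 0 ≤ C := (norm_nonneg _).trans (hC 1 le_rfl)
  set z : ℂ := (p : ℂ) ^ (-s) with hz
  have hzn : ‖z‖ = (p : ℝ) ^ (-s.re) := pz_norm hp s
  have hz2 : ‖z‖ ≤ 1 / 2 := by
    rw [hzn, Real.rpow_neg (Nat.cast_nonneg _), one_div]
    refine inv_anti₀ (by norm_num) ?_
    calc (2 : ℝ) ≤ p := by exact_mod_cast hp.two_le
      _ = (p : ℝ) ^ (1 : ℝ) := (Real.rpow_one _).symm
      _ ≤ (p : ℝ) ^ s.re := Real.rpow_le_rpow_of_exponent_le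
        (by exact_mod_cast hp.one_lt.le) hs.le
  have hz1 : ‖z‖ < 1 := by linarith
  have hg : HasSum (fun n : ℕ => C * ‖z‖ ^ n - if n = 0 then C else 0)
      (C * (1 - ‖z‖)⁻¹ - C) :=
    ((hasSum_geometric_of_lt_one (norm_nonneg _) hz1).mul_left C).sub (hasSum_ite_eq 0 C)
  have hle : ∀ n : ℕ, ‖f p n * z ^ n / n‖ ≤ C * ‖z‖ ^ n - if n = 0 then C else 0 := by
    intro n
    rcases Nat.eq_zero_or_pos n with h0 | h0
    · subst h0
      simp
    · rw [if_neg h0.ne', sub_zero, norm_div, norm_mul, norm_pow, Complex.norm_natCast]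
      have h1 : (1 : ℝ) ≤ n := by exact_mod_cast h0
      refine (div_le_self (by positivity) h1).trans ?_
      exact mul_le_mul_of_nonneg_right (hC n h0) (by positivity)
  refine ⟨(Summable.of_norm_bounded hg.summable hle).hasSum, ?_⟩
  refine (tsum_of_norm_bounded hg hle).trans ?_
  rw [← hzn]
  have h2 : 0 < 1 - ‖z‖ := by linarith
  have h3 : (1 - ‖z‖)⁻¹ ≤ 2 := by
    rw [inv_le_comm₀ h2 (by norm_num)]
    linarith
  have h4 : C * (1 - ‖z‖)⁻¹ - C = C * ‖z‖ * (1 - ‖z‖)⁻¹ := by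
    field_simp
    ring
  rw [h4]
  have h5 : 0 ≤ C * ‖z‖ := by positivity
  nlinarith

theorem mer_ne {S : Finset ℕ} {f : ℕ → ℕ → ℂ} {C : ℝ}
    (hC : ∀ p : ℕ, p.Prime → p ∉ S → ∀ n : ℕ, 1 ≤ n → ‖f p n‖ ≤ C)
    {s : ℂ} (hs : 1 < s.re) {L : ℂ} (h : Tendsto (fun X : ℕ =>
    ∏ p ∈ (Finset.range X).filter (fun p => p.Prime ∧ p ∉ S), exp (Lp f p s)) atTop (𝓝 L)) :
    L ≠ 0 := by
  have hsum : Summable fun n : ℕ => (n : ℝ) ^ (-s.re) := by
    have := Real.summable_nat_rpow (p := -s.re)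
    rw [this]
    linarith
  set D : ℝ := 2 * |C| with hD
  have h1 : ∀ X : ℕ, Real.exp (-(D * ∑' n : ℕ, (n : ℝ) ^ (-s.re))) ≤
      ‖∏ p ∈ (Finset.range X).filter (fun p => p.Prime ∧ p ∉ S), exp (Lp f p s)‖ := by
    intro X
    rw [← Complex.exp_sum, Complex.norm_exp, Real.exp_le_exp, Complex.re_sum]
    have h2 : ∀ p ∈ (Finset.range X).filter (fun p => p.Prime ∧ p ∉ S),
        -(D * (p : ℝ) ^ (-s.re)) ≤ (Lp f p s).re := by
      intro p hp
      rw [Finset.mem_filter] at hp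
      have h3 := (Lp_hasSum hp.2.1 (hC p hp.2.1 hp.2.2) hs).2
      have h4 := (abs_le.1 (Complex.abs_re_le_norm (Lp f p s))).1
      have h5 : 2 * C * (p : ℝ) ^ (-s.re) ≤ D * (p : ℝ) ^ (-s.re) := by
        rw [hD]
        gcongr
        exact le_abs_self C
      linarith
    refine le_trans ?_ (Finset.sum_le_sum h2)
    rw [Finset.sum_neg_distrib, neg_le_neg_iff, ← Finset.mul_sum]
    refine mul_le_mul_of_nonneg_left ?_ (by positivity)
    exact hsum.sum_le_tsum _ fun n _ => by positivity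
  have h2 := ge_of_tendsto' h.norm h1
  intro h0
  rw [h0, norm_zero] at h2
  exact absurd h2 (not_le.2 (Real.exp_pos _))

/-- the group -/
noncomputable def MerG (S : Finset ℕ) : AddSubgroup (ℕ → ℕ → ℂ) where
  carrier := {f | Mer S f}
  zero_mem' := by
    refine ⟨⟨0, fun p _ _ n _ => by simp⟩, fun _ => 1, Meromorphic.const 1, fun s _ => ?_⟩
    have : ∀ p : ℕ, Lp (0 : ℕ → ℕ → ℂ) p s = 0 := fun p => by simp [Lp]
    simp [this]
  add_mem' := by
    rintro f g ⟨⟨C, hC⟩, M, hM, hf⟩ ⟨⟨C', hC'⟩, M', hM', hg⟩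
    refine ⟨⟨C + C', fun p hp hpS n hn => (norm_add_le _ _).trans
      (add_le_add (hC p hp hpS n hn) (hC' p hp hpS n hn))⟩, M * M', hM.mul hM', fun s hs => ?_⟩
    have h1 := (hf s hs).mul (hg s hs)
    refine h1.congr fun X => ?_
    rw [← Finset.prod_mul_distrib]
    refine Finset.prod_congr rfl fun p hp => ?_
    rw [Finset.mem_filter] at hp
    have h2 := (Lp_hasSum hp.2.1 (hC p hp.2.1 hp.2.2) hs).1
    have h3 := (Lp_hasSum hp.2.1 (hC' p hp.2.1 hp.2.2) hs).1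
    have h4 : Lp (f + g) p s = Lp f p s + Lp g p s := by
      rw [← (h2.add h3).tsum_eq]
      unfold Lp
      refine tsum_congr fun n => ?_
      simp only [Pi.add_apply]
      ring
    rw [h4, exp_add]
  neg_mem' := by
    rintro f ⟨⟨C, hC⟩, M, hM, hf⟩
    refine ⟨⟨C, fun p hp hpS n hn => by simpa using hC p hp hpS n hn⟩, M⁻¹, hM.inv, fun s hs => ?_⟩
    have h1 := (hf s hs).inv₀ (mer_ne hC hs (hf s hs))
    refine h1.congr fun X => ?_
    rw [← Finset.prod_inv_distrib]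
    refine Finset.prod_congr rfl fun p _ => ?_
    have h4 : Lp (-f) p s = -Lp f p s := by
      unfold Lp
      rw [← tsum_neg]
      refine tsum_congr fun n => ?_
      simp only [Pi.neg_apply]
      ring
    rw [h4, exp_neg]

theorem mem_MerG {S : Finset ℕ} {f : ℕ → ℕ → ℂ} : f ∈ MerG S ↔ Mer S f := Iff.rfl

theorem MerG_congr {S : Finset ℕ} {f g : ℕ → ℕ → ℂ} (hf : f ∈ MerG S)
    (h : ∀ p : ℕ, p.Prime → p ∉ S → ∀ n : ℕ, 1 ≤ n → f p n = g p n) : g ∈ MerG S := by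
  obtain ⟨⟨C, hC⟩, M, hM, hf⟩ := hf
  refine ⟨⟨C, fun p hp hpS n hn => (h p hp hpS n hn) ▸ hC p hp hpS n hn⟩, M, hM, fun s hs => ?_⟩
  refine (hf s hs).congr fun X => ?_
  refine Finset.prod_congr rfl fun p hp => ?_
  rw [Finset.mem_filter] at hp
  congr 1
  unfold Lp
  refine tsum_congr fun n => ?_
  rcases Nat.eq_zero_or_pos n with h0 | h0
  · subst h0
    simp
  · rw [h p hp.2.1 hp.2.2 n h0]

/-- local factors from their parameters, with multiplicities -/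
theorem exp_Lp {ι : Type*} (I : Finset ι) (w : ι → ℂ) (r : ι → ℕ) (hw : ∀ i ∈ I, ‖w i‖ = 1) {p : ℕ}
    (hp : p.Prime) {s : ℂ} (hs : 1 < s.re) {f : ℕ → ℕ → ℂ}
    (hf : ∀ n : ℕ, 1 ≤ n → f p n = ∑ i ∈ I, (r i : ℂ) * w i ^ n) :
    exp (Lp f p s) = ∏ i ∈ I, ((1 - w i * (p : ℂ) ^ (-s)) ^ r i)⁻¹ := by
  have hz : ∀ i ∈ I, ‖w i * (p : ℂ) ^ (-s)‖ < 1 := by
    intro i hi
    rw [norm_mul, hw i hi, one_mul, pz_norm hp]
    exact Real.rpow_lt_one_of_one_lt_of_neg (by exact_mod_cast hp.one_lt) (by linarith)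
  have h1 : HasSum (fun n : ℕ => ∑ i ∈ I, (r i : ℂ) * ((w i * (p : ℂ) ^ (-s)) ^ n / n))
      (∑ i ∈ I, (r i : ℂ) * (-log (1 - w i * (p : ℂ) ^ (-s)))) :=
    hasSum_sum fun i hi => (hasSum_taylorSeries_neg_log (hz i hi)).mul_left _
  have h2 : Lp f p s = ∑ i ∈ I, (r i : ℂ) * (-log (1 - w i * (p : ℂ) ^ (-s))) := by
    rw [← h1.tsum_eq]
    unfold Lp
    refine tsum_congr fun n => ?_
    rcases Nat.eq_zero_or_pos n with h0 | h0
    · subst h0
      simp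
    · rw [hf n h0, Finset.sum_mul, Finset.sum_div]
      refine Finset.sum_congr rfl fun i _ => ?_
      rw [mul_pow]
      ring
  rw [h2, exp_sum]
  refine Finset.prod_congr rfl fun i hi => ?_
  rw [exp_nat_mul, exp_neg, exp_log (fac_ne (hz i hi)), inv_pow]

/-- one Euler product -/
theorem MerG_of {S : Finset ℕ} {m : ℕ} {b : ℕ → ℕ → ℂ} {N D N' D' : ℂ → ℂ}
    (h : DL S m b N D N' D') (hb : ∀ p : ℕ, p.Prime → p ∉ S → ∀ i < m, ‖b p i‖ = 1)
    {f : ℕ → ℕ → ℂ} (hf : ∀ p : ℕ, p.Prime → p ∉ S → ∀ n : ℕ, 1 ≤ n →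
      f p n = ∑ i ∈ Finset.range m, b p i ^ n) : f ∈ MerG S := by
  refine ⟨⟨m, fun p hp hpS n hn => ?_⟩, fun s => N s / D s, ?_, fun s hs => ?_⟩
  · rw [hf p hp hpS n hn]
    refine (norm_sum_le _ _).trans ?_
    refine (Finset.sum_le_card_nsmul _ _ 1 fun i hi => ?_).trans (by simp)
    rw [norm_pow, hb p hp hpS i (Finset.mem_range.1 hi), one_pow]
  · intro z
    exact ((h.diffN.analyticAt z).meromorphicAt).div (h.diffD.analyticAt z).meromorphicAt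
  · refine (h.euler s hs).congr fun X => ?_
    refine Finset.prod_congr rfl fun p hp => ?_
    rw [Finset.mem_filter] at hp
    rw [exp_Lp (Finset.range m) (b p) (fun _ => 1)
      (fun i hi => hb p hp.2.1 hp.2.2 i (Finset.mem_range.1 hi)) hp.2.1 hs
      (fun n hn => by simp [hf p hp.2.1 hp.2.2 n hn])]
    simp

end Pool.Agent.L7h29.GT
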