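import Pool.Agent.L7h29.GT.Mul
import Pool.Agent.L7h29.GT.Lev

/-!
# Several forms and Hecke characters: Euler products of symmetric sets of weights
-/

set_option autoImplicit false

namespace Pool.Agent.L7h29.GT

open Filter Topology Complex Set

/-- the torus of `GL_2^s × GL_1^r` -/
abbrev TM (s r : ℕ) : Type := (Fin s → ℂˣ × ℂˣ) × (Fin r → ℂˣ)

/-- its characters -/
abbrev LM (s r : ℕ) : Type := (Fin s → ℤ × ℤ) × (Fin r → ℤ)

noncomputable def em {s r : ℕ} (x : LM s r) : TM s r →* ℂ where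
  toFun g := (((∏ i, (g.1 i).1 ^ (x.1 i).1 * (g.1 i).2 ^ (x.1 i).2) *
    ∏ j, g.2 j ^ x.2 j : ℂˣ) : ℂ)
  map_one' := by simp
  map_mul' g h := by
    rw [← Units.val_mul]
    congr 1
    simp only [Prod.fst_mul, Prod.snd_mul, Pi.mul_apply, mul_zpow, Finset.prod_mul_distrib]
    rw [mul_mul_mul_comm (∏ i, (g.1 i).1 ^ (x.1 i).1), mul_mul_mul_comm]

theorem em_apply {s r : ℕ} (x : LM s r) (g : TM s r) :
    em x g = (∏ i, ((g.1 i).1 : ℂ) ^ (x.1 i).1 * ((g.1 i).2 : ℂ) ^ (x.1 i).2) *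
      ∏ j, (g.2 j : ℂ) ^ x.2 j := by
  simp [em]

theorem em_add {s r : ℕ} (x y : LM s r) (g : TM s r) : em (x + y) g = em x g * em y g := by
  rw [em_apply, em_apply, em_apply]
  simp only [Prod.fst_add, Prod.snd_add, Pi.add_apply]
  have h1 : ∏ j, (g.2 j : ℂ) ^ (x.2 j + y.2 j) =
      (∏ j, (g.2 j : ℂ) ^ x.2 j) * ∏ j, (g.2 j : ℂ) ^ y.2 j := by
    rw [← Finset.prod_mul_distrib]
    exact Finset.prod_congr rfl fun i _ => zpow_add₀ (g.2 i).ne_zero _ _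
  have h2 : ∏ i, ((g.1 i).1 : ℂ) ^ ((x.1 i).1 + (y.1 i).1) *
      ((g.1 i).2 : ℂ) ^ ((x.1 i).2 + (y.1 i).2) =
      (∏ i, ((g.1 i).1 : ℂ) ^ (x.1 i).1 * ((g.1 i).2 : ℂ) ^ (x.1 i).2) *
        ∏ i, ((g.1 i).1 : ℂ) ^ (y.1 i).1 * ((g.1 i).2 : ℂ) ^ (y.1 i).2 := by
    rw [← Finset.prod_mul_distrib]
    refine Finset.prod_congr rfl fun i _ => ?_
    rw [zpow_add₀ (g.1 i).1.ne_zero, zpow_add₀ (g.1 i).2.ne_zero]
    ring
  rw [h1, h2]
  ring

theorem em_zero {s r : ℕ} (g : TM s r) : em 0 g = 1 := by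
  rw [em_apply]
  simp

/-- one Euler product, general index set -/
theorem MerG_of2 {S : Finset ℕ} {κ : Type*} (I : Finset κ) {b : ℕ → κ → ℂ} {M : ℂ → ℂ}
    (hM : Meromorphic M)
    (h : ∀ s : ℂ, 1 < s.re → Tendsto (fun X : ℕ =>
      ∏ p ∈ (Finset.range X).filter (fun p => p.Prime ∧ p ∉ S),
        ∏ i ∈ I, (1 - b p i * (p : ℂ) ^ (-s))⁻¹) atTop (𝓝 (M s)))
    (hb : ∀ p : ℕ, p.Prime → p ∉ S → ∀ i ∈ I, ‖b p i‖ = 1)
    {f : ℕ → ℕ → ℂ} (hf : ∀ p : ℕ, p.Prime → p ∉ S → ∀ n : ℕ, 1 ≤ n →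
      f p n = ∑ i ∈ I, b p i ^ n) : f ∈ MerG S := by
  refine ⟨⟨I.card, fun p hp hpS n hn => ?_⟩, M, hM, fun s hs => ?_⟩
  · rw [hf p hp hpS n hn]
    refine (norm_sum_le _ _).trans ?_
    refine (Finset.sum_le_card_nsmul _ _ 1 fun i hi => ?_).trans (by simp)
    rw [norm_pow, hb p hp hpS i hi, one_pow]
  · refine (h s hs).congr fun X => ?_
    refine Finset.prod_congr rfl fun p hp => ?_
    rw [Finset.mem_filter] at hp
    rw [exp_Lp I (b p) (fun _ => 1)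
      (fun i hi => hb p hp.2.1 hp.2.2 i hi) hp.2.1 hs
      (fun n hn => by simp [hf p hp.2.1 hp.2.2 n hn])]
    simp

/-- continuation of `L_S(s, ⊠ Sym^{k_i} π_i ⊗ χ)` -/
def ContM (S : Finset ℕ) {s : ℕ} (a b : Fin s → ℕ → ℂ) (χ : ℕ → ℂ) (k : Fin s → ℕ) : Prop :=
  ∃ M : ℂ → ℂ, Meromorphic M ∧ ∀ w : ℂ, 1 < w.re → Tendsto (fun X : ℕ =>
    ∏ p ∈ (Finset.range X).filter (fun p => p.Prime ∧ p ∉ S),
      ∏ e ∈ Fintype.piFinset fun i => Finset.range (k i + 1),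
        (1 - χ p * (∏ i, a i p ^ (k i - e i) * b i p ^ e i) * (p : ℂ) ^ (-w))⁻¹) atTop (𝓝 (M w))

theorem trace_pi {s : ℕ} (a b : Fin s → ℂ) (c : ℂ) (k : Fin s → ℕ) (n : ℕ) :
    ∑ e ∈ Fintype.piFinset (fun i => Finset.range (k i + 1)),
      (c * ∏ i, a i ^ (k i - e i) * b i ^ e i) ^ n =
        c ^ n * ∏ i, hk (k i) (a i ^ n) (b i ^ n) := by
  unfold hk
  rw [Finset.prod_univ_sum, Finset.mul_sum]
  refine Finset.sum_congr rfl fun e _ => ?_
  rw [mul_pow, ← Finset.prod_pow]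
  congr 1
  refine Finset.prod_congr rfl fun i _ => ?_
  rw [mul_pow, ← pow_mul, ← pow_mul, ← pow_mul, ← pow_mul, mul_comm n, mul_comm n]

theorem levm {S : Finset ℕ} {s r : ℕ} {α β : Fin s → ℕ → ℂˣ} {N : ℕ} [NeZero N]
    (hN : N.primeFactors ⊆ S) (ω : Fin s → DirichletCharacter ℂ N)
    (hω : ∀ i, ∀ p : ℕ, p.Prime → p ∉ S → (α i p : ℂ) * β i p = ω i (p : ZMod N))
    {V : Fin s → Finset ℝ} {J : Fin s → ℕ} (hV : ∀ i, (V i).card ≤ J i)
    (hR : ∀ i, Ready S (fun p => (α i p : ℂ)) (fun p => (β i p : ℂ)) (insert (-2) (V i)))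
    (hna : ∀ i, ∀ p : ℕ, p.Prime → p ∉ S → ‖(α i p : ℂ)‖ = 1)
    (hnb : ∀ i, ∀ p : ℕ, p.Prime → p ∉ S → ‖(β i p : ℂ)‖ = 1)
    (hM : ∀ k : Fin s → ℕ, (∀ i, k i ≤ 2 * J i) → ∀ (n : ℕ) [NeZero n]
      (χ : DirichletCharacter ℂ n),
      ContM (S ∪ n.primeFactors) (fun i p => α i p) (fun i p => β i p) (fun p => χ (p : ZMod n)) k)
    (χ : Fin r → DirichletCharacter ℂ N) (z : Fin r → ℂ) (t : ℕ → Fin r → ℂˣ)
    (ht : ∀ p : ℕ, p.Prime → p ∉ S → ∀ i, (t p i : ℂ) = χ i (p : ZMod N) * (p : ℂ) ^ z i)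
    (B : Finset (LM s r)) (hB : ∀ i, ∀ x ∈ B, (sw i x.1, x.2) ∈ B)
    (mu : LM s r → ℕ) (hmu : ∀ i x, mu (sw i x.1, x.2) = mu x) :
    ∃ (σ : ℝ) (M : ℂ → ℂ), Meromorphic M ∧ ∀ w : ℂ, σ < w.re → Tendsto (fun X : ℕ =>
      ∏ p ∈ (Finset.range X).filter (fun p => p.Prime ∧ p ∉ S),
        ∏ x ∈ B, ((1 - em x (fun i => (α i p, β i p), t p) * (p : ℂ) ^ (-w)) ^ mu x)⁻¹) atTop
      (𝓝 (M w)) := by
  classical
  have hn0 := NeZero.ne N
  have hcop : ∀ p : ℕ, p.Prime → p ∉ S → p.Coprime N := fun p hp hpS =>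
    cop hp hn0 fun h3 => hpS (hN h3)
  -- the characters
  set c : (Fin r → ℤ) → ℕ → ℂ := fun l p => ∏ i, χ i (p : ZMod N) ^ l i with hc
  have hcn : ∀ l, ∀ p : ℕ, p.Prime → p ∉ S → ‖c l p‖ = 1 := by
    intro l p hp hpS
    rw [hc]
    simp only
    rw [norm_prod]
    refine Finset.prod_eq_one fun i _ => ?_
    rw [norm_zpow, chr_norm (χ i) (hcop p hp hpS), one_zpow]
  have hcongr : ∀ f ∈ MerG S, ∀ g : ℕ → ℕ → ℂ,
      (∀ p : ℕ, p.Prime → p ∉ S → ∀ n : ℕ, 1 ≤ n → f p n = g p n) → g ∈ MerG S :=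
    fun f hf g hg => MerG_congr hf hg
  have hE : ∀ l : Fin r → ℤ, ∀ (k : Fin s → ℕ) (m : Fin s → ℤ), (∀ i, k i ≤ 2 * J i) →
      ∏ i, EE (fun p => (α i p : ℂ)) (fun p => (β i p : ℂ)) (k i) (m i) ∈ twG (MerG S) (c l) := by
    intro l k m hk
    obtain ⟨M, hM1, hM2⟩ := hM k hk N ((∏ i, ω i ^ m i) * ∏ i, χ i ^ l i)
    rw [Finset.union_eq_left.2 hN] at hM2
    have hval : ∀ p : ℕ, p.Prime → p ∉ S → ((∏ i, ω i ^ m i) * ∏ i, χ i ^ l i) (p : ZMod N) =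
        c l p * ∏ i, ((α i p : ℂ) * β i p) ^ m i := by
      intro p hp hpS
      rw [MulChar.mul_apply, chi_prod χ l (hcop p hp hpS), chi_prod ω m (hcop p hp hpS), mul_comm]
      congr 1
      exact Finset.prod_congr rfl fun i _ => by rw [hω i p hp hpS]
    rw [mem_twG]
    refine MerG_of2 (Fintype.piFinset fun i => Finset.range (k i + 1)) hM1
      (b := fun p e => (c l p * ∏ i, ((α i p : ℂ) * β i p) ^ m i) *
      ∏ i, (α i p : ℂ) ^ (k i - e i) * (β i p : ℂ) ^ e i) (fun s hs => (hM2 s hs).congr fun X => ?_)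
      (fun p hp hpS e _ => ?_) fun p hp hpS n hn => ?_
    · refine Finset.prod_congr rfl fun p hp => Finset.prod_congr rfl fun i _ => ?_
      rw [Finset.mem_filter] at hp
      simp only [hval p hp.2.1 hp.2.2]
    · rw [norm_mul, norm_mul, hcn l p hp hpS, norm_prod, norm_prod]
      simp only [norm_mul, norm_zpow, norm_pow, hna _ p hp hpS, hnb _ p hp hpS, mul_one, one_zpow,
        one_pow, Finset.prod_const_one]
    · rw [trace_pi (fun i => (α i p : ℂ)) (fun i => (β i p : ℂ))]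
      rw [Finset.prod_apply, Finset.prod_apply, mul_pow, mul_assoc]
      congr 1
      rw [← Finset.prod_pow, ← Finset.prod_mul_distrib]
      refine Finset.prod_congr rfl fun i _ => ?_
      unfold EE
      congr 1
      rw [← mul_pow, ← zpow_natCast, ← zpow_natCast, ← zpow_mul, ← zpow_mul, mul_comm (m i)]
  have hcongr' : ∀ l, ∀ f ∈ twG (MerG S) (c l), ∀ g : ℕ → ℕ → ℂ,
      (∀ p : ℕ, p.Prime → p ∉ S → ∀ n : ℕ, 1 ≤ n → f p n = g p n) → g ∈ twG (MerG S) (c l) := by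
    intro l f hf g hg
    rw [mem_twG] at hf ⊢
    exact hcongr _ hf _ fun p hp hpS n hn => by
      rw [hg p hp hpS n hn]
  have hall := fun l => multi_all hR hV (twG (MerG S) (c l)) (hcongr' l) (hE l)
  -- the pieces
  set Bl : (Fin r → ℤ) → Finset (Fin s → ℤ × ℤ) := fun l =>
    (B.filter fun x => x.2 = l).image fun x => x.1 with hBl
  have hBlmem : ∀ l (y : Fin s → ℤ × ℤ), y ∈ Bl l ↔ (y, l) ∈ B := by
    intro l y
    simp only [hBl, Finset.mem_image, Finset.mem_filter]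
    constructor
    · rintro ⟨x, ⟨hx, rfl⟩, rfl⟩
      exact hx
    · intro h
      exact ⟨_, ⟨h, rfl⟩, rfl⟩
  have hwn : ∀ (y : Fin s → ℤ × ℤ) (p : ℕ), p.Prime → p ∉ S →
      ‖∏ i, (α i p : ℂ) ^ (y i).1 * (β i p : ℂ) ^ (y i).2‖ = 1 := by
    intro y p hp hpS
    rw [norm_prod]
    simp only [norm_mul, norm_zpow, hna _ p hp hpS, hnb _ p hp hpS, mul_one, one_zpow,
      Finset.prod_const_one]
  have hpiece : ∀ l, ∃ M : ℂ → ℂ, Meromorphic M ∧ ∀ w : ℂ, 1 < w.re → Tendsto (fun X : ℕ =>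
      ∏ p ∈ (Finset.range X).filter (fun p => p.Prime ∧ p ∉ S),
        ∏ y ∈ Bl l, ((1 - (c l p * ∏ i, (α i p : ℂ) ^ (y i).1 * (β i p : ℂ) ^ (y i).2) *
          (p : ℂ) ^ (-w)) ^ mu (y, l))⁻¹) atTop (𝓝 (M w)) := by
    intro l
    obtain ⟨-, M, hM1, hM2⟩ := (mem_twG.1 (multi_wt (fun i p _ _ => (α i p).ne_zero)
      (fun i p _ _ => (β i p).ne_zero) (twG (MerG S) (c l)) (hcongr' l) (hall l) (Bl l)
      (fun i y hy => by
        rw [hBlmem] at hy ⊢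
        exact hB i _ hy) (fun y => mu (y, l)) (fun i y => hmu i (y, l))) :)
    refine ⟨M, hM1, fun w hw => (hM2 w hw).congr fun X => ?_⟩
    refine Finset.prod_congr rfl fun p hp => ?_
    rw [Finset.mem_filter] at hp
    rw [exp_Lp (Bl l) (fun y => c l p * ∏ i, (α i p : ℂ) ^ (y i).1 * (β i p : ℂ) ^ (y i).2)
      (fun y => mu (y, l)) (fun y _ => by
        rw [norm_mul, hwn y p hp.2.1 hp.2.2, hcn l p hp.2.1 hp.2.2, mul_one]) hp.2.1 hw
      (fun n hn => ?_)]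
    simp only [Finset.sum_apply, nsmul_eq_mul, Pi.mul_apply, Pi.natCast_apply, Finset.prod_apply]
    rw [Finset.mul_sum]
    refine Finset.sum_congr rfl fun y _ => ?_
    rw [mul_pow]
    have h1 : (∏ i, (α i p : ℂ) ^ (y i).1 * (β i p : ℂ) ^ (y i).2) ^ n =
        ∏ i, wt (fun p => (α i p : ℂ)) (fun p => (β i p : ℂ)) (y i) p n := by
      rw [← Finset.prod_pow]
      refine Finset.prod_congr rfl fun i _ => ?_
      unfold wt
      have e1 : ((α i p : ℂ) ^ (y i).1) ^ n = ((α i p : ℂ) ^ n) ^ (y i).1 := by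
        rw [← zpow_natCast, ← zpow_natCast, ← zpow_mul, ← zpow_mul, mul_comm]
      have e2 : ((β i p : ℂ) ^ (y i).2) ^ n = ((β i p : ℂ) ^ n) ^ (y i).2 := by
        rw [← zpow_natCast, ← zpow_natCast, ← zpow_mul, ← zpow_mul, mul_comm]
      rw [mul_pow, e1, e2]
    rw [h1]
    ring
  choose Ml hMl1 hMl2 using hpiece
  set Ls : Finset (Fin r → ℤ) := B.image fun x => x.2 with hLs
  set d : (Fin r → ℤ) → ℂ := fun l => ∑ i, (l i : ℂ) * z i with hd
  refine ⟨1 + ∑ l ∈ Ls, |(d l).re|, fun w => ∏ l ∈ Ls, Ml l (w - d l), ?_, fun w hw => ?_⟩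
  · intro x
    refine MeromorphicAt.fun_prod fun l _ => ?_
    have h1 : AnalyticAt ℂ (fun s : ℂ => s - d l) x := by fun_prop
    exact MeromorphicAt.comp_analyticAt (f := Ml l) (g := fun s : ℂ => s - d l)
      (hMl1 l (x - d l)) h1
  · have hsl : ∀ l ∈ Ls, 1 < (w - d l).re := by
      intro l hl
      have h1 : |(d l).re| ≤ ∑ l ∈ Ls, |(d l).re| :=
        Finset.single_le_sum (f := fun l => |(d l).re|) (fun _ _ => abs_nonneg _) hl
      have h2 := le_abs_self (d l).re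
      rw [sub_re]
      linarith
    have hlim := tendsto_finsetProd Ls fun l hl => hMl2 l (w - d l) (hsl l hl)
    refine hlim.congr fun X => ?_
    rw [Finset.prod_comm]
    refine Finset.prod_congr rfl fun p hp => ?_
    rw [Finset.mem_filter] at hp
    have hp0 : (p : ℂ) ≠ 0 := by exact_mod_cast hp.2.1.ne_zero
    rw [← Finset.prod_fiberwise_of_maps_to (s := B) (t := Ls) (g := fun x => x.2)
        (fun x hx => Finset.mem_image_of_mem _ hx)]
    refine Finset.prod_congr rfl fun l _ => ?_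
    rw [hBl]
    simp only
    rw [Finset.prod_image]
    · refine Finset.prod_congr rfl fun x hx => ?_
      obtain ⟨-, hxl⟩ := Finset.mem_filter.1 hx
      rw [em_apply]
      have h1 : ∏ i, (t p i : ℂ) ^ x.2 i = c l p * (p : ℂ) ^ d l := by
        rw [hc, hd]
        simp only
        rw [cpow_sum_prod hp0, ← Finset.prod_mul_distrib]
        refine Finset.prod_congr rfl fun i _ => ?_
        rw [ht p hp.2.1 hp.2.2 i, mul_zpow, hxl]
        congr 1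
        rw [cpow_int_mul]
      have h2 : (p : ℂ) ^ (-(w - d l)) = (p : ℂ) ^ (-w) * (p : ℂ) ^ d l := by
        rw [← cpow_add _ _ hp0]
        congr 1
        ring
      simp only [h1, h2]
      rw [← hxl]
      congr 3
      ring
    · intro x hx y hy hxy
      have hx' := (Finset.mem_filter.1 hx).2
      have hy' := (Finset.mem_filter.1 hy).2
      exact Prod.ext hxy (hx'.trans hy'.symm)

end Pool.Agent.L7h29.GT
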