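import Pool.Agent.L7h29.GT.Pair

/-!
# Several forms
-/

set_option autoImplicit false

namespace Pool.Agent.L7h29.GT

open Filter Topology Complex Set

variable {S : Finset ℕ} {s : ℕ} {a b : Fin s → ℕ → ℂ}

/-- **all exponents** -/
theorem multi_all {V : Fin s → Finset ℝ} {J : Fin s → ℕ}
    (h : ∀ i, Ready S (a i) (b i) (insert (-2) (V i))) (hV : ∀ i, (V i).card ≤ J i)
    (G : AddSubgroup (ℕ → ℕ → ℂ))
    (hG : ∀ f ∈ G, ∀ g : ℕ → ℕ → ℂ,
      (∀ p : ℕ, p.Prime → p ∉ S → ∀ n : ℕ, 1 ≤ n → f p n = g p n) → g ∈ G)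
    (hE : ∀ (k : Fin s → ℕ) (m : Fin s → ℤ), (∀ i, k i ≤ 2 * J i) →
      ∏ i, EE (a i) (b i) (k i) (m i) ∈ G) (k : Fin s → ℕ) (m : Fin s → ℤ) :
    ∏ i, EE (a i) (b i) (k i) (m i) ∈ G := by
  classical
  have key : ∀ (T : Finset (Fin s)) (k : Fin s → ℕ) (m : Fin s → ℤ),
      (∀ i, i ∉ T → k i ≤ 2 * J i) → ∏ i, EE (a i) (b i) (k i) (m i) ∈ G := by
    intro T
    induction T using Finset.induction_on with
    | empty => exact fun k m hk => hE k m fun i => hk i (Finset.notMem_empty _)
    | insert c T _ ih =>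
      intro k m hk
      have h1 := (h c).all2 (hV c)
        (mulG G (∏ i ∈ Finset.univ.erase c, EE (a i) (b i) (k i) (m i))) (mulG_congr hG _)
        (fun k' hk' m' => by
          rw [mem_mulG]
          have h2 := ih (Function.update k c k') (Function.update m c m') (fun i hi => by
            by_cases hic : i = c
            · subst hic
              rw [Function.update_self]
              exact hk'
            · rw [Function.update_of_ne hic]
              exact hk i fun h => (Finset.mem_insert.1 h).elim hic hi)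
          rw [← Finset.mul_prod_erase _ _ (Finset.mem_univ c), Function.update_self,
            Function.update_self] at h2
          refine (congrArg (· ∈ G) ?_).mp h2
          congr 1
          refine Finset.prod_congr rfl fun i hi => ?_
          rw [Function.update_of_ne (Finset.ne_of_mem_erase hi),
            Function.update_of_ne (Finset.ne_of_mem_erase hi)]) (k c) (m c)
      rw [mem_mulG, Finset.mul_prod_erase _ (fun i => EE (a i) (b i) (k i) (m i))
        (Finset.mem_univ c)] at h1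
      exact h1
  exact key Finset.univ k m fun i hi => absurd (Finset.mem_univ i) hi

/-- the orbit of a weight of `GL_2` -/
def ob (y : ℤ × ℤ) : Finset (ℤ × ℤ) := {y, y.swap}

theorem mem_ob {x y : ℤ × ℤ} : x ∈ ob y ↔ x = y ∨ x = y.swap := by simp [ob]

theorem ob_mem {α β : ℕ → ℂ} (ha : ∀ p : ℕ, p.Prime → p ∉ S → α p ≠ 0)
    (hb : ∀ p : ℕ, p.Prime → p ∉ S → β p ≠ 0) (G : AddSubgroup (ℕ → ℕ → ℂ))
    (hG : ∀ f ∈ G, ∀ g : ℕ → ℕ → ℂ,
      (∀ p : ℕ, p.Prime → p ∉ S → ∀ n : ℕ, 1 ≤ n → f p n = g p n) → g ∈ G)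
    (hE : ∀ (k : ℕ) (m : ℤ), EE α β k m ∈ G) (x : ℤ × ℤ) : ∑ y ∈ ob x, wt α β y ∈ G := by
  have h1 := wt_mem ha hb G hG hE (ob x) (fun y hy => by
    rw [mem_ob] at hy ⊢
    rcases hy with rfl | rfl
    · exact Or.inr rfl
    · exact Or.inl (Prod.swap_swap _)) (fun _ => 1) fun _ => rfl
  simpa using h1

theorem multi_ob (ha : ∀ i, ∀ p : ℕ, p.Prime → p ∉ S → a i p ≠ 0)
    (hb : ∀ i, ∀ p : ℕ, p.Prime → p ∉ S → b i p ≠ 0) (G : AddSubgroup (ℕ → ℕ → ℂ))
    (hG : ∀ f ∈ G, ∀ g : ℕ → ℕ → ℂ,
      (∀ p : ℕ, p.Prime → p ∉ S → ∀ n : ℕ, 1 ≤ n → f p n = g p n) → g ∈ G)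
    (hE : ∀ (k : Fin s → ℕ) (m : Fin s → ℤ), ∏ i, EE (a i) (b i) (k i) (m i) ∈ G)
    (x : Fin s → ℤ × ℤ) : ∏ i, ∑ y ∈ ob (x i), wt (a i) (b i) y ∈ G := by
  classical
  have key : ∀ (T : Finset (Fin s)) (k : Fin s → ℕ) (m : Fin s → ℤ),
      ∏ i, (if i ∈ T then ∑ y ∈ ob (x i), wt (a i) (b i) y else EE (a i) (b i) (k i) (m i)) ∈
        G := by
    intro T
    induction T using Finset.induction_on with
    | empty =>
      intro k m
      simpa using hE k m
    | insert c T hc ih =>
      intro k m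
      have h1 := ob_mem (ha c) (hb c) (mulG G (∏ i ∈ Finset.univ.erase c,
        (if i ∈ T then ∑ y ∈ ob (x i), wt (a i) (b i) y else EE (a i) (b i) (k i) (m i))))
        (mulG_congr hG _) (fun k' m' => by
          rw [mem_mulG]
          have h2 := ih (Function.update k c k') (Function.update m c m')
          rw [← Finset.mul_prod_erase _ _ (Finset.mem_univ c), if_neg hc, Function.update_self,
            Function.update_self] at h2
          refine (congrArg (· ∈ G) ?_).mp h2
          congr 1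
          refine Finset.prod_congr rfl fun i hi => ?_
          rw [Function.update_of_ne (Finset.ne_of_mem_erase hi),
            Function.update_of_ne (Finset.ne_of_mem_erase hi)]) (x c)
      rw [mem_mulG] at h1
      rw [← Finset.mul_prod_erase _ _ (Finset.mem_univ c), if_pos (Finset.mem_insert_self _ _)]
      refine (congrArg (· ∈ G) ?_).mp h1
      congr 1
      refine Finset.prod_congr rfl fun i hi => ?_
      have h3 : (i ∈ insert c T) ↔ i ∈ T := by
        rw [Finset.mem_insert]
        exact ⟨fun h => h.resolve_left (Finset.ne_of_mem_erase hi), Or.inr⟩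
      simp only [h3]
  have h1 := key Finset.univ 0 0
  simpa using h1

/-- swapping one coordinate -/
def sw (i : Fin s) (x : Fin s → ℤ × ℤ) : Fin s → ℤ × ℤ := Function.update x i (x i).swap

/-- sorting all coordinates -/
def srt (x : Fin s → ℤ × ℤ) : Fin s → ℤ × ℤ := fun i =>
  if (x i).1 ≤ (x i).2 then x i else (x i).swap

theorem srt_ob (x : Fin s → ℤ × ℤ) (i : Fin s) : srt x i ∈ ob (x i) := by
  unfold srt
  rw [mem_ob]
  split_ifs
  · exact Or.inl rfl
  · exact Or.inr rfl

theorem srt_of {w v : ℤ × ℤ} (hw : w.1 ≤ w.2) (hv : v = w ∨ v = w.swap) :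
    (if v.1 ≤ v.2 then v else v.swap) = w := by
  obtain ⟨w1, w2⟩ := w
  rcases hv with rfl | rfl
  · exact if_pos hw
  · simp only [Prod.swap] at hw ⊢
    split_ifs with h
    · exact Prod.ext (le_antisymm h hw) (le_antisymm hw h)
    · rfl

theorem closed_ob {B : Finset (Fin s → ℤ × ℤ)} (hB : ∀ i, ∀ x ∈ B, sw i x ∈ B)
    {r : (Fin s → ℤ × ℤ) → ℕ} (hr : ∀ i x, r (sw i x) = r x) {x y : Fin s → ℤ × ℤ}
    (hy : ∀ i, y i ∈ ob (x i)) : (x ∈ B → y ∈ B) ∧ r y = r x := by
  classical
  have key : ∀ T : Finset (Fin s), (x ∈ B → (fun i => if i ∈ T then y i else x i) ∈ B) ∧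
      r (fun i => if i ∈ T then y i else x i) = r x := by
    intro T
    induction T using Finset.induction_on with
    | empty => simp
    | insert c T hc ih =>
      rcases mem_ob.1 (hy c) with h1 | h1
      · have h2 : (fun i => if i ∈ insert c T then y i else x i) =
            fun i => if i ∈ T then y i else x i := by
          funext i
          by_cases hic : i = c
          · subst hic
            simp [h1]
          · simp [Finset.mem_insert, hic]
        rw [h2]
        exact ih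
      · have h2 : (fun i => if i ∈ insert c T then y i else x i) =
            sw c fun i => if i ∈ T then y i else x i := by
          funext i
          by_cases hic : i = c
          · subst hic
            simp [sw, h1, hc]
          · simp [sw, Finset.mem_insert, hic]
        rw [h2]
        exact ⟨fun hx => hB c _ (ih.1 hx), (hr c _).trans ih.2⟩
  have h1 := key Finset.univ
  simpa using h1

/-- **symmetric combinations of weights** -/
theorem multi_wt (ha : ∀ i, ∀ p : ℕ, p.Prime → p ∉ S → a i p ≠ 0)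
    (hb : ∀ i, ∀ p : ℕ, p.Prime → p ∉ S → b i p ≠ 0) (G : AddSubgroup (ℕ → ℕ → ℂ))
    (hG : ∀ f ∈ G, ∀ g : ℕ → ℕ → ℂ,
      (∀ p : ℕ, p.Prime → p ∉ S → ∀ n : ℕ, 1 ≤ n → f p n = g p n) → g ∈ G)
    (hE : ∀ (k : Fin s → ℕ) (m : Fin s → ℤ), ∏ i, EE (a i) (b i) (k i) (m i) ∈ G)
    (B : Finset (Fin s → ℤ × ℤ)) (hB : ∀ i, ∀ x ∈ B, sw i x ∈ B)
    (r : (Fin s → ℤ × ℤ) → ℕ) (hr : ∀ i x, r (sw i x) = r x) :
    ∑ x ∈ B, r x • ∏ i, wt (a i) (b i) (x i) ∈ G := by
  classical
  set B' : Finset (Fin s → ℤ × ℤ) := B.image srt with hB'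
  rw [← Finset.sum_fiberwise_of_maps_to (s := B) (t := B') (g := srt)
    fun x hx => Finset.mem_image_of_mem _ hx]
  refine G.sum_mem fun x hx => ?_
  obtain ⟨x₀, hx₀, rfl⟩ := Finset.mem_image.1 hx
  have hs : ∀ i, (srt x₀ i).1 ≤ (srt x₀ i).2 := by
    intro i
    unfold srt
    split_ifs with h
    · exact h
    · simp only [Prod.fst_swap, Prod.snd_swap]
      exact (not_le.1 h).le
  have h1 := G.nsmul_mem (multi_ob ha hb G hG hE (srt x₀)) (r (srt x₀))
  refine (congrArg (· ∈ G) ?_).mp h1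
  rw [Finset.prod_univ_sum, Finset.smul_sum]
  have hset : B.filter (fun y => srt y = srt x₀) = Fintype.piFinset fun i => ob (srt x₀ i) := by
    ext y
    rw [Finset.mem_filter, Fintype.mem_piFinset]
    constructor
    · rintro ⟨-, hy⟩ i
      have h2 := srt_ob y i
      rw [hy, mem_ob] at h2
      rw [mem_ob]
      rcases h2 with h2 | h2
      · exact Or.inl h2.symm
      · exact Or.inr (by rw [h2, Prod.swap_swap])
    · intro hy
      refine ⟨(closed_ob hB hr hy).1 ((closed_ob hB hr (srt_ob x₀)).1 hx₀), ?_⟩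
      funext i
      exact srt_of (hs i) (mem_ob.1 (hy i))
  rw [← hset]
  refine Finset.sum_congr rfl fun y hy => ?_
  have hy' : ∀ i, y i ∈ ob (srt x₀ i) := by
    rw [hset, Fintype.mem_piFinset] at hy
    exact hy
  rw [(closed_ob hB hr hy').2]

end Pool.Agent.L7h29.GT
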