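import Pool.Agent.L7h29.GT.Two

/-!
# Pairs of forms
-/

set_option autoImplicit false

namespace Pool.Agent.L7h29.GT

open Filter Topology Complex Set Pool.Agent.N210.FV Pool.Agent.N210.FW Pool.Agent.N845.SP

open Polynomial in
/-- reduction of the characters away from `-2` -/
theorem red2 {S : Finset ℕ} {u : ℕ → ℂ} (hu : ∀ p : ℕ, p.Prime → p ∉ S → u p ≠ 0) (V : Finset ℝ)
    {J : ℕ} (hVJ : V.card ≤ J)
    (hcl : ∀ p : ℕ, p.Prime → p ∉ S → ∀ n : ℕ, 1 ≤ n →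
      ∃ v ∈ insert (-2) V, u p ^ n + (u p ^ n)⁻¹ = ((v : ℝ) : ℂ))
    (k : ℕ) : ∃ c : ℕ → ℤ, ∀ p : ℕ, p.Prime → p ∉ S → ∀ n : ℕ, 1 ≤ n → ∀ z : ℝ,
      u p ^ n + (u p ^ n)⁻¹ = (z : ℂ) →
      z = -2 ∨ xr k z = ∑ j ∈ Finset.range J, (c j : ℝ) * xr j z := by
  classical
  have hord : ∀ p : ℕ, p.Prime → p ∉ S → 0 < orderOf (u p) := fun p hp hpS =>
    (root_unity (hu p hp hpS) (hcl p hp hpS)).1
  set V' : Finset ℝ := (insert (-2) V).filter fun v => ∃ p n : ℕ, p.Prime ∧ p ∉ S ∧ 1 ≤ n ∧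
    u p ^ n + (u p ^ n)⁻¹ = (v : ℂ) with hV'
  have hmem : ∀ p : ℕ, p.Prime → p ∉ S → ∀ n : ℕ, 1 ≤ n →
      ∃ v ∈ V', u p ^ n + (u p ^ n)⁻¹ = (v : ℂ) := by
    intro p hp hpS n hn
    obtain ⟨v, hv, hv2⟩ := hcl p hp hpS n hn
    exact ⟨v, Finset.mem_filter.2 ⟨hv, p, n, hp, hpS, hn, hv2⟩, hv2⟩
  obtain ⟨Pz, hPm, hPd, hPe⟩ := int_rel (V := V') (by
    intro v hv
    obtain ⟨-, p, n, hp, hpS, hn, hv2⟩ := Finset.mem_filter.1 hv
    refine ⟨u p ^ n, orderOf (u p), hord p hp hpS, ?_, hv2, fun m hm => ?_⟩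
    · rw [← pow_mul, mul_comm, pow_mul, pow_orderOf_eq_one, one_pow]
    · obtain ⟨w, hw, hw2⟩ := hmem p hp hpS (n * m) (Nat.mul_pos hn hm)
      exact ⟨w, hw, by rw [← pow_mul]; exact hw2⟩)
  obtain ⟨Q, hQm, hQd, hQe⟩ : ∃ Q : ℤ[X], Q.Monic ∧ Q.natDegree ≤ J ∧
      ∀ z ∈ V', z ≠ -2 → aeval z Q = 0 := by
    by_cases h2 : (-2 : ℝ) ∈ V'
    · have h3 : (X - C (-2 : ℤ)) ∣ Pz := by
        rw [dvd_iff_isRoot, IsRoot.def]
        have h4 : aeval (-2 : ℝ) Pz = 0 := by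
          rw [hPe]
          exact Finset.prod_eq_zero h2 (sub_self _)
        have h5 : aeval (-2 : ℝ) Pz = ((eval (-2) Pz : ℤ) : ℝ) := by
          have := aeval_algebraMap_apply ℝ (-2 : ℤ) Pz
          simpa using this
        rw [h5] at h4
        exact_mod_cast h4
      obtain ⟨Q, hQ⟩ := h3
      have hQm : Q.Monic := (monic_X_sub_C (-2 : ℤ)).of_mul_monic_left (hQ ▸ hPm)
      refine ⟨Q, hQm, ?_, fun z hz hz2 => ?_⟩
      · have h6 : Pz.natDegree = 1 + Q.natDegree := by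
          rw [hQ, (monic_X_sub_C (-2 : ℤ)).natDegree_mul hQm, natDegree_X_sub_C]
        have h7 : V'.card ≤ J + 1 := ((Finset.card_filter_le _ _).trans
          (Finset.card_insert_le _ _)).trans (by omega)
        omega
      · have h4 : aeval z Pz = 0 := by
          rw [hPe]
          exact Finset.prod_eq_zero hz (sub_self _)
        rw [hQ, map_mul, map_sub, aeval_X, aeval_C] at h4
        rcases mul_eq_zero.1 h4 with h5 | h5
        · exfalso
          apply hz2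
          simp only [eq_intCast, Int.cast_neg, Int.cast_ofNat, sub_neg_eq_add] at h5
          linarith
        · exact h5
    · refine ⟨Pz, hPm, ?_, fun z hz _ => ?_⟩
      · rw [hPd]
        refine (Finset.card_le_card fun v hv => ?_).trans hVJ
        rcases Finset.mem_insert.1 (Finset.mem_filter.1 hv).1 with h3 | h3
        · exact absurd (h3 ▸ hv) h2
        · exact h3
      · rw [hPe]
        exact Finset.prod_eq_zero hz (sub_self _)
  obtain ⟨c, hc⟩ := char_rel hQm k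
  refine ⟨fun j => if j < Q.natDegree then c j else 0, fun p hp hpS n hn z hz => ?_⟩
  obtain ⟨v, hv, hv2⟩ := hmem p hp hpS n hn
  have h1 : z = v := by
    rw [hz] at hv2
    exact_mod_cast hv2
  subst h1
  by_cases h2 : z = -2
  · exact Or.inl h2
  refine Or.inr ?_
  rw [hc z (hQe z hv h2)]
  refine Finset.sum_subset_zero_on_sdiff (Finset.range_subset_range.2 hQd) (fun j hj => ?_)
    (fun j hj => ?_)
  · rw [Finset.mem_sdiff, Finset.mem_range, Finset.mem_range] at hj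
    simp [hj.2]
  · rw [Finset.mem_range] at hj
    simp [hj]

variable {S : Finset ℕ} {α β : ℕ → ℂ} {V : Finset ℝ}

/-- **all `k`** from `k ≤ 2 J` -/
theorem Ready.all2 (h : Ready S α β (insert (-2) V)) {J : ℕ} (hV : V.card ≤ J)
    (G : AddSubgroup (ℕ → ℕ → ℂ))
    (hG : ∀ f ∈ G, ∀ g : ℕ → ℕ → ℂ,
      (∀ p : ℕ, p.Prime → p ∉ S → ∀ n : ℕ, 1 ≤ n → f p n = g p n) → g ∈ G)
    (hE : ∀ k ≤ 2 * J, ∀ m : ℤ, EE α β k m ∈ G) (k : ℕ) (m : ℤ) : EE α β k m ∈ G := by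
  classical
  have hW : (insert (-2 : ℝ) V).card ≤ J + 1 := (Finset.card_insert_le _ _).trans (by omega)
  have hA0 : ∀ m : ℤ, Ax α β 0 m ∈ G := fun m => hG _ (hE 0 (by omega) m) _ fun p hp hpS n hn => by
    unfold EE Ax
    rw [hk_zero]
    simp [xr]
  have hA : ∀ j ≤ J, ∀ m : ℤ, Ax α β j m ∈ G := by
    intro j
    induction j with
    | zero => exact fun _ m => hA0 m
    | succ j ih =>
      intro hj m
      have h1 := G.sub_mem (hE (2 * j + 2) (by omega) (m - j - 1)) (ih (by omega) m)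
      refine hG _ h1 _ fun p hp hpS n hn => ?_
      have h2 := h.E_even j (m - j - 1) hp hpS hn
      simp only [Pi.sub_apply]
      rw [h2, show m - j - 1 + j + 1 = m by ring]
      ring
  have hB : ∀ j < J, ∀ m : ℤ, Bx α β j m ∈ G := by
    intro j hj m
    refine hG _ (hE (2 * j + 1) (by omega) (m - j)) _ fun p hp hpS n hn => ?_
    rw [h.E_odd j (m - j) hp hpS hn, sub_add_cancel]
  have hne : ∀ p : ℕ, p.Prime → p ∉ S → α p / β p ≠ 0 := fun p hp hpS =>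
    div_ne_zero (h.a0 p hp hpS) (h.b0 p hp hpS)
  have hred := red hne (insert (-2) V) h.cl
  have hred2 := red2 hne V hV h.cl
  have hA' : ∀ (j : ℕ) (m : ℤ), Ax α β j m ∈ G := by
    intro j m
    obtain ⟨c, hc⟩ := hred j
    have h1 : ∑ i ∈ Finset.range (insert (-2 : ℝ) V).card, c i • Ax α β i m ∈ G :=
      G.sum_mem fun i hi => G.zsmul_mem (hA i (by rw [Finset.mem_range] at hi; omega) m) _
    refine hG _ h1 _ fun p hp hpS n hn => ?_
    have h2 := hc p hp hpS n hn _ (h.zz hp hpS hn)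
    simp only [Finset.sum_apply, zsmul_eq_mul, Pi.mul_apply, Pi.intCast_apply]
    unfold Ax
    rw [h2]
    push_cast
    rw [Finset.mul_sum]
    refine Finset.sum_congr rfl fun i _ => ?_
    ring
  have hB' : ∀ (j : ℕ) (m : ℤ), Bx α β j m ∈ G := by
    intro j m
    obtain ⟨c, hc⟩ := hred2 j
    have h1 : ∑ i ∈ Finset.range J, c i • Bx α β i m ∈ G :=
      G.sum_mem fun i hi => G.zsmul_mem (hB i (Finset.mem_range.1 hi) m) _
    refine hG _ h1 _ fun p hp hpS n hn => ?_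
    simp only [Finset.sum_apply, zsmul_eq_mul, Pi.mul_apply, Pi.intCast_apply]
    unfold Bx
    rcases hc p hp hpS n hn _ (h.zz hp hpS hn) with h2 | h2
    · have h3 : α p ^ n + β p ^ n = 0 := by
        have h4 := h.sq hp hpS hn
        rw [h2] at h4
        push_cast at h4
        rw [show (-2 : ℂ) + 2 = 0 by ring, mul_zero] at h4
        exact pow_eq_zero_iff (by norm_num) |>.1 h4
      rw [h3]
      simp
    · rw [h2]
      push_cast
      rw [Finset.mul_sum]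
      refine Finset.sum_congr rfl fun i _ => ?_
      ring
  rcases Nat.eq_zero_or_pos k with h0 | h0
  · subst h0
    exact hE 0 (by omega) m
  rcases Nat.even_or_odd k with hk | hk
  · obtain ⟨j, rfl⟩ : ∃ j, k = 2 * j + 2 := by
      obtain ⟨i, hi⟩ := hk
      exact ⟨i - 1, by omega⟩
    exact hG _ (G.add_mem (hA' (j + 1) (m + j + 1)) (hA' j (m + j + 1))) _ fun p hp hpS n hn =>
      (h.E_even j m hp hpS hn).symm
  · obtain ⟨j, rfl⟩ := hk
    exact hG _ (hB' j (m + j)) _ fun p hp hpS n hn => (h.E_odd j m hp hpS hn).symm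

/-- multiplication by a fixed function -/
def mulG (G : AddSubgroup (ℕ → ℕ → ℂ)) (g : ℕ → ℕ → ℂ) : AddSubgroup (ℕ → ℕ → ℂ) :=
  G.comap (AddMonoidHom.mulRight g)

theorem mem_mulG {G : AddSubgroup (ℕ → ℕ → ℂ)} {g f : ℕ → ℕ → ℂ} : f ∈ mulG G g ↔ f * g ∈ G :=
  Iff.rfl

theorem mulG_congr {G : AddSubgroup (ℕ → ℕ → ℂ)}
    (hG : ∀ f ∈ G, ∀ g : ℕ → ℕ → ℂ,
      (∀ p : ℕ, p.Prime → p ∉ S → ∀ n : ℕ, 1 ≤ n → f p n = g p n) → g ∈ G) (k : ℕ → ℕ → ℂ) :
    ∀ f ∈ mulG G k, ∀ g : ℕ → ℕ → ℂ,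
      (∀ p : ℕ, p.Prime → p ∉ S → ∀ n : ℕ, 1 ≤ n → f p n = g p n) → g ∈ mulG G k := by
  intro f hf g hfg
  rw [mem_mulG] at hf ⊢
  refine hG _ hf _ fun p hp hpS n hn => ?_
  simp only [Pi.mul_apply]
  rw [hfg p hp hpS n hn]

variable {γ δ : ℕ → ℂ} {V' : Finset ℝ}

/-- **all pairs** -/
theorem pair_all (h : Ready S α β (insert (-2) V)) (h' : Ready S γ δ (insert (-2) V')) {J K : ℕ}
    (hV : V.card ≤ J) (hV' : V'.card ≤ K) (G : AddSubgroup (ℕ → ℕ → ℂ))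
    (hG : ∀ f ∈ G, ∀ g : ℕ → ℕ → ℂ,
      (∀ p : ℕ, p.Prime → p ∉ S → ∀ n : ℕ, 1 ≤ n → f p n = g p n) → g ∈ G)
    (hE : ∀ i ≤ 2 * J, ∀ j ≤ 2 * K, ∀ m l : ℤ, EE α β i m * EE γ δ j l ∈ G) (i j : ℕ) (m l : ℤ) :
    EE α β i m * EE γ δ j l ∈ G := by
  have h1 : ∀ j ≤ 2 * K, ∀ l : ℤ, ∀ i : ℕ, ∀ m : ℤ, EE α β i m * EE γ δ j l ∈ G := by
    intro j hj l
    exact h.all2 hV (mulG G (EE γ δ j l)) (mulG_congr hG _) fun i hi m => hE i hi j hj m l
  have h2 := h'.all2 hV' (mulG G (EE α β i m)) (mulG_congr hG _) (fun j hj l => by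
    rw [mem_mulG, mul_comm]
    exact h1 j hj l i m) j l
  rw [mem_mulG, mul_comm] at h2
  exact h2

/-- the function `γ^k + δ^k` -/
noncomputable def pw (γ δ : ℕ → ℂ) (k : ℕ) (p n : ℕ) : ℂ := (γ p ^ n) ^ k + (δ p ^ n) ^ k

theorem pw_mem (G : AddSubgroup (ℕ → ℕ → ℂ)) (f : ℕ → ℕ → ℂ)
    (hE : ∀ (j : ℕ) (l : ℤ), f * EE γ δ j l ∈ G) {k : ℕ} (hk : 0 < k) : f * pw γ δ k ∈ G := by
  rcases Nat.exists_eq_add_of_le' hk with ⟨l, rfl⟩
  rcases Nat.eq_zero_or_pos l with h0 | h0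
  · subst h0
    have : EE γ δ 1 0 = pw γ δ (0 + 1) := by
      funext p n
      simp [EE, pw, hk_one]
    rw [← this]
    exact hE 1 0
  · obtain ⟨l, rfl⟩ := Nat.exists_eq_add_of_le' h0
    have h1 : EE γ δ (l + 2) 0 - EE γ δ l 1 = pw γ δ (l + 1 + 1) := by
      funext p n
      simp only [Pi.sub_apply, EE, pw, zpow_zero, zpow_one, one_mul]
      rw [hk_diff]
    rw [← h1, mul_sub]
    exact G.sub_mem (hE _ _) (hE _ _)

/-- the weight `(i, j, k)` -/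
noncomputable def wt3 (α β γ : ℕ → ℂ) (x : ℤ × ℤ × ℤ) (p n : ℕ) : ℂ :=
  (α p ^ n) ^ x.1 * (β p ^ n) ^ x.2.1 * (γ p ^ n) ^ x.2.2

/-- symmetric combinations of weights of `GSp_4` -/
theorem wt3_mem (ha : ∀ p : ℕ, p.Prime → p ∉ S → α p ≠ 0) (hb : ∀ p : ℕ, p.Prime → p ∉ S → β p ≠ 0)
    (hc : ∀ p : ℕ, p.Prime → p ∉ S → γ p ≠ 0)
    (hd : ∀ p : ℕ, p.Prime → p ∉ S → α p * β p = γ p * δ p)
    (G : AddSubgroup (ℕ → ℕ → ℂ))
    (hG : ∀ f ∈ G, ∀ g : ℕ → ℕ → ℂ,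
      (∀ p : ℕ, p.Prime → p ∉ S → ∀ n : ℕ, 1 ≤ n → f p n = g p n) → g ∈ G)
    (hE : ∀ (i j : ℕ) (m l : ℤ), EE α β i m * EE γ δ j l ∈ G) (B : Finset (ℤ × ℤ × ℤ))
    (hB1 : ∀ x ∈ B, (x.2.1, x.1, x.2.2) ∈ B)
    (hB2 : ∀ x ∈ B, (x.1 + x.2.2, x.2.1 + x.2.2, -x.2.2) ∈ B)
    (r : ℤ × ℤ × ℤ → ℕ) (hr1 : ∀ x, r (x.2.1, x.1, x.2.2) = r x)
    (hr2 : ∀ x, r (x.1 + x.2.2, x.2.1 + x.2.2, -x.2.2) = r x) :
    ∑ x ∈ B, r x • wt3 α β γ x ∈ G := by
  classical
  set σ : ℤ × ℤ × ℤ → ℤ × ℤ × ℤ := fun x => (x.1 + x.2.2, x.2.1 + x.2.2, -x.2.2) with hσ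
  have hσσ : ∀ x, σ (σ x) = x := by
    rintro ⟨i, j, k⟩
    simp [hσ]
  -- fixed third coordinate
  have hfix : ∀ (k : ℤ) (g : ℕ → ℕ → ℂ), (∀ (i : ℕ) (m : ℤ), EE α β i m * g ∈ G) →
      ∑ x ∈ B.filter (fun x => x.2.2 = k), r x • (wt α β (x.1, x.2.1) * g) ∈ G := by
    intro k g hg
    set B' : Finset (ℤ × ℤ) := (B.filter (fun x => x.2.2 = k)).image fun x => (x.1, x.2.1) with hB'
    have h1 : ∑ y ∈ B', r (y.1, y.2, k) • wt α β y ∈ mulG G g := by
      refine wt_mem ha hb (mulG G g) (mulG_congr hG g) (fun i m => hg i m) B' (fun y hy => ?_)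
        (fun y => r (y.1, y.2, k)) (fun y => ?_)
      · obtain ⟨x, hx, rfl⟩ := Finset.mem_image.1 hy
        rw [Finset.mem_filter] at hx
        refine Finset.mem_image.2 ⟨(x.2.1, x.1, x.2.2), ?_, rfl⟩
        rw [Finset.mem_filter]
        exact ⟨hB1 x hx.1, hx.2⟩
      · exact hr1 (y.1, y.2, k)
    rw [mem_mulG, Finset.sum_mul, hB', Finset.sum_image] at h1
    · refine (congrArg (· ∈ G) ?_).mp h1
      refine Finset.sum_congr rfl fun x hx => ?_
      rw [Finset.mem_filter] at hx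
      rw [smul_mul_assoc, ← hx.2]
    · intro x hx y hy hxy
      rw [Finset.mem_coe, Finset.mem_filter] at hx hy
      simp only [Prod.mk.injEq] at hxy
      refine Prod.ext hxy.1 (Prod.ext hxy.2 ?_)
      rw [hx.2, hy.2]
  have hsplit : ∑ x ∈ B, r x • wt3 α β γ x =
      ∑ x ∈ B.filter (fun x => x.2.2 = 0), r x • wt3 α β γ x +
      ∑ x ∈ B.filter (fun x => 0 < x.2.2), r x • (wt3 α β γ x + wt3 α β γ (σ x)) := by
    have h1 := Finset.sum_filter_add_sum_filter_not B (fun x => x.2.2 = 0)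
      fun x => r x • wt3 α β γ x
    rw [← h1]
    congr 1
    have h2 := Finset.sum_filter_add_sum_filter_not (B.filter fun x => ¬ x.2.2 = 0)
      (fun x => 0 < x.2.2) fun x => r x • wt3 α β γ x
    rw [← h2]
    simp only [smul_add, Finset.sum_add_distrib]
    have e1 : (B.filter fun x => ¬ x.2.2 = 0).filter (fun x => 0 < x.2.2) =
        B.filter fun x => 0 < x.2.2 := by
      ext x
      simp only [Finset.mem_filter]
      constructor
      · rintro ⟨⟨h3, -⟩, h4⟩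
        exact ⟨h3, h4⟩
      · rintro ⟨h3, h4⟩
        exact ⟨⟨h3, h4.ne'⟩, h4⟩
    rw [e1]
    congr 1
    refine Finset.sum_nbij' σ σ ?_ ?_ ?_ ?_ ?_
    · intro x hx
      simp only [Finset.mem_filter] at hx ⊢
      refine ⟨hB2 x hx.1.1, ?_⟩
      simp only [hσ]
      omega
    · intro x hx
      simp only [Finset.mem_filter] at hx ⊢
      refine ⟨⟨hB2 x hx.1, ?_⟩, ?_⟩
      · simp only [hσ]
        omega
      · simp only [hσ]
        omega
    · intro x _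
      exact hσσ x
    · intro x _
      exact hσσ x
    · intro x _
      rw [hσσ]
      congr 1
      exact (hr2 x).symm
  rw [hsplit]
  refine G.add_mem ?_ ?_
  · have h1 := hfix 0 (EE γ δ 0 0) fun i m => hE i 0 m 0
    refine (congrArg (· ∈ G) ?_).mp h1
    refine Finset.sum_congr rfl fun x hx => ?_
    rw [Finset.mem_filter] at hx
    congr 1
    funext p n
    simp only [Pi.mul_apply, wt, wt3, EE, hx.2, hk_zero, zpow_zero, mul_one]
  · -- group by the third coordinate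
    rw [← Finset.sum_fiberwise_of_maps_to (s := B.filter fun x => 0 < x.2.2)
      (t := (B.filter fun x => 0 < x.2.2).image fun x => x.2.2) (g := fun x => x.2.2)
      (fun x hx => Finset.mem_image_of_mem _ hx)]
    refine G.sum_mem fun k hk => ?_
    have hk0 : 0 < k := by
      obtain ⟨x, hx, rfl⟩ := Finset.mem_image.1 hk
      exact (Finset.mem_filter.1 hx).2
    obtain ⟨l, rfl⟩ := Int.eq_ofNat_of_zero_le hk0.le
    have hl : 0 < l := by exact_mod_cast hk0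
    have h1 := hfix l (pw γ δ l) fun i m => pw_mem G _ (fun j l => hE i j m l) hl
    have e1 : (B.filter fun x => 0 < x.2.2).filter (fun x => x.2.2 = (l : ℤ)) =
        B.filter fun x => x.2.2 = (l : ℤ) := by
      ext x
      simp only [Finset.mem_filter]
      constructor
      · rintro ⟨⟨h3, -⟩, h4⟩
        exact ⟨h3, h4⟩
      · rintro ⟨h3, h4⟩
        exact ⟨⟨h3, h4 ▸ hk0⟩, h4⟩
    rw [e1]
    refine hG _ h1 _ fun p hp hpS n hn => ?_
    simp only [Finset.sum_apply, nsmul_eq_mul, Pi.mul_apply, Pi.natCast_apply, Pi.add_apply]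
    refine Finset.sum_congr rfl fun x hx => ?_
    rw [Finset.mem_filter] at hx
    congr 1
    have h1 : α p ^ n ≠ 0 := pow_ne_zero n (ha p hp hpS)
    have h2 : β p ^ n ≠ 0 := pow_ne_zero n (hb p hp hpS)
    have h3 : γ p ^ n ≠ 0 := pow_ne_zero n (hc p hp hpS)
    have h4 : α p ^ n * β p ^ n = γ p ^ n * δ p ^ n := by
      rw [← mul_pow, ← mul_pow, hd p hp hpS]
    have h5 : (α p ^ n) ^ l * (β p ^ n) ^ l = (γ p ^ n) ^ l * (δ p ^ n) ^ l := by
      rw [← mul_pow (α p ^ n), h4, mul_pow]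
    have h6 : (γ p ^ n) ^ l ≠ 0 := pow_ne_zero l h3
    simp only [wt, wt3, pw, hσ, hx.2]
    rw [zpow_add₀ h1, zpow_add₀ h2, zpow_neg, zpow_natCast, zpow_natCast, zpow_natCast]
    generalize (α p ^ n) ^ x.1 = A at *
    generalize (β p ^ n) ^ x.2.1 = B at *
    generalize (α p ^ n) ^ l = a at *
    generalize (β p ^ n) ^ l = b at *
    generalize (γ p ^ n) ^ l = c at *
    generalize (δ p ^ n) ^ l = d at *
    have h7 : c * c⁻¹ = 1 := mul_inv_cancel₀ h6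
    linear_combination (-A * B * d) * h7 + (-A * B * c⁻¹) * h5

end Pool.Agent.L7h29.GT
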