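import Pool.Agent.L7h29.GT.Dual

/-!
# Relations between twisted symmetric powers
-/

set_option autoImplicit false

namespace Pool.Agent.L7h29.GT

open Filter Topology Complex Set Pool.Agent.N210.FV Pool.Agent.N210.FW Pool.Agent.N845.SP

/-- complete homogeneous polynomials in two variables -/
noncomputable def hk (k : ℕ) (u v : ℂ) : ℂ := ∑ i ∈ Finset.range (k + 1), u ^ (k - i) * v ^ i

theorem hk_zero (u v : ℂ) : hk 0 u v = 1 := by simp [hk]

theorem hk_one (u v : ℂ) : hk 1 u v = u + v := by simp [hk, Finset.sum_range_succ]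

theorem hk_succ (k : ℕ) (u v : ℂ) : hk (k + 1) u v = u * hk k u v + v ^ (k + 1) := by
  unfold hk
  rw [Finset.sum_range_succ, Finset.mul_sum]
  congr 1
  · refine Finset.sum_congr rfl fun i hi => ?_
    rw [Finset.mem_range] at hi
    rw [show k + 1 - i = (k - i) + 1 by omega, pow_succ]
    ring
  · simp

theorem hk_rec (k : ℕ) (u v : ℂ) : hk (k + 2) u v = (u + v) * hk (k + 1) u v - u * v * hk k u v := by
  rw [hk_succ (k + 1), hk_succ k]
  ring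

theorem hk_xr {u v : ℂ} {y : ℝ} (h : (u + v) ^ 2 = u * v * (y + 2)) (j : ℕ) :
    hk (2 * j + 1) u v = (u + v) * (u * v) ^ j * (xr j y : ℂ) ∧
      hk (2 * j + 2) u v = (u * v) ^ (j + 1) * ((xr (j + 1) y : ℂ) + (xr j y : ℂ)) := by
  induction j with
  | zero =>
    refine ⟨by simp [hk_one, xr], ?_⟩
    rw [show 2 * 0 + 2 = 0 + 2 by ring, hk_rec, hk_zero, hk_one]
    simp only [xr, zero_add, pow_one, Complex.ofReal_one]
    linear_combination h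
  | succ j ih =>
    obtain ⟨h1, h2⟩ := ih
    have h3 : hk (2 * (j + 1) + 1) u v = (u + v) * (u * v) ^ (j + 1) * (xr (j + 1) y : ℂ) := by
      rw [show 2 * (j + 1) + 1 = (2 * j + 1) + 2 by ring, hk_rec,
        show 2 * j + 1 + 1 = 2 * j + 2 by ring, h1, h2]
      ring
    refine ⟨h3, ?_⟩
    rw [show 2 * (j + 1) + 2 = (2 * j + 2) + 2 by ring, hk_rec,
      show 2 * j + 2 + 1 = 2 * (j + 1) + 1 by ring, h3, h2]
    have e : (xr (j + 1 + 1) y : ℂ) = y * xr (j + 1) y - xr j y := by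
      rw [show j + 1 + 1 = j + 2 by ring, xr]
      push_cast
      ring
    rw [e]
    linear_combination ((u * v) ^ (j + 1) * (xr (j + 1) y : ℂ)) * h

/-- the local parameters of `Sym^k π ⊗ c` -/
noncomputable def sb (α β c : ℕ → ℂ) (k p i : ℕ) : ℂ := c p * (α p ^ (k - i) * β p ^ i)

theorem sb_sum (α β c : ℕ → ℂ) (k p n : ℕ) :
    ∑ i ∈ Finset.range (k + 1), sb α β c k p i ^ n = c p ^ n * hk k (α p ^ n) (β p ^ n) := by
  unfold hk sb
  rw [Finset.mul_sum]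
  refine Finset.sum_congr rfl fun i _ => ?_
  rw [mul_pow, mul_pow, ← pow_mul, ← pow_mul, ← pow_mul, ← pow_mul, mul_comm n, mul_comm n]

theorem sb_sum_inv (α β c : ℕ → ℂ) (k p n : ℕ) :
    ∑ i ∈ Finset.range (k + 1), (sb α β c k p i)⁻¹ ^ n =
      (c p ^ n)⁻¹ * hk k (α p ^ n)⁻¹ (β p ^ n)⁻¹ := by
  unfold hk sb
  rw [Finset.mul_sum]
  refine Finset.sum_congr rfl fun i _ => ?_
  rw [mul_inv, mul_inv, mul_pow, mul_pow, inv_pow, inv_pow, inv_pow, inv_pow, inv_pow, ← pow_mul,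
    ← pow_mul, ← pow_mul, ← pow_mul, mul_comm n, mul_comm n]

theorem quad_bd {u v : ℂ} (h : ‖u * v‖ = 1) : ‖u‖ ≤ 1 + ‖u + v‖ := by
  rcases le_total ‖u‖ 1 with h1 | h1
  · linarith [norm_nonneg (u + v)]
  · have h3 : ‖v‖ ≤ 1 := by
      rw [norm_mul] at h
      by_contra hcon
      push Not at hcon
      nlinarith [norm_nonneg u]
    have h4 : ‖u‖ ≤ ‖u + v‖ + ‖v‖ := by
      have := norm_sub_le (u + v) v
      rwa [add_sub_cancel_right] at this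
    linarith

/-- the trace at infinity of the doubled twist `χ (αβ)^{-j}` -/
theorem tw_sum {u v c : ℂ} (hu : u ≠ 0) (hv : v ≠ 0) {y : ℝ}
    (h : (u + v) ^ 2 = u * v * (y + 2)) (j : ℕ) :
    c * ((u * v) ^ j)⁻¹ * hk (2 * j + 1) u v + (c * ((u * v) ^ j)⁻¹)⁻¹ * hk (2 * j + 1) u⁻¹ v⁻¹ =
      (c + c⁻¹ * (u * v)⁻¹) * (u + v) * (xr j y : ℂ) := by
  have huv : (u * v) ^ j ≠ 0 := pow_ne_zero _ (mul_ne_zero hu hv)
  have h' : (u⁻¹ + v⁻¹) ^ 2 = u⁻¹ * v⁻¹ * (y + 2) := by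
    field_simp
    linear_combination h
  rw [(hk_xr h j).1, (hk_xr h' j).1]
  have e1 : u⁻¹ * v⁻¹ = (u * v)⁻¹ := (mul_inv u v).symm
  have e2 : u⁻¹ + v⁻¹ = (u + v) * (u * v)⁻¹ := by
    field_simp
    ring
  rw [e1, e2, mul_inv, inv_inv, inv_pow]
  have e3 : ((u * v) ^ j)⁻¹ * (u * v) ^ j = 1 := inv_mul_cancel₀ huv
  linear_combination (c * (u + v) * (xr j y : ℂ) + c⁻¹ * (u + v) * (u * v)⁻¹ * (xr j y : ℂ)) * e3

/-- **few values**: the relation at all powers at all unramified primes -/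
theorem rel_tw {S : Finset ℕ} {α β χ : ℕ → ℂ} {J : ℕ} {N D N' D' : ℕ → ℂ → ℂ}
    (hα : ∀ p : ℕ, p.Prime → p ∉ S → α p ≠ 0) (hβ : ∀ p : ℕ, p.Prime → p ∉ S → β p ≠ 0)
    (hαβ : ∀ p : ℕ, p.Prime → p ∉ S → ‖α p * β p‖ = 1)
    (hχ : ∀ p : ℕ, p.Prime → p ∉ S → ‖χ p‖ = 1) {y : ℕ → ℝ}
    (hy : ∀ p : ℕ, p.Prime → p ∉ S → (α p + β p) ^ 2 = α p * β p * (y p + 2))
    (hL : ∀ j ≤ J, DL S (2 * j + 2) (sb α β (fun p => χ p * ((α p * β p) ^ j)⁻¹) (2 * j + 1))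
      (N j) (D j) (N' j) (D' j))
    (T : Finset ℕ) (V : Finset ℝ) (hV : V.card ≤ J)
    (hT : ∀ p : ℕ, p.Prime → p ∉ T → α p + β p = 0 ∨ y p ∈ V) {p : ℕ} (hp : p.Prime) (hpS : p ∉ S)
    {n : ℕ} (hn : 1 ≤ n) {z : ℝ}
    (hz : (α p ^ n + β p ^ n) ^ 2 = α p ^ n * β p ^ n * (z + 2)) :
    (χ p ^ n + (χ p ^ n)⁻¹ * (α p ^ n * β p ^ n)⁻¹) * (α p ^ n + β p ^ n) *
      ((∏ v ∈ V, (z - v) : ℝ) : ℂ) = 0 := by
  classical
  obtain ⟨c, hc⟩ := rel_poly V hV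
  -- bounds
  set B₀ : ℝ := 2 + ∑ v ∈ V, |v| with hB₀
  have hs0 : 0 ≤ ∑ v ∈ V, |v| := Finset.sum_nonneg fun v _ => abs_nonneg _
  set r₀ : ℝ := 1 + B₀ with hr₀
  have hr1 : 1 ≤ r₀ := by linarith
  set ρ : ℝ := r₀ ^ (2 * J + 1) with hρ
  have hρ1 : 1 ≤ ρ := one_le_pow₀ hr1
  obtain ⟨B, hB⟩ := exists_nat_ge (4 * ρ ^ 2)
  set S' : Finset ℕ := S ∪ T ∪ Finset.range B with hS'
  have hSS : S ⊆ S' := fun p hp => Finset.mem_union_left _ (Finset.mem_union_left _ hp)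
  have hnS : ∀ p : PS S', (p : ℕ) ∉ S := fun p hp => p.2.2 (hSS hp)
  have hnT : ∀ p : PS S', (p : ℕ) ∉ T := fun p hp =>
    p.2.2 (Finset.mem_union_left _ (Finset.mem_union_right _ hp))
  have hpB : ∀ p : PS S', B ≤ (p : ℕ) := by
    intro p
    by_contra h1
    push Not at h1
    exact p.2.2 (Finset.mem_union_right _ (Finset.mem_range.2 h1))
  have hab : ∀ p : PS S', ‖α p + β p‖ ≤ B₀ := by
    intro p
    rcases hT p p.2.1 (hnT p) with h1 | h1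
    · rw [h1, norm_zero]
      linarith
    · have h2 := congrArg norm (hy p p.2.1 (hnS p))
      rw [norm_pow, norm_mul, hαβ p p.2.1 (hnS p), one_mul] at h2
      have h3 : ‖((y p : ℂ) + 2)‖ ≤ B₀ := by
        have h4 : |y p| ≤ ∑ v ∈ V, |v| :=
          Finset.single_le_sum (f := fun v => |v|) (fun v _ => abs_nonneg _) h1
        refine (norm_add_le _ _).trans ?_
        rw [Complex.norm_real, Real.norm_eq_abs, Complex.norm_ofNat]
        linarith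
      have h5 : 0 ≤ ‖α p + β p‖ := norm_nonneg _
      by_contra hcon
      push Not at hcon
      nlinarith
  have ha : ∀ p : PS S', ‖α p‖ ≤ r₀ := fun p =>
    (quad_bd (hαβ p p.2.1 (hnS p))).trans (by linarith [hab p])
  have hb : ∀ p : PS S', ‖β p‖ ≤ r₀ := fun p => by
    have h1 : ‖β p * α p‖ = 1 := by rw [mul_comm]; exact hαβ p p.2.1 (hnS p)
    have h2 := quad_bd h1
    rw [add_comm (β p)] at h2
    linarith [hab p]
  have ha' : ∀ p : PS S', ‖(α p)⁻¹‖ ≤ r₀ := fun p => by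
    have h1 : (α p)⁻¹ = β p * (α p * β p)⁻¹ := by
      have h2 := hα p p.2.1 (hnS p)
      have h3 := hβ p p.2.1 (hnS p)
      field_simp
    rw [h1, norm_mul, norm_inv, hαβ p p.2.1 (hnS p), inv_one, mul_one]
    exact hb p
  have hb' : ∀ p : PS S', ‖(β p)⁻¹‖ ≤ r₀ := fun p => by
    have h1 : (β p)⁻¹ = α p * (α p * β p)⁻¹ := by
      have h2 := hα p p.2.1 (hnS p)
      have h3 := hβ p p.2.1 (hnS p)
      field_simp
    rw [h1, norm_mul, norm_inv, hαβ p p.2.1 (hnS p), inv_one, mul_one]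
    exact ha p
  have hc1 : ∀ (p : PS S') (j : ℕ), ‖χ p * ((α p * β p) ^ j)⁻¹‖ = 1 := fun p j => by
    rw [norm_mul, norm_inv, norm_pow, hαβ p p.2.1 (hnS p), hχ p p.2.1 (hnS p)]
    simp
  have hsb : ∀ j ≤ J, ∀ p : PS S', ∀ i ∈ Finset.range ((2 * j + 2) + (2 * j + 2)),
      ‖dbl (2 * j + 2) (sb α β (fun p => χ p * ((α p * β p) ^ j)⁻¹) (2 * j + 1)) p i‖ ≤ ρ := by
    intro j hj p i hi
    rw [Finset.mem_range] at hi
    have key : ∀ i, i < 2 * j + 2 → ∀ a b : ℝ, 0 ≤ a → 0 ≤ b → a ≤ r₀ → b ≤ r₀ →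
        a ^ (2 * j + 1 - i) * b ^ i ≤ ρ := by
      intro i hi a b ha0 hb0 ha1 hb1
      calc a ^ (2 * j + 1 - i) * b ^ i ≤ r₀ ^ (2 * j + 1 - i) * r₀ ^ i := by gcongr
        _ = r₀ ^ (2 * j + 1) := by rw [← pow_add]; congr 1; omega
        _ ≤ ρ := pow_le_pow_right₀ hr1 (by omega)
    rcases lt_or_ge i (2 * j + 2) with h1 | h1
    · rw [dbl_lt h1]
      unfold sb
      rw [norm_mul, hc1, one_mul, norm_mul, norm_pow, norm_pow]
      exact key i h1 _ _ (norm_nonneg _) (norm_nonneg _) (ha p) (hb p)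
    · obtain ⟨i', rfl⟩ := Nat.exists_eq_add_of_le h1
      rw [dbl_add]
      unfold sb
      rw [norm_inv, norm_mul, hc1, one_mul, norm_mul, norm_pow, norm_pow, mul_inv, ← inv_pow,
        ← inv_pow, ← norm_inv, ← norm_inv]
      exact key i' (by omega) _ _ (norm_nonneg _) (norm_nonneg _) (ha' p) (hb' p)
  have hLG : ∀ j : Fin (J + 1), ∃ μ : List ℂ,
      LG S (Finset.range ((2 * (j : ℕ) + 2) + (2 * (j : ℕ) + 2)))
        (dbl (2 * (j : ℕ) + 2) (sb α β (fun p => χ p * ((α p * β p) ^ (j : ℕ))⁻¹) (2 * (j : ℕ) + 1)))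
        μ (fun s => N j s * N' j s) (fun s => D j s * D' j s) := fun j =>
    (hL j (by omega)).toLG
  choose μ hμ using hLG
  have htr : ∀ (q : ℕ) (m : ℕ), q.Prime → q ∉ S → ∀ w : ℝ,
      (α q ^ m + β q ^ m) ^ 2 = α q ^ m * β q ^ m * (w + 2) → ∀ j : ℕ,
      ps (Finset.range ((2 * j + 2) + (2 * j + 2)))
        (dbl (2 * j + 2) (sb α β (fun p => χ p * ((α p * β p) ^ j)⁻¹) (2 * j + 1))) q m =
      (χ q ^ m + (χ q ^ m)⁻¹ * (α q ^ m * β q ^ m)⁻¹) * (α q ^ m + β q ^ m) * (xr j w : ℂ) := by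
    intro q m hq hqS w hw j
    rw [dbl_ps, show 2 * j + 2 = (2 * j + 1) + 1 by ring, sb_sum, sb_sum_inv]
    rw [← tw_sum (c := χ q ^ m) (pow_ne_zero m (hα q hq hqS)) (pow_ne_zero m (hβ q hq hqS)) hw j]
    have e : (χ q * ((α q * β q) ^ j)⁻¹) ^ m = χ q ^ m * ((α q ^ m * β q ^ m) ^ j)⁻¹ := by
      rw [mul_pow, inv_pow, ← pow_mul, mul_comm j m, pow_mul, mul_pow (α q) (β q) m]
    rw [e]
  obtain ⟨h1, -⟩ := rel_all (J := Fin (J + 1)) (S := S) (S₁ := S')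
    (Ix := fun j => Finset.range ((2 * (j : ℕ) + 2) + (2 * (j : ℕ) + 2)))
    (β := fun j => dbl (2 * (j : ℕ) + 2)
      (sb α β (fun p => χ p * ((α p * β p) ^ (j : ℕ))⁻¹) (2 * (j : ℕ) + 1)))
    (μ := μ) (N := fun j => fun s => N j s * N' j s) (D := fun j => fun s => D j s * D' j s)
    (c := fun j => c j) (M := ((2 * J + 2) + (2 * J + 2) : ℕ)) (ρ := ρ) hμ hSS
    (fun j => bnd_of (by
      rw [Finset.card_range]
      have := j.2
      exact_mod_cast (by omega : 2 * (j : ℕ) + 2 + (2 * (j : ℕ) + 2) ≤ 2 * J + 2 + (2 * J + 2)))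
      hρ1 (hsb j (by omega)) fun p => hB.trans (by exact_mod_cast hpB p))
    (fun j p i hi => hsb j (by omega) p i hi)
    (fun p => by
      have h2 : (α p ^ 1 + β p ^ 1) ^ 2 = α p ^ 1 * β p ^ 1 * (y p + 2) := by
        rw [pow_one, pow_one]
        exact hy p p.2.1 (hnS p)
      have h3 : ∀ j : Fin (J + 1), (c j : ℂ) * ps (Finset.range ((2 * (j : ℕ) + 2) + (2 * (j : ℕ) + 2)))
          (dbl (2 * (j : ℕ) + 2) (sb α β (fun p => χ p * ((α p * β p) ^ (j : ℕ))⁻¹)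
            (2 * (j : ℕ) + 1))) p 1 =
          (χ p ^ 1 + (χ p ^ 1)⁻¹ * (α p ^ 1 * β p ^ 1)⁻¹) * (α p ^ 1 + β p ^ 1) *
            ((c j : ℂ) * (xr j (y p) : ℂ)) := by
        intro j
        rw [htr p 1 p.2.1 (hnS p) (y p) h2 j]
        ring
      simp only [h3]
      rw [← Finset.mul_sum]
      rcases hT p p.2.1 (hnT p) with h4 | h4
      · rw [pow_one, pow_one, pow_one, h4]
        ring
      · have h5 := hc (y p)
        rw [Finset.prod_eq_zero h4 (sub_self _), ← Fin.sum_univ_eq_sum_range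
          (fun j => c j * xr j (y p))] at h5
        have h6 : ∑ j : Fin (J + 1), (c j : ℂ) * (xr j (y p) : ℂ) = 0 := by
          exact_mod_cast h5.symm
        rw [h6, mul_zero])
    (fun j p _ _ x _ => dbl_sym p x)
  have h2 := h1 p hp hpS (n - 1)
  rw [Nat.sub_add_cancel hn] at h2
  have h3 : ∀ j : Fin (J + 1), (c j : ℂ) * ps (Finset.range ((2 * (j : ℕ) + 2) + (2 * (j : ℕ) + 2)))
      (dbl (2 * (j : ℕ) + 2) (sb α β (fun p => χ p * ((α p * β p) ^ (j : ℕ))⁻¹)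
        (2 * (j : ℕ) + 1))) p n =
      (χ p ^ n + (χ p ^ n)⁻¹ * (α p ^ n * β p ^ n)⁻¹) * (α p ^ n + β p ^ n) *
        ((c j : ℂ) * (xr j z : ℂ)) := by
    intro j
    rw [htr p n hp hpS z hz j]
    ring
  simp only [h3] at h2
  rw [← Finset.mul_sum] at h2
  have h4 : ((∏ v ∈ V, (z - v) : ℝ) : ℂ) = ∑ j : Fin (J + 1), (c j : ℂ) * (xr j z : ℂ) := by
    rw [hc z, ← Fin.sum_univ_eq_sum_range (fun j => c j * xr j z)]
    push_cast
    rfl
  rw [h4]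
  exact h2

end Pool.Agent.L7h29.GT
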