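import Pool.Agent.L7h29.GT.Mle
import Pool.Agent.L7h29.GT.Gen

/-!
# Weights of representations of subgroups of `GL_2^s × GL_1^r` that contain `SL_2^s`
-/

set_option autoImplicit false

namespace Pool.Agent.L7h29.GT

open Matrix

variable {s r : ℕ}

theorem sw_sw (i : Fin s) (x : Fin s → ℤ × ℤ) : sw i (sw i x) = x := by
  unfold sw
  rw [Function.update_self, Prod.swap_swap, Function.update_idem, Function.update_eq_self]

/-- swapping the `i`-th pair -/
def swL (i : Fin s) : LM s r →+ LM s r where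
  toFun x := (sw i x.1, x.2)
  map_zero' := by
    refine Prod.ext ?_ rfl
    funext j
    by_cases h : j = i
    · subst h
      simp [sw]
    · simp [sw, h]
  map_add' x y := by
    refine Prod.ext ?_ rfl
    funext j
    by_cases h : j = i
    · subst h
      simp [sw]
    · simp [sw, h]

theorem swL_apply (i : Fin s) (x : LM s r) : swL i x = (sw i x.1, x.2) := rfl

/-- swapping the `i`-th pair in the torus -/
def swT (i : Fin s) (g : TM s r) : TM s r := (Function.update g.1 i (g.1 i).swap, g.2)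

theorem em_sw (i : Fin s) (x : LM s r) (g : TM s r) : em (swL i x) g = em x (swT i g) := by
  rw [em_apply, em_apply]
  congr 1
  refine Finset.prod_congr rfl fun j _ => ?_
  by_cases h : j = i
  · subst h
    simp only [swL_apply, sw, swT, Function.update_self, Prod.fst_swap, Prod.snd_swap]
    ring
  · simp only [swL_apply, sw, swT, Function.update_of_ne h]

theorem em_ne {x : LM s r} {g : TM s r} : em x g ≠ 0 := by
  rw [em_apply]
  refine mul_ne_zero (Finset.prod_ne_zero_iff.2 fun i _ => mul_ne_zero ?_ ?_)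
    (Finset.prod_ne_zero_iff.2 fun i _ => ?_)
  · exact zpow_ne_zero _ (Units.ne_zero _)
  · exact zpow_ne_zero _ (Units.ne_zero _)
  · exact zpow_ne_zero _ (Units.ne_zero _)

/-- characters trivial on a subgroup -/
def RR (T : Subgroup (TM s r)) : AddSubgroup (LM s r) where
  carrier := {x | ∀ g ∈ T, em x g = 1}
  zero_mem' g _ := em_zero g
  add_mem' {x y} hx hy g hg := by
    rw [em_add, hx g hg, hy g hg, one_mul]
  neg_mem' {x} hx g hg := by
    have h1 := em_add x (-x) g
    rw [add_neg_cancel, em_zero, hx g hg, one_mul] at h1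
    exact h1.symm

/-- the span of the roots, saturated -/
def Rt : AddSubgroup (LM s r) where
  carrier := {x | x.2 = 0 ∧ ∀ i, (x.1 i).1 + (x.1 i).2 = 0}
  zero_mem' := by simp
  add_mem' {x y} hx hy := by
    refine ⟨by rw [Prod.snd_add, hx.1, hy.1, add_zero], fun i => ?_⟩
    have h1 := hx.2 i
    have h2 := hy.2 i
    simp only [Prod.fst_add, Pi.add_apply, Prod.snd_add]
    linarith
  neg_mem' {x} hx := by
    refine ⟨by rw [Prod.snd_neg, hx.1, neg_zero], fun i => ?_⟩
    have h1 := hx.2 i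
    simp only [Prod.fst_neg, Pi.neg_apply, Prod.snd_neg]
    linarith

theorem sw_sub_mem (i : Fin s) (x : LM s r) : swL i x - x ∈ (Rt : AddSubgroup (LM s r)) := by
  refine ⟨by simp [swL_apply], fun j => ?_⟩
  by_cases h : j = i
  · subst h
    simp only [swL_apply, sw, Prod.fst_sub, Pi.sub_apply, Prod.snd_sub, Function.update_self,
      Prod.fst_swap, Prod.snd_swap]
    ring
  · simp [swL_apply, sw, h]

theorem sw_mem_Rt (i : Fin s) {x : LM s r} (hx : x ∈ (Rt : AddSubgroup (LM s r))) :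
    swL i x ∈ (Rt : AddSubgroup (LM s r)) := by
  have h1 := (Rt : AddSubgroup (LM s r)).add_mem (sw_sub_mem i x) hx
  rwa [sub_add_cancel] at h1

theorem RR_Rt {T : Subgroup (TM s r)}
    (hSL : ∀ c : Fin s → ℂˣ, ((fun i => (c i, (c i)⁻¹), 1) : TM s r) ∈ T) {x : LM s r}
    (h1 : x ∈ RR T) (h2 : x ∈ (Rt : AddSubgroup (LM s r))) : x = 0 := by
  have key : ∀ i, (x.1 i).1 = 0 := by
    intro i
    have h3 := h1 _ (hSL (Function.update 1 i (Units.mk0 2 two_ne_zero)))
    rw [em_apply] at h3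
    simp only [Pi.one_apply, Units.val_one, _root_.one_zpow, Finset.prod_const_one, mul_one] at h3
    rw [Finset.prod_eq_single i (fun j _ hj => by
      rw [Function.update_of_ne hj]
      simp) (fun h => absurd (Finset.mem_univ i) h)] at h3
    simp only [Function.update_self, Units.val_mk0, Units.val_inv_eq_inv_val] at h3
    have h4 : (x.1 i).2 = -(x.1 i).1 := by
      have := h2.2 i
      linarith
    rw [h4, _root_.inv_zpow, _root_.zpow_neg, inv_inv, ← _root_.zpow_add₀ two_ne_zero] at h3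
    have h5 := congrArg norm h3
    rw [norm_zpow, Complex.norm_ofNat, norm_one] at h5
    have h6 : ((2 : ℝ)) ^ ((x.1 i).1 + (x.1 i).1) = (2 : ℝ) ^ (0 : ℤ) := by
      rw [h5, _root_.zpow_zero]
    have h7 := zpow_right_injective₀ (by norm_num : (0 : ℝ) < 2) (by norm_num) h6
    omega
  refine Prod.ext ?_ h2.1
  funext i
  have h3 := h2.2 i
  rw [key i, zero_add] at h3
  exact Prod.ext (key i) h3

theorem sw_RR {T : Subgroup (TM s r)} (hsw : ∀ i, ∀ g ∈ T, swT i g ∈ T) (i : Fin s) :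
    RR T ≤ (RR T).comap (swL i) := fun x hx g hg => by
  rw [em_sw]
  exact hx _ (hsw i g hg)

/-- **an equivariant section** -/
theorem exists_sec {T : Subgroup (TM s r)}
    (hSL : ∀ c : Fin s → ℂˣ, ((fun i => (c i, (c i)⁻¹), 1) : TM s r) ∈ T)
    (hsw : ∀ i, ∀ g ∈ T, swT i g ∈ T) :
    ∃ l : (LM s r ⧸ RR T) → LM s r, (∀ q, ((l q : LM s r) : LM s r ⧸ RR T) = q) ∧
      ∀ i q, l (QuotientAddGroup.map (RR T) (RR T) (swL i) (sw_RR hsw i) q) = swL i (l q) := by
  classical
  set K : AddSubgroup (LM s r) := RR T ⊔ Rt with hK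
  set π : (LM s r ⧸ RR T) →+ (LM s r ⧸ K) :=
    QuotientAddGroup.map (RR T) K (AddMonoidHom.id _) (by
      rw [AddSubgroup.comap_id]
      exact le_sup_left) with hπ
  set c : (LM s r ⧸ RR T) → LM s r := fun q => (π q).out with hc
  have h1 : ∀ q, ∃ ν ∈ (Rt : AddSubgroup (LM s r)), ((c q + ν : LM s r) : LM s r ⧸ RR T) = q := by
    intro q
    obtain ⟨x, rfl⟩ := QuotientAddGroup.mk_surjective q
    have h2 : π (x : LM s r ⧸ RR T) = (x : LM s r ⧸ K) := rfl
    obtain ⟨h, hh⟩ := QuotientAddGroup.mk_out_eq_add K x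
    obtain ⟨ρ, hρ, ν, hν, hsum⟩ := AddSubgroup.mem_sup.1 h.2
    refine ⟨-ν, neg_mem hν, ?_⟩
    have h3 : c (x : LM s r ⧸ RR T) = x + (ρ + ν) := by
      rw [hc]
      simp only
      rw [h2, hh, hsum]
    rw [h3, QuotientAddGroup.eq]
    have h4 : -(x + (ρ + ν) + -ν) + x = -ρ := by abel
    rw [h4]
    exact neg_mem hρ
  choose ν hν1 hν2 using h1
  refine ⟨fun q => c q + ν q, hν2, fun i q => ?_⟩
  have h2 : π (QuotientAddGroup.map (RR T) (RR T) (swL i) (sw_RR hsw i) q) = π q := by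
    obtain ⟨x, rfl⟩ := QuotientAddGroup.mk_surjective q
    show ((swL i x : LM s r) : LM s r ⧸ K) = (x : LM s r ⧸ K)
    rw [QuotientAddGroup.eq]
    have h3 : -(swL i x) + x = -(swL i x - x) := by abel
    rw [h3]
    exact neg_mem (AddSubgroup.mem_sup_right (sw_sub_mem i x))
  set q' := QuotientAddGroup.map (RR T) (RR T) (swL i) (sw_RR hsw i) q with hq'
  have h3 : c q' = c q := by
    rw [hc]
    simp only
    rw [h2]
  set δ : LM s r := swL i (c q) - c q + swL i (ν q) with hδ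
  have h4 : δ ∈ (Rt : AddSubgroup (LM s r)) := add_mem (sw_sub_mem i _) (sw_mem_Rt i (hν1 q))
  have h5 : c q + δ = swL i (c q + ν q) := by
    rw [hδ, map_add]
    abel
  have h6 : ((c q + δ : LM s r) : LM s r ⧸ RR T) = q' := by
    rw [h5, hq']
    conv_rhs => rw [← hν2 q]
    rfl
  have h7 : ν q' = δ := by
    have h8 : ((c q + ν q' : LM s r) : LM s r ⧸ RR T) = ((c q + δ : LM s r) : LM s r ⧸ RR T) := by
      rw [h6, ← h3, hν2 q']
    rw [QuotientAddGroup.eq] at h8
    have h9 : -(c q + ν q') + (c q + δ) = δ - ν q' := by abel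
    rw [h9] at h8
    exact (sub_eq_zero.1 (RR_Rt hSL h8 (sub_mem h4 (hν1 q')))).symm
  show c q' + ν q' = swL i (c q + ν q)
  rw [h3, h7, h5]

/-- the characters of the subgroup -/
noncomputable def eb (T : Subgroup (TM s r)) (q : LM s r ⧸ RR T) : T →* ℂ :=
  (em q.out).comp T.subtype

theorem eb_mk {T : Subgroup (TM s r)} (x : LM s r) (g : T) :
    eb T (x : LM s r ⧸ RR T) g = em x g := by
  obtain ⟨h, hh⟩ := QuotientAddGroup.mk_out_eq_add (RR T) x
  show em ((x : LM s r ⧸ RR T).out) g = em x g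
  rw [hh, em_add, h.2 g g.2, mul_one]

theorem chars_eb (T : Subgroup (TM s r)) : Gen.Chars (eb T) := by
  refine ⟨fun x y g => ?_, fun g => ?_, fun x y h => ?_⟩
  · obtain ⟨x, rfl⟩ := QuotientAddGroup.mk_surjective x
    obtain ⟨y, rfl⟩ := QuotientAddGroup.mk_surjective y
    rw [← QuotientAddGroup.mk_add, eb_mk, eb_mk, eb_mk, em_add]
  · rw [← QuotientAddGroup.mk_zero, eb_mk, em_zero]
  · obtain ⟨x, rfl⟩ := QuotientAddGroup.mk_surjective x
    obtain ⟨y, rfl⟩ := QuotientAddGroup.mk_surjective y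
    rw [QuotientAddGroup.eq]
    intro g hg
    have h1 := DFunLike.congr_fun h ⟨g, hg⟩
    rw [eb_mk, eb_mk] at h1
    have h2 := em_add x (-x + y) g
    rw [add_neg_cancel_left] at h2
    rw [← h1] at h2
    simp only at h2
    have h3 : em x g ≠ 0 := em_ne
    exact (mul_left_cancel₀ h3 (by rw [mul_one]; exact h2)).symm

/-- **weights** of representations of the subgroup -/
theorem weights_sub {T : Subgroup (TM s r)}
    (hSL : ∀ c : Fin s → ℂˣ, ((fun i => (c i, (c i)⁻¹), 1) : TM s r) ∈ T)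
    (hsw : ∀ i, ∀ g ∈ T, swT i g ∈ T) {m : ℕ} (τ : T →* Matrix (Fin m) (Fin m) ℂ)
    (hτ : ∀ i j : Fin m, Gen.Lau (eb T) fun g => τ g i j) (P P' : Fin s → Matrix (Fin m) (Fin m) ℂ)
    (hP : ∀ i, P i * P' i = 1)
    (hsym : ∀ i, ∀ g : T, τ ⟨swT i g, hsw i g g.2⟩ = P i * τ g * P' i) :
    ∃ (B : Finset (LM s r)) (mu : LM s r → ℕ), (∀ i, ∀ x ∈ B, (sw i x.1, x.2) ∈ B) ∧
      (∀ i x, mu (sw i x.1, x.2) = mu x) ∧
      ∀ (g : T) (z : ℂ), (1 - z • τ g).det = ∏ x ∈ B, (1 - em x g * z) ^ mu x := by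
  classical
  obtain ⟨l, hl1, hl2⟩ := exists_sec hSL hsw
  obtain ⟨B₀, mu₀, hdet, hs⟩ := Gen.weights (chars_eb T) τ hτ
  have hs' := fun i => hs (QuotientAddGroup.map (RR T) (RR T) (swL i) (sw_RR hsw i))
    (fun g => ⟨swT i g, hsw i g g.2⟩) (P i) (P' i) (fun q => by
      obtain ⟨x, rfl⟩ := QuotientAddGroup.mk_surjective q
      show ((swL i (swL i x) : LM s r) : LM s r ⧸ RR T) = x
      congr 1
      rw [swL_apply, swL_apply, sw_sw]) (fun q g => by
      obtain ⟨x, rfl⟩ := QuotientAddGroup.mk_surjective q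
      show eb T ((swL i x : LM s r) : LM s r ⧸ RR T) g = _
      rw [eb_mk, eb_mk, em_sw]) (hP i) (hsym i)
  refine ⟨B₀.image l, fun x => mu₀ (x : LM s r ⧸ RR T), fun i x hx => ?_, fun i x => ?_,
    fun g z => ?_⟩
  · obtain ⟨q, hq, rfl⟩ := Finset.mem_image.1 hx
    exact Finset.mem_image.2 ⟨_, (hs' i).1 q hq, hl2 i q⟩
  · exact (hs' i).2 (x : LM s r ⧸ RR T)
  · rw [hdet g z, Finset.prod_image]
    · refine Finset.prod_congr rfl fun q _ => ?_
      have h1 : eb T q g = em (l q) g := by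
        conv_lhs => rw [← hl1 q]
        rw [eb_mk]
      rw [h1]
      show _ = _ ^ mu₀ ((l q : LM s r) : LM s r ⧸ RR T)
      rw [hl1 q]
    · intro x _ y _ hxy
      rw [← hl1 x, ← hl1 y, hxy]

end Pool.Agent.L7h29.GT
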