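import Pool.Agent.L7h29.GT.Mer

/-!
# All representations from the first few
-/

set_option autoImplicit false

namespace Pool.Agent.L7h29.GT

open Filter Topology Complex Set Pool.Agent.N210.FV Pool.Agent.N210.FW Pool.Agent.N845.SP

theorem hk_succ' (k : ℕ) (u v : ℂ) : hk (k + 1) u v = v * hk k u v + u ^ (k + 1) := by
  unfold hk
  rw [Finset.sum_range_succ', Finset.mul_sum]
  congr 1
  · refine Finset.sum_congr rfl fun i _ => ?_
    rw [show k + 1 - (i + 1) = k - i by omega, pow_succ]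
    ring
  · simp

theorem hk_diff (k : ℕ) (u v : ℂ) :
    hk (k + 2) u v - u * v * hk k u v = u ^ (k + 2) + v ^ (k + 2) := by
  rw [hk_succ (k + 1), hk_succ' k]
  ring

/-- traces of `Sym^k ⊗ det^m` -/
noncomputable def EE (α β : ℕ → ℂ) (k : ℕ) (m : ℤ) (p n : ℕ) : ℂ :=
  (α p ^ n * β p ^ n) ^ m * hk k (α p ^ n) (β p ^ n)

/-- `α / β + β / α` for the powers -/
noncomputable def ZZ (α β : ℕ → ℂ) (p n : ℕ) : ℝ := ((α p / β p) ^ n + ((α p / β p) ^ n)⁻¹).re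

noncomputable def Ax (α β : ℕ → ℂ) (k : ℕ) (m : ℤ) (p n : ℕ) : ℂ :=
  (α p ^ n * β p ^ n) ^ m * (xr k (ZZ α β p n) : ℂ)

noncomputable def Bx (α β : ℕ → ℂ) (k : ℕ) (m : ℤ) (p n : ℕ) : ℂ :=
  (α p ^ n + β p ^ n) * (α p ^ n * β p ^ n) ^ m * (xr k (ZZ α β p n) : ℂ)

/-- a form with few values, all its properties -/
structure Ready (S : Finset ℕ) (α β : ℕ → ℂ) (W : Finset ℝ) : Prop where
  a0 : ∀ p : ℕ, p.Prime → p ∉ S → α p ≠ 0
  b0 : ∀ p : ℕ, p.Prime → p ∉ S → β p ≠ 0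
  cl : ∀ p : ℕ, p.Prime → p ∉ S → ∀ n : ℕ, 1 ≤ n →
    ∃ v ∈ W, (α p / β p) ^ n + ((α p / β p) ^ n)⁻¹ = (v : ℂ)

variable {S : Finset ℕ} {α β : ℕ → ℂ} {W : Finset ℝ}

theorem Ready.zz (h : Ready S α β W) {p : ℕ} (hp : p.Prime) (hpS : p ∉ S) {n : ℕ} (hn : 1 ≤ n) :
    (α p / β p) ^ n + ((α p / β p) ^ n)⁻¹ = (ZZ α β p n : ℂ) := by
  obtain ⟨v, -, hv⟩ := h.cl p hp hpS n hn
  unfold ZZ
  rw [hv, Complex.ofReal_re]

theorem Ready.sq (h : Ready S α β W) {p : ℕ} (hp : p.Prime) (hpS : p ∉ S) {n : ℕ} (hn : 1 ≤ n) :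
    (α p ^ n + β p ^ n) ^ 2 = α p ^ n * β p ^ n * (ZZ α β p n + 2) := by
  have hz := h.zz hp hpS hn
  have h1 : α p ^ n ≠ 0 := pow_ne_zero n (h.a0 p hp hpS)
  have h2 : β p ^ n ≠ 0 := pow_ne_zero n (h.b0 p hp hpS)
  rw [div_pow] at hz
  field_simp at hz
  linear_combination hz

theorem Ready.E_odd (h : Ready S α β W) (j : ℕ) (m : ℤ) {p : ℕ} (hp : p.Prime) (hpS : p ∉ S) {n : ℕ}
    (hn : 1 ≤ n) : EE α β (2 * j + 1) m p n = Bx α β j (m + j) p n := by
  have h1 : α p ^ n * β p ^ n ≠ 0 :=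
    mul_ne_zero (pow_ne_zero n (h.a0 p hp hpS)) (pow_ne_zero n (h.b0 p hp hpS))
  unfold EE Bx
  rw [(hk_xr (h.sq hp hpS hn) j).1, zpow_add₀ h1, zpow_natCast]
  ring

theorem Ready.E_even (h : Ready S α β W) (j : ℕ) (m : ℤ) {p : ℕ} (hp : p.Prime) (hpS : p ∉ S) {n : ℕ}
    (hn : 1 ≤ n) : EE α β (2 * j + 2) m p n =
      Ax α β (j + 1) (m + j + 1) p n + Ax α β j (m + j + 1) p n := by
  have h1 : α p ^ n * β p ^ n ≠ 0 :=
    mul_ne_zero (pow_ne_zero n (h.a0 p hp hpS)) (pow_ne_zero n (h.b0 p hp hpS))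
  unfold EE Ax
  rw [(hk_xr (h.sq hp hpS hn) j).2, add_assoc m, zpow_add₀ h1]
  have : (α p ^ n * β p ^ n) ^ ((j : ℤ) + 1) = (α p ^ n * β p ^ n) ^ (j + 1) := by
    rw [← zpow_natCast]
    push_cast
    rfl
  rw [this]
  ring

/-- **all `k`** : for a subgroup `G` of functions which depends only on the unramified values -/
theorem Ready.all (h : Ready S α β W) {J : ℕ} (hW : W.card ≤ J + 1) (G : AddSubgroup (ℕ → ℕ → ℂ))
    (hG : ∀ f ∈ G, ∀ g : ℕ → ℕ → ℂ,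
      (∀ p : ℕ, p.Prime → p ∉ S → ∀ n : ℕ, 1 ≤ n → f p n = g p n) → g ∈ G)
    (hE : ∀ k ≤ 2 * J + 1, ∀ m : ℤ, EE α β k m ∈ G) (k : ℕ) (m : ℤ) : EE α β k m ∈ G := by
  have hA0 : ∀ m : ℤ, Ax α β 0 m ∈ G := fun m => hG _ (hE 0 (by omega) m) _ fun p hp hpS n hn => by
    unfold EE Ax
    rw [hk_zero]
    simp [xr]
  have hA : ∀ j ≤ J, ∀ m : ℤ, Ax α β j m ∈ G := by
    intro j
    induction j with
    | zero => exact fun _ m => hA0 m
    | succ j ih =>
      intro hj m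
      have h1 := G.sub_mem (hE (2 * j + 2) (by omega) (m - j - 1)) (ih (by omega) m)
      refine hG _ h1 _ fun p hp hpS n hn => ?_
      have h2 := h.E_even j (m - j - 1) hp hpS hn
      simp only [Pi.sub_apply]
      rw [h2, show m - j - 1 + j + 1 = m by ring]
      ring
  have hB : ∀ j ≤ J, ∀ m : ℤ, Bx α β j m ∈ G := by
    intro j hj m
    refine hG _ (hE (2 * j + 1) (by omega) (m - j)) _ fun p hp hpS n hn => ?_
    rw [h.E_odd j (m - j) hp hpS hn, sub_add_cancel]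
  have hred := red (fun p hp hpS => div_ne_zero (h.a0 p hp hpS) (h.b0 p hp hpS)) W h.cl
  have hA' : ∀ (j : ℕ) (m : ℤ), Ax α β j m ∈ G := by
    intro j m
    obtain ⟨c, hc⟩ := hred j
    have h1 : ∑ i ∈ Finset.range W.card, c i • Ax α β i m ∈ G :=
      G.sum_mem fun i hi => G.zsmul_mem (hA i (by rw [Finset.mem_range] at hi; omega) m) _
    refine hG _ h1 _ fun p hp hpS n hn => ?_
    have h2 := hc p hp hpS n hn _ (h.zz hp hpS hn)
    simp only [Finset.sum_apply, zsmul_eq_mul, Pi.mul_apply, Pi.intCast_apply]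
    unfold Ax
    rw [h2]
    push_cast
    rw [Finset.mul_sum]
    refine Finset.sum_congr rfl fun i _ => ?_
    ring
  have hB' : ∀ (j : ℕ) (m : ℤ), Bx α β j m ∈ G := by
    intro j m
    obtain ⟨c, hc⟩ := hred j
    have h1 : ∑ i ∈ Finset.range W.card, c i • Bx α β i m ∈ G :=
      G.sum_mem fun i hi => G.zsmul_mem (hB i (by rw [Finset.mem_range] at hi; omega) m) _
    refine hG _ h1 _ fun p hp hpS n hn => ?_
    have h2 := hc p hp hpS n hn _ (h.zz hp hpS hn)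
    simp only [Finset.sum_apply, zsmul_eq_mul, Pi.mul_apply, Pi.intCast_apply]
    unfold Bx
    rw [h2]
    push_cast
    rw [Finset.mul_sum]
    refine Finset.sum_congr rfl fun i _ => ?_
    ring
  rcases Nat.eq_zero_or_pos k with h0 | h0
  · subst h0
    exact hE 0 (by omega) m
  rcases Nat.even_or_odd k with hk | hk
  · obtain ⟨j, rfl⟩ : ∃ j, k = 2 * j + 2 := by
      obtain ⟨i, hi⟩ := hk
      exact ⟨i - 1, by omega⟩
    exact hG _ (G.add_mem (hA' (j + 1) (m + j + 1)) (hA' j (m + j + 1))) _ fun p hp hpS n hn =>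
      (h.E_even j m hp hpS hn).symm
  · obtain ⟨j, rfl⟩ := hk
    exact hG _ (hB' j (m + j)) _ fun p hp hpS n hn => (h.E_odd j m hp hpS hn).symm

/-- the weight `(i, j)` -/
noncomputable def wt (α β : ℕ → ℂ) (x : ℤ × ℤ) (p n : ℕ) : ℂ := (α p ^ n) ^ x.1 * (β p ^ n) ^ x.2

/-- symmetric combinations of weights -/
theorem wt_mem (ha : ∀ p : ℕ, p.Prime → p ∉ S → α p ≠ 0) (hb : ∀ p : ℕ, p.Prime → p ∉ S → β p ≠ 0)
    (G : AddSubgroup (ℕ → ℕ → ℂ))
    (hG : ∀ f ∈ G, ∀ g : ℕ → ℕ → ℂ,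
      (∀ p : ℕ, p.Prime → p ∉ S → ∀ n : ℕ, 1 ≤ n → f p n = g p n) → g ∈ G)
    (hE : ∀ (k : ℕ) (m : ℤ), EE α β k m ∈ G) (B : Finset (ℤ × ℤ)) (hB : ∀ x ∈ B, x.swap ∈ B)
    (r : ℤ × ℤ → ℕ) (hr : ∀ x, r x.swap = r x) : ∑ x ∈ B, r x • wt α β x ∈ G := by
  classical
  have hpair : ∀ x : ℤ × ℤ, x.2 < x.1 → wt α β x + wt α β x.swap ∈ G := by
    rintro ⟨i, j⟩ hij
    simp only at hij
    obtain ⟨k, hk⟩ := Int.eq_ofNat_of_zero_le (show 0 ≤ i - j - 1 by omega)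
    have hi : i = j + (k + 1 : ℕ) := by push_cast; omega
    subst hi
    have key : ∀ p : ℕ, p.Prime → p ∉ S → ∀ n : ℕ, 1 ≤ n →
        (wt α β (j + (k + 1 : ℕ), j) + wt α β (j + (k + 1 : ℕ), j).swap) p n =
          (α p ^ n * β p ^ n) ^ j * ((α p ^ n) ^ (k + 1) + (β p ^ n) ^ (k + 1)) := by
      intro p hp hpS n _
      have h1 : α p ^ n ≠ 0 := pow_ne_zero n (ha p hp hpS)
      have h2 : β p ^ n ≠ 0 := pow_ne_zero n (hb p hp hpS)
      simp only [Pi.add_apply, wt, Prod.swap]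
      rw [zpow_add₀ h1, zpow_add₀ h2, zpow_natCast, zpow_natCast, mul_zpow]
      ring
    rcases Nat.eq_zero_or_pos k with h0 | h0
    · subst h0
      refine hG _ (hE 1 j) _ fun p hp hpS n hn => ?_
      rw [key p hp hpS n hn]
      unfold EE
      rw [hk_one]
      ring
    · obtain ⟨l, rfl⟩ := Nat.exists_eq_add_of_le' h0
      refine hG _ (G.sub_mem (hE (l + 2) j) (hE l (j + 1))) _ fun p hp hpS n hn => ?_
      rw [key p hp hpS n hn, show l + 1 + 1 = l + 2 by ring, ← hk_diff]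
      have h1 : α p ^ n * β p ^ n ≠ 0 :=
        mul_ne_zero (pow_ne_zero n (ha p hp hpS)) (pow_ne_zero n (hb p hp hpS))
      simp only [Pi.sub_apply]
      unfold EE
      rw [zpow_add_one₀ h1]
      ring
  have hdiag : ∀ x : ℤ × ℤ, x.1 = x.2 → wt α β x ∈ G := by
    rintro ⟨i, j⟩ hij
    simp only at hij
    subst hij
    refine hG _ (hE 0 i) _ fun p hp hpS n hn => ?_
    unfold EE wt
    rw [hk_zero, mul_zpow]
    ring
  have hs1 : ∑ x ∈ B, r x • wt α β x = ∑ x ∈ B.filter (fun x => x.1 = x.2), r x • wt α β x +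
      ∑ x ∈ B.filter (fun x => x.2 < x.1), r x • (wt α β x + wt α β x.swap) := by
    have h1 := Finset.sum_filter_add_sum_filter_not B (fun x => x.1 = x.2) fun x => r x • wt α β x
    rw [← h1]
    congr 1
    have h2 := Finset.sum_filter_add_sum_filter_not (B.filter fun x => ¬ x.1 = x.2)
      (fun x => x.2 < x.1) fun x => r x • wt α β x
    rw [← h2]
    simp only [smul_add, Finset.sum_add_distrib]
    have e1 : (B.filter fun x => ¬ x.1 = x.2).filter (fun x => x.2 < x.1) =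
        B.filter fun x => x.2 < x.1 := by
      ext x
      simp only [Finset.mem_filter]
      constructor
      · rintro ⟨⟨h3, -⟩, h4⟩
        exact ⟨h3, h4⟩
      · rintro ⟨h3, h4⟩
        exact ⟨⟨h3, h4.ne'⟩, h4⟩
    rw [e1]
    congr 1
    refine Finset.sum_nbij' (fun x => x.swap) (fun x => x.swap) ?_ ?_ ?_ ?_ ?_
    · intro x hx
      simp only [Finset.mem_filter, Prod.fst_swap, Prod.snd_swap] at hx ⊢
      exact ⟨hB x hx.1.1, by omega⟩
    · intro x hx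
      simp only [Finset.mem_filter, Prod.fst_swap, Prod.snd_swap] at hx ⊢
      exact ⟨⟨hB x hx.1, by omega⟩, by omega⟩
    · intro x _
      exact Prod.swap_swap x
    · intro x _
      exact Prod.swap_swap x
    · intro x _
      rw [hr, Prod.swap_swap]
  rw [hs1]
  refine G.add_mem (G.sum_mem fun x hx => G.nsmul_mem (hdiag x (Finset.mem_filter.1 hx).2) _)
    (G.sum_mem fun x hx => G.nsmul_mem (hpair x (Finset.mem_filter.1 hx).2) _)

end Pool.Agent.L7h29.GT
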