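import Mathlib

/-!
# Weights of algebraic representations of `GL_2(ℂ)`
-/

set_option autoImplicit false

namespace Pool.Agent.L7h29.GT

open Matrix

/-- `diag (a, b)` -/
noncomputable def dg (a b : ℂˣ) : GL (Fin 2) ℂ :=
  ⟨!![(a : ℂ), 0; 0, (b : ℂ)], !![((a⁻¹ : ℂˣ) : ℂ), 0; 0, ((b⁻¹ : ℂˣ) : ℂ)], by
    ext i j
    fin_cases i <;> fin_cases j <;> simp [Matrix.mul_apply, Fin.sum_univ_two], by
    ext i j
    fin_cases i <;> fin_cases j <;> simp [Matrix.mul_apply, Fin.sum_univ_two]⟩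

theorem dg_mul (a b c d : ℂˣ) : dg a b * dg c d = dg (a * c) (b * d) := by
  ext i j
  fin_cases i <;> fin_cases j <;> simp [dg, Matrix.mul_apply, Fin.sum_univ_two]

theorem dg_one : dg 1 1 = 1 := by
  ext i j
  fin_cases i <;> fin_cases j <;> simp [dg]

/-- the Weyl element -/
noncomputable def wl : GL (Fin 2) ℂ :=
  ⟨!![0, 1; 1, 0], !![0, 1; 1, 0], by
    ext i j
    fin_cases i <;> fin_cases j <;> simp [Matrix.mul_apply, Fin.sum_univ_two], by
    ext i j
    fin_cases i <;> fin_cases j <;> simp [Matrix.mul_apply, Fin.sum_univ_two]⟩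

theorem wl_dg (a b : ℂˣ) : wl * dg a b * wl⁻¹ = dg b a := by
  rw [mul_inv_eq_iff_eq_mul]
  ext i j
  fin_cases i <;> fin_cases j <;> simp [dg, wl, Matrix.mul_apply, Fin.sum_univ_two]

/-- the characters of the torus -/
noncomputable def ee (x : ℤ × ℤ) : (ℂˣ × ℂˣ) →* ℂ where
  toFun g := ((g.1 ^ x.1 * g.2 ^ x.2 : ℂˣ) : ℂ)
  map_one' := by simp
  map_mul' g h := by
    simp only [Prod.fst_mul, Prod.snd_mul, mul_zpow, Units.val_mul]
    ring

theorem ee_apply (x : ℤ × ℤ) (g : ℂˣ × ℂˣ) :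
    ee x g = (g.1 : ℂ) ^ x.1 * (g.2 : ℂ) ^ x.2 := by
  simp [ee]

theorem ee_inj : Function.Injective ee := by
  rintro ⟨x1, x2⟩ ⟨y1, y2⟩ h
  have h2 : ((2 : ℂ)) ≠ 0 := two_ne_zero
  have key : ∀ x y : ℤ, (2 : ℂ) ^ x = (2 : ℂ) ^ y → x = y := by
    intro x y hxy
    have h3 := congrArg norm hxy
    rw [norm_zpow, norm_zpow, Complex.norm_ofNat] at h3
    exact zpow_right_injective₀ (by norm_num) (by norm_num) h3
  have e1 := DFunLike.congr_fun h (Units.mk0 2 h2, 1)
  have e2 := DFunLike.congr_fun h (1, Units.mk0 2 h2)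
  rw [ee_apply, ee_apply] at e1 e2
  simp only [Units.val_mk0, Units.val_one, _root_.one_zpow, mul_one, one_mul] at e1 e2
  rw [Prod.mk.injEq]
  exact ⟨key _ _ e1, key _ _ e2⟩

theorem ee_li : LinearIndependent ℂ (fun x : ℤ × ℤ => (ee x : ℂˣ × ℂˣ → ℂ)) :=
  (linearIndependent_monoidHom (ℂˣ × ℂˣ) ℂ).comp ee ee_inj

theorem ee_zero {m : ℕ} (B : Finset (ℤ × ℤ)) (C : ℤ × ℤ → Matrix (Fin m) (Fin m) ℂ)
    (h : ∀ g, ∑ x ∈ B, ee x g • C x = 0) : ∀ x ∈ B, C x = 0 := by
  intro x hx
  ext i j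
  refine linearIndependent_iff'.1 ee_li B (fun x => C x i j) ?_ x hx
  funext g
  have h1 := congrFun (congrFun (h g) i) j
  rw [Matrix.sum_apply] at h1
  simp only [Matrix.smul_apply, smul_eq_mul, Matrix.zero_apply] at h1
  simp only [Finset.sum_apply, Pi.smul_apply, smul_eq_mul, Pi.zero_apply]
  rw [← h1]
  exact Finset.sum_congr rfl fun x _ => mul_comm _ _

theorem ee_eq {m : ℕ} (B : Finset (ℤ × ℤ)) (C D : ℤ × ℤ → Matrix (Fin m) (Fin m) ℂ)
    (h : ∀ g, ∑ x ∈ B, ee x g • C x = ∑ x ∈ B, ee x g • D x) : ∀ x ∈ B, C x = D x := by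
  intro x hx
  have h1 := ee_zero B (fun x => C x - D x) (fun g => by
    simp only [smul_sub, Finset.sum_sub_distrib, h g, sub_self]) x hx
  exact sub_eq_zero.1 h1

/-- Laurent polynomials as functions on the torus -/
noncomputable def Fm : Multiplicative (ℤ × ℤ) →* (ℂˣ × ℂˣ → ℂ) where
  toFun x g := ee (Multiplicative.toAdd x) g
  map_one' := by
    funext g
    simp [ee]
  map_mul' x y := by
    funext g
    simp only [ee, toAdd_mul, Prod.fst_add, Prod.snd_add, _root_.zpow_add, Pi.mul_apply, MonoidHom.coe_mk,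
      OneHom.coe_mk, Units.val_mul]
    ring

/-- polynomial functions in the entries and the inverse determinant -/
theorem exists_laurent (P : MvPolynomial (Option (Fin 2 × Fin 2)) ℂ) :
    ∃ τ : (ℤ × ℤ) →₀ ℂ, ∀ a b : ℂˣ, MvPolynomial.eval (fun o : Option (Fin 2 × Fin 2) =>
      o.elim (((dg a b).val.det)⁻¹) (fun x => (dg a b).val x.1 x.2)) P =
        ∑ x ∈ τ.support, τ x * ee x (a, b) := by
  classical
  set Φ := AddMonoidAlgebra.lift ℂ (ℂˣ × ℂˣ → ℂ) (ℤ × ℤ) Fm with hΦ
  have hΦs : ∀ x : ℤ × ℤ, Φ (AddMonoidAlgebra.single x 1) = fun g => ee x g := by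
    intro x
    rw [hΦ, AddMonoidAlgebra.lift_single, one_smul]
    rfl
  set V : Option (Fin 2 × Fin 2) → (ℂˣ × ℂˣ → ℂ) := fun o g =>
    o.elim (((dg g.1 g.2).val.det)⁻¹) (fun x => (dg g.1 g.2).val x.1 x.2) with hV
  have hVr : ∀ o, ∃ w, Φ w = V o := by
    intro o
    match o with
    | none =>
      refine ⟨AddMonoidAlgebra.single (-1, -1) 1, ?_⟩
      rw [hΦs]
      funext g
      rw [ee_apply]
      simp [hV, dg, Matrix.det_fin_two]
      ring
    | some (0, 0) =>
      refine ⟨AddMonoidAlgebra.single (1, 0) 1, ?_⟩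
      rw [hΦs]
      funext g
      rw [ee_apply]
      simp [hV, dg]
    | some (0, 1) =>
      refine ⟨0, ?_⟩
      rw [map_zero]
      funext g
      simp [hV, dg]
    | some (1, 0) =>
      refine ⟨0, ?_⟩
      rw [map_zero]
      funext g
      simp [hV, dg]
    | some (1, 1) =>
      refine ⟨AddMonoidAlgebra.single (0, 1) 1, ?_⟩
      rw [hΦs]
      funext g
      rw [ee_apply]
      simp [hV, dg]
  choose W hW using hVr
  have h1 : Φ.comp (MvPolynomial.aeval W) = MvPolynomial.aeval V := by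
    refine MvPolynomial.algHom_ext fun o => ?_
    simp [hW]
  refine ⟨(MvPolynomial.aeval W P).coeff, fun a b => ?_⟩
  have h2 : (MvPolynomial.aeval V P) (a, b) = MvPolynomial.eval (fun o => V o (a, b)) P := by
    have h3 : (Pi.evalAlgHom ℂ (fun _ : ℂˣ × ℂˣ => ℂ) (a, b)).comp (MvPolynomial.aeval V) =
        MvPolynomial.aeval (fun o => V o (a, b)) := by
      refine MvPolynomial.algHom_ext fun o => ?_
      simp
    have h4 := DFunLike.congr_fun h3 P
    rw [MvPolynomial.aeval_eq_eval] at h4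
    exact h4
  have h3 : (MvPolynomial.aeval V P) (a, b) = Φ (MvPolynomial.aeval W P) (a, b) := by
    rw [← h1]
    rfl
  have h4 : Φ (MvPolynomial.aeval W P) (a, b) =
      ∑ x ∈ (MvPolynomial.aeval W P).coeff.support, (MvPolynomial.aeval W P).coeff x *
        ee x (a, b) := by
    rw [hΦ, AddMonoidAlgebra.lift_apply]
    unfold Finsupp.sum
    rw [Finset.sum_apply]
    rfl
  rw [← h4, ← h3, h2]

/-- an idempotent -/
theorem idem_pow {m : ℕ} (M : Matrix (Fin m) (Fin m) ℂ) (hM : M * M = M) :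
    ∃ r : ℕ, ∀ t : ℂ, (1 + (t - 1) • M).det = t ^ r := by
  classical
  set Q : Polynomial ℂ := ((1 : Matrix (Fin m) (Fin m) (Polynomial ℂ)) +
    (Polynomial.X - 1 : Polynomial ℂ) • M.map Polynomial.C).det with hQ
  have hev : ∀ t : ℂ, Q.eval t = (1 + (t - 1) • M).det := by
    intro t
    rw [hQ, ← Polynomial.coe_evalRingHom, RingHom.map_det]
    congr 1
    ext i j
    rw [RingHom.mapMatrix_apply, Matrix.map_apply, Matrix.add_apply, Matrix.smul_apply,
      Matrix.map_apply, Polynomial.coe_evalRingHom, Matrix.add_apply, Matrix.smul_apply]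
    rcases eq_or_ne i j with h | h
    · subst h
      simp
    · simp [Matrix.one_apply_ne h]
  have hmul : ∀ s t : ℂ, Q.eval (s * t) = Q.eval s * Q.eval t := by
    intro s t
    rw [hev, hev, hev, ← Matrix.det_mul]
    congr 1
    rw [add_mul, mul_add, mul_add, one_mul, mul_one, one_mul, Matrix.smul_mul, Matrix.mul_smul, hM,
      smul_smul, add_assoc, ← add_smul, ← add_smul]
    congr 2
    ring
  have hQ1 : Q.eval 1 = 1 := by
    rw [hev]
    simp
  have hQ0 : Q ≠ 0 := by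
    intro h
    rw [h, Polynomial.eval_zero] at hQ1
    exact zero_ne_one hQ1
  have hc : ∀ s : ℂ, ∀ k : ℕ, Q.coeff k * s ^ k = Q.eval s * Q.coeff k := by
    intro s k
    have h1 : Q.comp (Polynomial.C s * Polynomial.X) = Polynomial.C (Q.eval s) * Q := by
      refine Polynomial.funext fun t => ?_
      rw [Polynomial.eval_comp, Polynomial.eval_mul, Polynomial.eval_mul, Polynomial.eval_C,
        Polynomial.eval_C, Polynomial.eval_X, hmul]
    have h2 := congrArg (fun R => Polynomial.coeff R k) h1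
    simpa only [Polynomial.comp_C_mul_X_coeff, Polynomial.coeff_C_mul] using h2
  obtain ⟨k, hk⟩ : ∃ k, Q.coeff k ≠ 0 := by
    by_contra hcon
    push Not at hcon
    exact hQ0 (Polynomial.ext fun n => by rw [hcon n, Polynomial.coeff_zero])
  refine ⟨k, fun t => ?_⟩
  rw [← hev]
  have h1 := hc t k
  rw [mul_comm (Q.eval t)] at h1
  exact (mul_left_cancel₀ hk h1).symm

/-- combinations of orthogonal idempotents -/
theorem det_prod {m : ℕ} (s : Finset (ℤ × ℤ)) (M : ℤ × ℤ → Matrix (Fin m) (Fin m) ℂ)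
    (hM : ∀ x ∈ s, ∀ y ∈ s, x ≠ y → M x * M y = 0) (c : ℤ × ℤ → ℂ) :
    (1 + ∑ x ∈ s, c x • M x).det = ∏ x ∈ s, (1 + c x • M x).det := by
  classical
  induction s using Finset.induction_on with
  | empty => simp
  | insert a s ha ih =>
    rw [Finset.prod_insert ha, ← ih fun x hx y hy hxy =>
      hM x (Finset.mem_insert_of_mem hx) y (Finset.mem_insert_of_mem hy) hxy, ← Matrix.det_mul]
    congr 1
    rw [Finset.sum_insert ha, add_mul, mul_add, mul_add, one_mul, mul_one, one_mul,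
      Finset.mul_sum]
    have h1 : ∑ x ∈ s, c a • M a * c x • M x = 0 := by
      refine Finset.sum_eq_zero fun x hx => ?_
      rw [Matrix.smul_mul, Matrix.mul_smul, hM a (Finset.mem_insert_self _ _) x
        (Finset.mem_insert_of_mem hx) (fun h => ha (h ▸ hx)), smul_zero, smul_zero]
    rw [h1, add_zero]
    abel

/-- **weights of a representation** -/
theorem rep_weights {m : ℕ} (ρ : GL (Fin 2) ℂ →* GL (Fin m) ℂ)
    (hρ : ∀ i j : Fin m, ∃ P : MvPolynomial (Option (Fin 2 × Fin 2)) ℂ, ∀ g : GL (Fin 2) ℂ,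
      (ρ g).val i j = MvPolynomial.eval (fun o : Option (Fin 2 × Fin 2) =>
        o.elim ((g.val.det)⁻¹) (fun x => g.val x.1 x.2)) P) :
    ∃ (B : Finset (ℤ × ℤ)) (r : ℤ × ℤ → ℕ), (∀ x ∈ B, x.swap ∈ B) ∧ (∀ x, r x.swap = r x) ∧
      ∀ (a b : ℂˣ) (z : ℂ), (1 - z • (ρ (dg a b)).val).det =
        ∏ x ∈ B, (1 - (a : ℂ) ^ x.1 * (b : ℂ) ^ x.2 * z) ^ r x := by
  classical
  choose P hP using hρ
  choose τ hτ using fun i j => exists_laurent (P i j)
  set B₀ : Finset (ℤ × ℤ) := Finset.univ.biUnion fun ij : Fin m × Fin m => (τ ij.1 ij.2).support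
    with hB₀
  set B : Finset (ℤ × ℤ) := B₀ ∪ B₀.image Prod.swap with hB
  have hsw : ∀ x ∈ B, x.swap ∈ B := by
    intro x hx
    rcases Finset.mem_union.1 hx with h | h
    · exact Finset.mem_union_right _ (Finset.mem_image_of_mem _ h)
    · obtain ⟨y, hy, rfl⟩ := Finset.mem_image.1 h
      rw [Prod.swap_swap]
      exact Finset.mem_union_left _ hy
  set M : ℤ × ℤ → Matrix (Fin m) (Fin m) ℂ := fun x => Matrix.of fun i j => τ i j x with hM
  have hT : ∀ g : ℂˣ × ℂˣ, (ρ (dg g.1 g.2)).val = ∑ x ∈ B, ee x g • M x := by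
    intro g
    ext i j
    rw [hP, hτ, Matrix.sum_apply]
    have hsub : (τ i j).support ⊆ B := fun x hx => Finset.mem_union_left _
      (Finset.mem_biUnion.2 ⟨(i, j), Finset.mem_univ _, hx⟩)
    rw [Finset.sum_subset hsub fun x _ hx => by
      rw [Finsupp.notMem_support_iff.1 hx, zero_mul]]
    refine Finset.sum_congr rfl fun x _ => ?_
    simp only [hM, Matrix.smul_apply, Matrix.of_apply, smul_eq_mul]
    ring
  have hmul : ∀ g h : ℂˣ × ℂˣ, (ρ (dg g.1 g.2)).val * (ρ (dg h.1 h.2)).val =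
      (ρ (dg (g * h).1 (g * h).2)).val := by
    intro g h
    rw [← Units.val_mul, ← map_mul, dg_mul]
    rfl
  have h1 : ∀ h : ℂˣ × ℂˣ, ∀ x ∈ B, M x * (ρ (dg h.1 h.2)).val = ee x h • M x := by
    intro h
    refine ee_eq B _ _ fun g => ?_
    have h2 := hmul g h
    rw [hT g, hT (g * h), Finset.sum_mul] at h2
    simp only [Matrix.smul_mul] at h2
    rw [h2]
    refine Finset.sum_congr rfl fun x _ => ?_
    rw [map_mul, smul_smul]
  have hort : ∀ x ∈ B, ∀ y ∈ B, M x * M y = if y = x then M x else 0 := by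
    intro x hx
    refine ee_eq B _ _ fun h => ?_
    have h2 := h1 h x hx
    rw [hT h, Finset.mul_sum] at h2
    simp only [Matrix.mul_smul] at h2
    rw [h2]
    simp only [smul_ite, smul_zero]
    rw [Finset.sum_ite_eq' B x fun y => ee y h • M x, if_pos hx]
  choose! r hr using fun x (hx : x ∈ B) => idem_pow (M x) (by rw [hort x hx x hx, if_pos rfl])
  have hconj : ∀ x ∈ B, M x.swap = (ρ wl).val * M x * (ρ wl)⁻¹.val := by
    refine ee_eq B _ _ fun g => ?_
    have h2 : (ρ (dg g.2 g.1)).val = (ρ wl).val * (ρ (dg g.1 g.2)).val * (ρ wl)⁻¹.val := by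
      rw [← wl_dg, map_mul, map_mul, map_inv]
      rfl
    have h3 := hT (g.2, g.1)
    rw [h2, hT g, Finset.mul_sum, Finset.sum_mul] at h3
    simp only [Matrix.mul_smul, Matrix.smul_mul] at h3
    rw [h3]
    refine Finset.sum_nbij' Prod.swap Prod.swap (fun x hx => hsw x hx) (fun x hx => hsw x hx)
      (fun x _ => Prod.swap_swap x) (fun x _ => Prod.swap_swap x) fun x _ => ?_
    congr 1
    rw [ee_apply, ee_apply]
    simp only [Prod.fst_swap, Prod.snd_swap]
    ring
  have hrs : ∀ x ∈ B, r x.swap = r x := by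
    intro x hx
    have h2 := hr x hx 2
    have h3 := hr x.swap (hsw x hx) 2
    rw [hconj x hx] at h3
    have h4 : (1 + ((2 : ℂ) - 1) • ((ρ wl).val * M x * (ρ wl)⁻¹.val)) =
        (ρ wl).val * (1 + ((2 : ℂ) - 1) • M x) * (ρ wl)⁻¹.val := by
      rw [mul_add, add_mul, mul_one, Units.mul_inv, Matrix.mul_smul, Matrix.smul_mul]
    rw [h4, Matrix.det_units_conj, h2] at h3
    have h5 : (2 : ℕ) ^ r x = 2 ^ r x.swap := by exact_mod_cast h3
    exact (Nat.pow_right_injective (le_refl 2) h5).symm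
  refine ⟨B, fun x => if x ∈ B then r x else 0, hsw, fun x => ?_, fun a b z => ?_⟩
  · by_cases hx : x ∈ B
    · simp only [hx, hsw x hx, if_true, hrs x hx]
    · have h2 : x.swap ∉ B := fun h => hx (by
        have := hsw _ h
        rwa [Prod.swap_swap] at this)
      simp only [hx, h2, if_false]
  · have h2 : (1 - z • (ρ (dg a b)).val) =
        1 + ∑ x ∈ B, ((1 - (a : ℂ) ^ x.1 * (b : ℂ) ^ x.2 * z) - 1) • M x := by
      rw [show (ρ (dg a b)).val = ∑ x ∈ B, ee x (a, b) • M x from hT (a, b), Finset.smul_sum,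
        sub_eq_add_neg, ← Finset.sum_neg_distrib]
      congr 1
      refine Finset.sum_congr rfl fun x _ => ?_
      rw [smul_smul, ← neg_smul, ee_apply]
      congr 1
      ring
    rw [h2, det_prod B M (fun x hx y hy hxy => by rw [hort x hx y hy, if_neg (Ne.symm hxy)])]
    refine Finset.prod_congr rfl fun x hx => ?_
    simp only [if_pos hx]
    exact hr x hx _

end Pool.Agent.L7h29.GT
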